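import Pool.Agent.Helper395.CS.Product

open scoped WithZero Matrix
open WithZero

set_option linter.unusedSectionVars false

namespace Pool.Agent.Helper395.CS

variable {K : Type} [Field K] [Algebra ℂ K] {n m : ℕ}

/-- `v`-integrality of a vector -/
def Point.Reg (v : Point K) {n : ℕ} (s : Fin n → K) : Prop := ∀ i, v.val (s i) ≤ 1

/-- `v`-integrality of a matrix -/
def Point.RegM (v : Point K) {n m : ℕ} (M : Matrix (Fin n) (Fin m) K) : Prop :=
  ∀ i j, v.val (M i j) ≤ 1

theorem Point.RegM.mulVec {v : Point K} {M : Matrix (Fin n) (Fin m) K} (hM : v.RegM M)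
    {s : Fin m → K} (hs : v.Reg s) : v.Reg (M *ᵥ s) := by
  intro i
  rw [Matrix.mulVec, dotProduct]
  refine Valuation.map_sum_le _ fun j _ => ?_
  rw [map_mul]
  exact mul_le_one' (hM i j) (hs j)

theorem Point.RegM.mul {l : ℕ} {v : Point K} {M : Matrix (Fin n) (Fin m) K} (hM : v.RegM M)
    {N : Matrix (Fin m) (Fin l) K} (hN : v.RegM N) : v.RegM (M * N) := by
  intro i j
  rw [Matrix.mul_apply]
  refine Valuation.map_sum_le _ fun k _ => ?_
  rw [map_mul]
  exact mul_le_one' (hM i k) (hN k j)

theorem Point.RegM.one {v : Point K} : v.RegM (1 : Matrix (Fin n) (Fin n) K) := by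
  intro i j
  rw [Matrix.one_apply]
  split_ifs <;> simp

theorem Point.regM_of_forall {v : Point K} {M : Matrix (Fin n) (Fin m) K}
    (h : ∀ s, v.Reg s → v.Reg (M *ᵥ s)) : v.RegM M := by
  intro i j
  have := h (Pi.single j 1) (by
    intro k
    rcases eq_or_ne k j with rfl | hk
    · simp
    · simp [Pi.single_eq_of_ne hk]) i
  rwa [Matrix.mulVec_single_one] at this

theorem Point.RegM.adjugate {v : Point K} {M : Matrix (Fin n) (Fin n) K} (hM : v.RegM M) :
    v.RegM M.adjugate := by
  intro i j
  rw [Matrix.adjugate_apply]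
  refine v.val_det_le_one _ fun a b => ?_
  rw [Matrix.updateRow_apply]
  split_ifs
  · rcases eq_or_ne b i with rfl | hb
    · simp
    · simp [Pi.single_eq_of_ne hb]
  · exact hM a b

theorem Point.RegM.inv {v : Point K} {M : GL (Fin n) K} (hM : v.RegM M.1)
    (hd : v.val M.1.det = 1) : v.RegM M⁻¹.1 := by
  have h1 : M⁻¹.1 = M.1.det⁻¹ • M.1.adjugate := by
    rw [Matrix.coe_units_inv, Matrix.inv_def, Ring.inverse_eq_inv']
  intro i j
  rw [h1, Matrix.smul_apply, smul_eq_mul, map_mul, map_inv₀, hd, inv_one, one_mul]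
  exact hM.adjugate i j

theorem mem_stalk_iff (E : Bundle K n) (v : Point K) (s : Fin n → K) :
    s ∈ E.stalk v ↔ v.Reg ((E.frame v)⁻¹.1 *ᵥ s) := Iff.rfl

theorem gl_mulVec_inv (g : GL (Fin n) K) (s : Fin n → K) : g.1 *ᵥ (g⁻¹.1 *ᵥ s) = s := by
  rw [Matrix.mulVec_mulVec, ← Units.val_mul, mul_inv_cancel, Units.val_one, Matrix.one_mulVec]

theorem gl_inv_mulVec (g : GL (Fin n) K) (s : Fin n → K) : g⁻¹.1 *ᵥ (g.1 *ᵥ s) = s := by
  rw [Matrix.mulVec_mulVec, ← Units.val_mul, inv_mul_cancel, Units.val_one, Matrix.one_mulVec]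

theorem frame_mulVec_mem (E : Bundle K n) (v : Point K) {s : Fin n → K} (hs : v.Reg s) :
    (E.frame v).1 *ᵥ s ∈ E.stalk v := by
  rw [mem_stalk_iff, gl_inv_mulVec]
  exact hs

theorem gl_det_ne_zero (g : GL (Fin n) K) : g.1.det ≠ 0 := g.1.isUnit_iff_isUnit_det.1 g.isUnit |>.ne_zero

theorem gl_inv_det (g : GL (Fin n) K) : g⁻¹.1.det = g.1.det⁻¹ := by
  have : g⁻¹.1.det * g.1.det = 1 := by
    rw [← Matrix.det_mul, ← Units.val_mul, inv_mul_cancel, Units.val_one, Matrix.det_one]
  exact eq_inv_of_mul_eq_one_left this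

theorem Bundle.finite_det (E : Bundle K n) : {v : Point K | v.ord (E.frame v).1.det ≠ 0}.Finite := by
  refine E.det.finite.subset fun v hv h => hv ?_
  exact (v.val_eq_one_iff (gl_det_ne_zero _)).1 h

/-- local comparison of degrees -/
theorem local_compare {E F : Bundle K n} {A : GL (Fin n) K} (v : Point K)
    (h : ∀ s, s ∈ F.stalk v → A.1 *ᵥ s ∈ E.stalk v) :
    -v.ord (F.frame v).1.det ≤ -v.ord (E.frame v).1.det + v.ord A.1.det ∧
      (-v.ord (F.frame v).1.det = -v.ord (E.frame v).1.det + v.ord A.1.det →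
        ∀ s, s ∈ F.stalk v ↔ A.1 *ᵥ s ∈ E.stalk v) := by
  set M : GL (Fin n) K := (E.frame v)⁻¹ * A * F.frame v with hM
  have h1 : v.RegM M.1 := by
    apply v.regM_of_forall
    intro s hs
    have h2 := h _ (frame_mulVec_mem F v hs)
    rw [mem_stalk_iff, Matrix.mulVec_mulVec, Matrix.mulVec_mulVec] at h2
    rw [hM, Units.val_mul, Units.val_mul]
    exact h2
  have hdet : M.1.det = (E.frame v).1.det⁻¹ * A.1.det * (F.frame v).1.det := by
    rw [hM, Units.val_mul, Units.val_mul, Matrix.det_mul, Matrix.det_mul, gl_inv_det]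
  have hE := gl_det_ne_zero (E.frame v)
  have hA := gl_det_ne_zero A
  have hF := gl_det_ne_zero (F.frame v)
  have hord : v.ord M.1.det = -v.ord (E.frame v).1.det + v.ord A.1.det + v.ord (F.frame v).1.det := by
    rw [hdet, v.ord_mul (mul_ne_zero (inv_ne_zero hE) hA) hF, v.ord_mul (inv_ne_zero hE) hA,
      v.ord_inv]
  have h3 := (v.val_le_one_iff (gl_det_ne_zero M)).1 (v.val_det_le_one _ h1)
  refine ⟨by omega, fun heq s => ⟨h s, fun hs => ?_⟩⟩
  have h4 : v.val M.1.det = 1 := (v.val_eq_one_iff (gl_det_ne_zero M)).2 (by omega)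
  have h5 := h1.inv h4
  have h6 : (F.frame v)⁻¹.1 *ᵥ s = M⁻¹.1 *ᵥ ((E.frame v)⁻¹.1 *ᵥ (A.1 *ᵥ s)) := by
    rw [Matrix.mulVec_mulVec, Matrix.mulVec_mulVec, ← Units.val_mul, ← Units.val_mul]
    congr 2
    rw [hM]
    group
  rw [mem_stalk_iff, h6]
  exact h5.mulVec hs

theorem degree_compare (hK : IsCurve K) {E F : Bundle K n} {A : GL (Fin n) K}
    (h : ∀ v s, s ∈ F.stalk v → A.1 *ᵥ s ∈ E.stalk v) :
    F.degree ≤ E.degree ∧ (F.degree = E.degree → ∀ v s, s ∈ F.stalk v ↔ A.1 *ᵥ s ∈ E.stalk v) := by
  classical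
  set S := (F.finite_det.union (E.finite_det.union (finite_ord hK A.1.det))).toFinset with hS
  have hF : F.degree = ∑ v ∈ S, -v.ord (F.frame v).1.det := by
    apply finsum_eq_sum_of_support_subset
    intro v hv
    rw [Function.mem_support, neg_ne_zero] at hv
    simp only [hS, Set.Finite.coe_toFinset]
    exact Or.inl hv
  have hE : E.degree = ∑ v ∈ S, -v.ord (E.frame v).1.det := by
    apply finsum_eq_sum_of_support_subset
    intro v hv
    rw [Function.mem_support, neg_ne_zero] at hv
    simp only [hS, Set.Finite.coe_toFinset]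
    exact Or.inr (Or.inl hv)
  have hA : 0 = ∑ v ∈ S, v.ord A.1.det := by
    rw [← sum_ord hK A.1.det]
    apply finsum_eq_sum_of_support_subset
    intro v hv
    rw [Function.mem_support] at hv
    simp only [hS, Set.Finite.coe_toFinset]
    exact Or.inr (Or.inr hv)
  have hE' : E.degree = ∑ v ∈ S, (-v.ord (E.frame v).1.det + v.ord A.1.det) := by
    rw [Finset.sum_add_distrib, ← hE, ← hA, add_zero]
  constructor
  · rw [hF, hE']
    exact Finset.sum_le_sum fun v _ => (local_compare v (h v)).1
  · intro heq v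
    apply (local_compare v (h v)).2
    by_cases hv : v ∈ S
    · rw [hF, hE', Finset.sum_eq_sum_iff_of_le fun v _ => (local_compare v (h v)).1] at heq
      exact heq v hv
    · simp only [hS, Set.Finite.mem_toFinset, Set.mem_union, Set.mem_ofPred_eq, not_or, not_not] at hv
      rw [hv.1, hv.2.1, hv.2.2]
      norm_num

/-- the trivial bundle -/
def trivialBundle (K : Type) [Field K] [Algebra ℂ K] (n : ℕ) : Bundle K n where
  frame _ := 1
  finite := by
    convert Set.finite_empty
    ext v
    simp only [Set.mem_ofPred_eq, Set.mem_empty_iff_false, iff_false, not_not, inv_one,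
      Units.val_one]
    exact ⟨Point.RegM.one, Point.RegM.one⟩

theorem trivialBundle_degree : (trivialBundle K n).degree = 0 := by
  simp [Bundle.degree, trivialBundle, Point.ord_one]

theorem stalk_smul_add (E : Bundle K n) (v : Point K) (c : Fin m → K) (hc : v.Reg c)
    (s : Fin m → Fin n → K) (hs : ∀ j, s j ∈ E.stalk v) : ∑ j, c j • s j ∈ E.stalk v := by
  rw [mem_stalk_iff]
  have : (E.frame v)⁻¹.1 *ᵥ (∑ j, c j • s j) = ∑ j, c j • ((E.frame v)⁻¹.1 *ᵥ s j) := by
    rw [Matrix.mulVec_sum]
    simp [Matrix.mulVec_smul]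
  rw [this]
  intro i
  rw [Finset.sum_apply]
  refine Valuation.map_sum_le _ fun j _ => ?_
  rw [Pi.smul_apply, smul_eq_mul, map_mul]
  exact mul_le_one' (hc j) (hs j i)

/-- a matrix of global sections gives a map from the trivial bundle -/
theorem mulVec_mem_stalk (E : Bundle K n) (v : Point K) (A : Matrix (Fin n) (Fin m) K)
    (hA : ∀ j, (fun i => A i j) ∈ E.stalk v) {s : Fin m → K} (hs : v.Reg s) :
    A *ᵥ s ∈ E.stalk v := by
  have h := stalk_smul_add E v s hs (fun j i => A i j) hA
  convert h using 1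
  ext i
  simp [Matrix.mulVec, dotProduct, mul_comm]

theorem degree_nonneg (hK : IsCurve K) (E : Bundle K n) (A : GL (Fin n) K)
    (hA : ∀ j, (fun i => A.1 i j) ∈ E.sections) : 0 ≤ E.degree := by
  have h := (degree_compare hK (E := E) (F := trivialBundle K n) (A := A) (fun v s hs =>
    mulVec_mem_stalk E v A.1 (fun j => hA j v) (by
      have h2 : v.Reg (((1 : GL (Fin n) K)⁻¹).1 *ᵥ s) := hs
      simpa using h2))).1
  rwa [trivialBundle_degree] at h

theorem pole_bound (hK : IsCurve K) (E : Bundle K n) (A : GL (Fin n) K)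
    (hA : ∀ j, (fun i => A.1 i j) ∈ E.sections) (s : Fin n → K) (hs : s ∈ E.sections) (i : Fin n) :
    degP ((A⁻¹.1 *ᵥ s) i) ≤ E.degree := by
  set φ := (A⁻¹.1 *ᵥ s) i with hφ
  have key : ∀ v : Point K, max (-v.ord φ) 0 ≤ -v.ord (E.frame v).1.det + v.ord A.1.det := by
    intro v
    have h1 : 0 ≤ -v.ord (E.frame v).1.det + v.ord A.1.det := by
      have := (local_compare (E := E) (F := trivialBundle K n) (A := A) v (fun s hs =>
        mulVec_mem_stalk E v A.1 (fun j => hA j v) (by
          have h2 : v.Reg (((1 : GL (Fin n) K)⁻¹).1 *ᵥ s) := hs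
          simpa using h2))).1
      have h0 : v.ord ((trivialBundle K n).frame v).1.det = 0 := by
        simp [trivialBundle, Point.ord_one]
      rwa [h0, neg_zero] at this
    refine max_le ?_ h1
    rcases eq_or_ne φ 0 with h0 | h0
    · rw [h0, v.ord_zero, neg_zero]
      exact h1
    have hdet : (A.1.updateCol i s).det = φ * A.1.det := by
      have h2 : A⁻¹.1 *ᵥ s = A.1.det⁻¹ • Matrix.cramer A.1 s := by
        have h3 := Matrix.mulVec_cramer A.1 s
        have h4 : Matrix.cramer A.1 s = A.1.det • (A⁻¹.1 *ᵥ s) := by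
          rw [← Matrix.mulVec_smul, ← h3, gl_inv_mulVec]
        rw [h4, smul_smul, inv_mul_cancel₀ (gl_det_ne_zero A), one_smul]
      rw [hφ, h2, Pi.smul_apply, Matrix.cramer_apply, smul_eq_mul, mul_comm, ← mul_assoc,
        mul_inv_cancel₀ (gl_det_ne_zero A), one_mul]
    have hreg : v.RegM ((E.frame v)⁻¹.1 * A.1.updateCol i s) := by
      apply v.regM_of_forall
      intro t ht
      have := mulVec_mem_stalk E v (A.1.updateCol i s) (by
        intro j
        rcases eq_or_ne j i with rfl | hj
        · convert hs v using 1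
          ext l
          simp
        · convert hA j v using 1
          ext l
          simp [hj]) ht
      rw [mem_stalk_iff, Matrix.mulVec_mulVec] at this
      exact this
    have h5 := v.val_det_le_one _ hreg
    rw [Matrix.det_mul, hdet, gl_inv_det] at h5
    have hE := gl_det_ne_zero (E.frame v)
    have hA0 := gl_det_ne_zero A
    rw [v.val_le_one_iff (mul_ne_zero (inv_ne_zero hE) (mul_ne_zero h0 hA0)),
      v.ord_mul (inv_ne_zero hE) (mul_ne_zero h0 hA0), v.ord_mul h0 hA0, v.ord_inv] at h5
    omega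
  have hfin1 : (Function.support fun v : Point K => -v.ord (E.frame v).1.det).Finite := by
    refine E.finite_det.subset fun v hv => ?_
    rw [Function.mem_support, neg_ne_zero] at hv
    exact hv
  have hfin2 : (Function.support fun v : Point K => v.ord A.1.det).Finite := finite_ord hK _
  have hdeg : E.degree = ∑ᶠ v : Point K, (-v.ord (E.frame v).1.det + v.ord A.1.det) := by
    rw [finsum_add_distrib hfin1 hfin2, sum_ord hK, add_zero]
    rfl
  rw [hdeg, degP]
  refine finsum_le_finsum' ?_ ?_ key
  · refine (finite_ord_neg hK φ).subset fun v hv => ?_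
    rw [Function.mem_support] at hv
    change v.ord φ < 0
    omega
  · refine (hfin1.union hfin2).subset fun v hv => ?_
    rw [Function.mem_support] at hv
    by_contra hcon
    simp only [Set.mem_union, Function.mem_support, not_or, not_not] at hcon
    exact hv (by rw [hcon.1, hcon.2, add_zero])

/-! ### saturated subbundles -/

theorem exists_minor (N : Matrix (Fin n) (Fin m) K) (hN : Function.Injective N.mulVec) :
    ∃ e : Fin m → Fin n, (N.submatrix e id).det ≠ 0 := by
  obtain ⟨κ, a, ha, hsp, hli⟩ := exists_linearIndependent' K (fun i => N i)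
  have hcols : LinearIndependent K N.transpose.row := by
    rw [Matrix.row_transpose, ← Matrix.mulVec_injective_iff]
    exact hN
  have hrank : N.rank = m := by
    rw [← Matrix.rank_transpose, hcols.rank_matrix, Fintype.card_fin]
  have htop : Submodule.span K (Set.range (fun i => N i)) = ⊤ := by
    apply Submodule.eq_top_of_finrank_eq
    have := Matrix.rank_eq_finrank_span_row N
    rw [hrank] at this
    rw [Module.finrank_fintype_fun_eq_card, Fintype.card_fin]
    exact this.symm
  rw [htop] at hsp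
  let b : Module.Basis κ K (Fin m → K) := Module.Basis.mk hli hsp.ge
  have hfin : Fintype κ := FiniteDimensional.fintypeBasisIndex b
  let σ : κ ≃ Fin m := b.indexEquiv (Pi.basisFun K (Fin m))
  refine ⟨a ∘ σ.symm, ?_⟩
  have h1 : LinearIndependent K (N.submatrix (a ∘ σ.symm) id).row := hli.comp σ.symm σ.symm.injective
  rw [Matrix.linearIndependent_rows_iff_isUnit, Matrix.isUnit_iff_isUnit_det] at h1
  exact h1.ne_zero

/-- a frame for the intersection of a lattice with a subspace -/
theorem exists_frame (v : Point K) (N : Matrix (Fin n) (Fin m) K)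
    (hN : Function.Injective N.mulVec) :
    ∃ h : GL (Fin m) K, ∀ s : Fin m → K, v.Reg (N *ᵥ s) ↔ v.Reg (h⁻¹.1 *ᵥ s) := by
  obtain ⟨e0, he0⟩ := exists_minor N hN
  have : Nonempty (Fin m → Fin n) := ⟨e0⟩
  obtain ⟨e, he⟩ := Finite.exists_max (fun e : Fin m → Fin n => v.val (N.submatrix e id).det)
  have hdet : (N.submatrix e id).det ≠ 0 := by
    intro h0
    have := he e0
    rw [h0, map_zero, le_zero_iff, Valuation.zero_iff] at this
    exact he0 this
  set M : GL (Fin m) K := Matrix.GeneralLinearGroup.mkOfDetNeZero (N.submatrix e id) hdet with hM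
  have hM1 : M.1 = N.submatrix e id := rfl
  refine ⟨M⁻¹, fun s => ?_⟩
  rw [inv_inv, hM1]
  constructor
  · intro h i
    exact h (e i)
  · intro h
    have hNM : v.RegM (N * M⁻¹.1) := by
      intro i j
      have h1 : Matrix.cramer (N.submatrix e id).transpose (N i) =
          (N.submatrix e id).det • (fun j => (N * M⁻¹.1) i j) := by
        have h2 := Matrix.mulVec_cramer (N.submatrix e id).transpose (N i)
        rw [Matrix.det_transpose] at h2
        have h3 : (N.submatrix e id).transpose *ᵥ (fun j => (N * M⁻¹.1) i j) = N i := by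
          rw [Matrix.mulVec_transpose]
          have h4 : (fun j => (N * M⁻¹.1) i j) = N i ᵥ* M⁻¹.1 := rfl
          rw [h4, Matrix.vecMul_vecMul, ← hM1, ← Units.val_mul, inv_mul_cancel, Units.val_one,
            Matrix.vecMul_one]
        have h5 : Function.Injective (N.submatrix e id).transpose.mulVec := by
          rw [Matrix.mulVec_injective_iff_isUnit, Matrix.isUnit_iff_isUnit_det,
            Matrix.det_transpose]
          exact hdet.isUnit
        apply h5
        rw [h2, Matrix.mulVec_smul, h3]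
      have h6 := congrFun h1 j
      rw [Matrix.cramer_transpose_apply, Pi.smul_apply, smul_eq_mul] at h6
      have h7 : (N.submatrix e id).updateRow j (N i) = N.submatrix (Function.update e j i) id := by
        ext a b
        rw [Matrix.updateRow_apply]
        rcases eq_or_ne a j with rfl | ha
        · simp
        · simp [ha]
      rw [h7] at h6
      have h8 : v.val (N.submatrix (Function.update e j i) id).det ≤
          v.val (N.submatrix e id).det := he (Function.update e j i)
      rw [h6, map_mul] at h8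
      have h9 : 0 < v.val (N.submatrix e id).det := zero_lt_iff.2 ((Valuation.ne_zero_iff _).2 hdet)
      exact (mul_le_iff_le_one_right h9).1 h8
    have h10 : N *ᵥ s = (N * M⁻¹.1) *ᵥ (M.1 *ᵥ s) := by
      rw [Matrix.mulVec_mulVec, Matrix.mul_assoc, ← Units.val_mul, inv_mul_cancel, Units.val_one,
        Matrix.mul_one]
    rw [h10]
    exact hNM.mulVec h

theorem regM_of_stalk {v : Point K} {h : GL (Fin m) K}
    (hh : ∀ s : Fin m → K, v.Reg s ↔ v.Reg (h⁻¹.1 *ᵥ s)) : v.RegM h.1 ∧ v.RegM h⁻¹.1 := by
  constructor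
  · apply v.regM_of_forall
    intro s hs
    rw [hh, gl_inv_mulVec]
    exact hs
  · apply v.regM_of_forall
    intro s hs
    exact (hh s).1 hs

theorem finite_not_reg (hK : IsCurve K) (z : K) : {v : Point K | ¬ v.val z ≤ 1}.Finite := by
  refine (finite_ord_neg hK z).subset fun v hv => ?_
  have hz : z ≠ 0 := by
    rintro rfl
    exact hv (by simp)
  exact (v.one_lt_val_iff hz).1 (not_le.1 hv)

theorem finite_not_regM (hK : IsCurve K) (M : Matrix (Fin n) (Fin m) K) :
    {v : Point K | ¬ v.RegM M}.Finite := by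
  have : {v : Point K | ¬ v.RegM M} = ⋃ i, ⋃ j, {v : Point K | ¬ v.val (M i j) ≤ 1} := by
    ext v
    simp [Point.RegM]
  rw [this]
  exact Set.finite_iUnion fun i => Set.finite_iUnion fun j => finite_not_reg hK _

/-- every subspace of the generic fibre defines a subbundle -/
theorem exists_subbundle (hK : IsCurve K) (E : Bundle K n) (J : Matrix (Fin n) (Fin m) K)
    (hJ : Function.Injective J.mulVec) : ∃ F : Bundle K m, IsSubbundle F E J.mulVecLin := by
  classical
  have h1 : ∀ v : Point K, ∃ h : GL (Fin m) K, ∀ s : Fin m → K,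
      v.Reg (((E.frame v)⁻¹.1 * J) *ᵥ s) ↔ v.Reg (h⁻¹.1 *ᵥ s) := by
    intro v
    apply exists_frame
    intro a b hab
    simp only [← Matrix.mulVec_mulVec] at hab
    apply hJ
    have := congrArg ((E.frame v).1 *ᵥ ·) hab
    simpa [gl_mulVec_inv] using this
  choose h hh using h1
  obtain ⟨e, he⟩ := exists_minor J hJ
  set M : GL (Fin m) K := Matrix.GeneralLinearGroup.mkOfDetNeZero (J.submatrix e id) he with hM
  refine ⟨⟨h, ?_⟩, ?_, ?_⟩
  · refine (E.finite.union ((finite_not_regM hK J).union (finite_not_regM hK M⁻¹.1))).subset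
      fun v hv => ?_
    by_contra hcon
    simp only [Set.mem_union, Set.mem_ofPred_eq, not_or, not_not] at hcon
    obtain ⟨hE, hJv, hMv⟩ := hcon
    apply hv
    apply regM_of_stalk
    intro s
    rw [← hh v s]
    constructor
    · intro hs
      have h2 : v.RegM ((E.frame v)⁻¹.1 * J) := Point.RegM.mul hE.2 hJv
      exact h2.mulVec hs
    · intro hs
      have h3 : v.Reg (J *ᵥ s) := by
        rw [← Matrix.mulVec_mulVec] at hs
        have h4 := Point.RegM.mulVec (M := (E.frame v).1) hE.1 hs
        rwa [gl_mulVec_inv] at h4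
      have h5 : v.Reg (M.1 *ᵥ s) := fun i => h3 (e i)
      have h6 := hMv.mulVec h5
      rwa [gl_inv_mulVec] at h6
  · exact hJ
  · intro v s
    rw [mem_stalk_iff, ← hh v s, mem_stalk_iff, Matrix.mulVecLin_apply, Matrix.mulVec_mulVec]

end Pool.Agent.Helper395.CS
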