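import Mathlib

/-!
# Coherent systems on curves: definitions

A smooth irreducible projective curve `C` over `ℂ` is described by its function field `K`
(Hartshorne, Algebraic Geometry, I.6): `K` is a finitely generated field extension of `ℂ` of
transcendence degree one, and the closed points of `C` are the normalised discrete valuations of `K`
which are trivial on `ℂ`; the local ring of `C` at `v` is `𝒪_v = {z | v z ≤ 1}`.

A vector bundle `E` of rank `n` on `C` is described by its generic fibre `K ^ n` and its stalks
`E_v = g_v 𝒪_v ^ n` at the closed points `v`, where `g_v ∈ GL_n(K)` is a local frame, and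
`g_v ∈ GL_n(𝒪_v)` for all but finitely many `v` (this is Weil's description of vector bundles).
-/

open scoped WithZero Matrix
open AlgebraicGeometry CategoryTheory

namespace Pool.Agent.Helper395.CS

section Curve

variable (K : Type) [Field K] [Algebra ℂ K]

/-- `K` is the function field of a smooth irreducible projective curve over `ℂ`: a finitely generated
field extension of `ℂ` of transcendence degree one. -/
structure IsCurve : Prop where
  fg : (⊤ : IntermediateField ℂ K).FG
  trdeg : Algebra.trdeg ℂ K = 1

/-- The closed points of the curve `C` with function field `K`: the normalised discrete valuations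
of `K` which are trivial on `ℂ`. (`ℤᵐ⁰` is `ℤ ∪ {0}` written multiplicatively.) -/
@[ext]
structure Point where
  /-- the valuation -/
  val : Valuation K ℤᵐ⁰
  surj : Function.Surjective val
  const : ∀ c : ℂ, c ≠ 0 → val (algebraMap ℂ K c) = 1

variable {K}

/-- The order of vanishing of the rational function `z` at the point `v` (and `0` if `z = 0`). -/
noncomputable def Point.ord (v : Point K) (z : K) : ℤ := -WithZero.log (v.val z)

variable (K)

/-! ### Line bundles -/

/-- A line bundle on the curve with function field `K`: its generic fibre is `K` and its stalk at the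
closed point `v` is `ℓ_v 𝒪_v`, where `ℓ_v ∈ Kˣ` is a unit of `𝒪_v` for all but finitely many `v`. -/
structure LineBundle where
  /-- the generators `ℓ_v` -/
  frame : Point K → Kˣ
  finite : {v : Point K | v.val (frame v) ≠ 1}.Finite

variable {K}

/-- The stalk `ℓ_v 𝒪_v` of a line bundle at `v`. -/
def LineBundle.stalk (L : LineBundle K) (v : Point K) : Set K := {s | v.val s ≤ v.val (L.frame v)}

/-- The degree of a line bundle, `∑_v -ord_v(ℓ_v)`. -/
noncomputable def LineBundle.degree (L : LineBundle K) : ℤ := ∑ᶠ v : Point K, -v.ord (L.frame v)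

/-- Two line bundles are isomorphic if an automorphism of the generic fibre `K`, i.e. multiplication
by some `c ∈ Kˣ`, maps the stalks of the first onto the stalks of the second. -/
def LineBundle.Iso (L M : LineBundle K) : Prop :=
  ∃ c : Kˣ, ∀ v s, s ∈ L.stalk v ↔ (c : K) * s ∈ M.stalk v

/-- The stalk at `v` of the canonical bundle `Ω_C`, inside its generic fibre `Ω_{K/ℂ}`: it is
generated by the `a • db` with `a, b ∈ 𝒪_v`. -/
noncomputable def Point.differentials (v : Point K) : AddSubgroup (Ω[K⁄ℂ]) :=
  AddSubgroup.closure {ω | ∃ a b : K, v.val a ≤ 1 ∧ v.val b ≤ 1 ∧ ω = a • KaehlerDifferential.D ℂ K b}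

theorem Point.smul_mem_differentials (v : Point K) {z : K} (hz : v.val z ≤ 1) {ω : Ω[K⁄ℂ]}
    (hω : ω ∈ v.differentials) : z • ω ∈ v.differentials := by
  induction hω using AddSubgroup.closure_induction with
  | mem x hx =>
    obtain ⟨a, b, ha, hb, rfl⟩ := hx
    refine AddSubgroup.subset_closure ⟨z * a, b, ?_, hb, by rw [mul_smul]⟩
    rw [map_mul]
    exact mul_le_one' hz ha
  | zero => rw [smul_zero]; exact zero_mem _
  | add x y _ _ hx hy => rw [smul_add]; exact add_mem hx hy
  | neg x _ hx => rw [smul_neg]; exact neg_mem hx

theorem Point.const_le (v : Point K) (c : ℂ) : v.val (algebraMap ℂ K c) ≤ 1 := by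
  rcases eq_or_ne c 0 with rfl | hc
  · simp
  · exact (v.const c hc).le

/-- The space `H⁰(C, Ω_C)` of regular differentials on `C`. -/
noncomputable def regularDifferentials (K : Type) [Field K] [Algebra ℂ K] :
    Submodule ℂ (Ω[K⁄ℂ]) where
  carrier := {ω | ∀ v : Point K, ω ∈ v.differentials}
  add_mem' := fun ha hb v => add_mem (ha v) (hb v)
  zero_mem' := fun v => zero_mem _
  smul_mem' := by
    intro c ω hω v
    rw [← algebraMap_smul K c ω]
    exact v.smul_mem_differentials (v.const_le c) (hω v)

/-- The genus of the curve, `dim H⁰(C, Ω_C)`. -/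
noncomputable def genus (K : Type) [Field K] [Algebra ℂ K] : ℕ :=
  Module.finrank ℂ (regularDifferentials K)

/-- The space `H⁰(C, Ω_C ⊗ L⁻¹)` of all `ω ∈ Ω_{K/ℂ}` such that `s • ω` is regular at `v` for all `v`
and all sections `s` of `L` near `v`. -/
noncomputable def LineBundle.dualSections (L : LineBundle K) : Submodule ℂ (Ω[K⁄ℂ]) where
  carrier := {ω | ∀ v : Point K, ∀ s ∈ L.stalk v, s • ω ∈ v.differentials}
  add_mem' := by
    intro a b ha hb v s hs
    rw [smul_add]
    exact add_mem (ha v s hs) (hb v s hs)
  zero_mem' := by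
    intro v s hs
    rw [smul_zero]
    exact zero_mem _
  smul_mem' := by
    intro c ω hω v s hs
    rw [smul_comm, ← algebraMap_smul K c (s • ω)]
    exact v.smul_mem_differentials (v.const_le c) (hω v s hs)

/-- `h¹(C, L) = dim H⁰(C, Ω_C ⊗ L⁻¹)` (Serre duality). -/
noncomputable def LineBundle.hOne (L : LineBundle K) : ℕ := Module.finrank ℂ L.dualSections

/-! ### Vector bundles -/

variable (K)

/-- A vector bundle of rank `n` on the curve with function field `K`: at every closed point `v` there
is a frame `g_v ∈ GL_n(K)`, which lies in `GL_n(𝒪_v)` for all but finitely many `v`. The generic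
fibre of the bundle is `K ^ n` and its stalk at `v` is `g_v 𝒪_v ^ n`. -/
structure Bundle (n : ℕ) where
  /-- the frames -/
  frame : Point K → GL (Fin n) K
  finite : {v : Point K | ¬ ((∀ i j, v.val ((frame v).1 i j) ≤ 1) ∧
    (∀ i j, v.val ((frame v)⁻¹.1 i j) ≤ 1))}.Finite

variable {K} {n m : ℕ}

/-- The stalk `E_v = g_v 𝒪_v ^ n` of a vector bundle at the point `v`, a subset of the generic fibre
`K ^ n`: the vectors whose coordinates with respect to the frame at `v` are regular at `v`. -/
def Bundle.stalk (E : Bundle K n) (v : Point K) : Set (Fin n → K) :=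
  {s | ∀ i, v.val (((E.frame v)⁻¹.1 *ᵥ s) i) ≤ 1}

/-- The degree of a vector bundle, `∑_v -ord_v (det g_v)`. -/
noncomputable def Bundle.degree (E : Bundle K n) : ℤ :=
  ∑ᶠ v : Point K, -v.ord (E.frame v).1.det

/-- The space `H⁰(C, E)` of global sections of a vector bundle. -/
def Bundle.sections (E : Bundle K n) : Submodule ℂ (Fin n → K) where
  carrier := {s | ∀ v, s ∈ E.stalk v}
  add_mem' := by
    intro a b ha hb v i
    rw [Matrix.mulVec_add]
    exact Valuation.map_add_le _ (ha v i) (hb v i)
  zero_mem' := by
    intro v i
    rw [Matrix.mulVec_zero]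
    simp
  smul_mem' := by
    intro c s hs v i
    have h : c • s = (algebraMap ℂ K c) • s := by
      ext i
      simp [Algebra.smul_def]
    rw [h, Matrix.mulVec_smul, Pi.smul_apply, smul_eq_mul, map_mul]
    rcases eq_or_ne c 0 with rfl | hc
    · simp
    · rw [v.const c hc, one_mul]
      exact hs v i

/-- The automorphism `A` of the generic fibre `K ^ n` is an isomorphism of the vector bundles `E` and
`F`: it maps the stalks of the first bundle onto the stalks of the second. -/
def IsBundleIso (E F : Bundle K n) (A : GL (Fin n) K) : Prop :=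
  ∀ v s, s ∈ E.stalk v ↔ A.1 *ᵥ s ∈ F.stalk v

/-- `(F, j)` is a subbundle of rank `m` of `E`: `j` is an injection of the generic fibres and the
stalks of `F` are the (saturated) intersections of the stalks of `E` with the generic fibre of `F`. -/
structure IsSubbundle (F : Bundle K m) (E : Bundle K n) (j : (Fin m → K) →ₗ[K] (Fin n → K)) :
    Prop where
  injective : Function.Injective j
  stalk : ∀ v s, s ∈ F.stalk v ↔ j s ∈ E.stalk v

theorem Point.val_det_le_one (v : Point K) (M : Matrix (Fin n) (Fin n) K)
    (h : ∀ i j, v.val (M i j) ≤ 1) : v.val M.det ≤ 1 := by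
  rw [Matrix.det_apply]
  refine Valuation.map_sum_le _ fun σ _ => ?_
  rw [Units.smul_def, zsmul_eq_mul, map_mul, map_prod]
  refine mul_le_one' ?_ (Finset.prod_le_one' fun i _ => h _ _)
  have := v.const_le ((Equiv.Perm.sign σ : ℤ) : ℂ)
  simpa using this

/-- The determinant line bundle of `E`; its stalk at `v` is `(det g_v) 𝒪_v`. -/
noncomputable def Bundle.det (E : Bundle K n) : LineBundle K where
  frame v := Matrix.GeneralLinearGroup.det (E.frame v)
  finite := by
    refine E.finite.subset fun v hv h => hv ?_
    have h1 := v.val_det_le_one _ h.1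
    have h2 := v.val_det_le_one _ h.2
    have h3 : v.val (E.frame v).1.det * v.val (E.frame v)⁻¹.1.det = 1 := by
      rw [← map_mul, ← Matrix.det_mul, ← Units.val_mul, mul_inv_cancel, Units.val_one,
        Matrix.det_one, map_one]
    exact le_antisymm h1 (by
      rw [← h3]
      exact mul_le_of_le_one_right' h2)

/-! ### Coherent systems -/

variable (K)

/-- A coherent system `(E, V)` of type `(n, d, k)`. -/
structure CoherentSystem (n : ℕ) (d : ℤ) (k : ℕ) where
  /-- the vector bundle `E` -/
  bundle : Bundle K n
  /-- the space `V` of sections -/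
  space : Submodule ℂ (Fin n → K)
  le_sections : space ≤ bundle.sections
  degree_eq : bundle.degree = d
  finrank_eq : Module.finrank ℂ space = k

variable {K} {d : ℤ} {k : ℕ}

/-- `α`-stability: every proper subsystem `(F, W)`, that is a subbundle `F ⊆ E` of rank `m > 0` and a
subspace `W ⊆ V ∩ H⁰(F)`, satisfies `(deg F + α dim W) / m < (d + α k) / n`. -/
def CoherentSystem.IsStable (S : CoherentSystem K n d k) (α : ℝ) : Prop :=
  ∀ (m : ℕ) (F : Bundle K m) (j : (Fin m → K) →ₗ[K] (Fin n → K)) (W : Submodule ℂ (Fin m → K)),
    0 < m → IsSubbundle F S.bundle j → W ≤ F.sections → W.map (j.restrictScalars ℂ) ≤ S.space →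
    ¬ (m = n ∧ W.map (j.restrictScalars ℂ) = S.space) →
    ((F.degree : ℝ) + α * (Module.finrank ℂ W : ℝ)) / (m : ℝ) < ((d : ℝ) + α * (k : ℝ)) / (n : ℝ)

/-- `(E, V)` is generically generated: `V` spans the generic fibre of `E`. -/
def CoherentSystem.IsGenericallyGenerated (S : CoherentSystem K n d k) : Prop :=
  Submodule.span K (S.space : Set (Fin n → K)) = ⊤

/-- Isomorphism of coherent systems. -/
def CoherentSystem.Iso (S T : CoherentSystem K n d k) : Prop :=
  ∃ A : GL (Fin n) K, IsBundleIso S.bundle T.bundle A ∧
    S.space.map ((Matrix.mulVecLin A.1).restrictScalars ℂ) = T.space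

/-- `X` is a moduli space `G(α; n, L, k)` of the `α`-stable coherent systems `(E, V)` of type
`(n, deg L, k)` with `det E ≅ L`, in the weak sense that `X` is a scheme locally of finite type over
`ℂ` whose closed points correspond to the isomorphism classes of these coherent systems. -/
structure ModuliSpace (n k : ℕ) (L : LineBundle K) (α : ℝ) where
  /-- the scheme -/
  X : Scheme.{0}
  /-- the structure morphism -/
  str : X ⟶ Spec (CommRingCat.of ℂ)
  locallyOfFiniteType : LocallyOfFiniteType str
  /-- the point of the moduli space defined by a coherent system -/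
  pt : {S : CoherentSystem K n L.degree k // S.IsStable α ∧ S.bundle.det.Iso L} → X
  isClosed_pt : ∀ S, IsClosed {pt S}
  exists_pt : ∀ x : X, IsClosed {x} → ∃ S, pt S = x
  pt_eq_iff : ∀ S T, pt S = pt T ↔ S.1.Iso T.1

end Curve

/-- The local dimension of the scheme `X` at the point `x`: the smallest dimension of an open
neighbourhood of `x`. -/
noncomputable def localDim (X : Scheme.{0}) (x : X) : WithBot ℕ∞ :=
  ⨅ (U : Set X) (_ : IsOpen U) (_ : x ∈ U), topologicalKrullDim U

/-- The Brill-Noether number `β(n, d, k) = n²(g - 1) + 1 - k (k - d + n (g - 1))` of a curve of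
genus `g`. -/
def brillNoether (g : ℤ) (n : ℕ) (d : ℤ) (k : ℕ) : ℤ :=
  (n : ℤ) ^ 2 * (g - 1) + 1 - k * (k - d + n * (g - 1))

/-- The number `β(n, d, k) - g + h¹(L) * (k choose n)`, where `d = deg L`. -/
noncomputable def expectedBound {K : Type} [Field K] [Algebra ℂ K] (n k : ℕ) (L : LineBundle K) : ℤ :=
  brillNoether (genus K) n L.degree k - genus K + L.hOne * (k.choose n : ℤ)

end Pool.Agent.Helper395.CS
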