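import Pool.Agent.Helper395.CS.Stable

open scoped WithZero Matrix Polynomial IntermediateField TensorProduct
open WithZero

set_option linter.unusedSectionVars false

namespace Pool.Agent.Helper395.CS

variable {K : Type} [Field K] [Algebra ℂ K]

/-- `dt ≠ 0` for transcendental `t` -/
theorem D_ne_zero (hK : IsCurve K) {t : K} (ht : Transcendental ℂ t) :
    KaehlerDifferential.D ℂ K t ≠ 0 := by
  refine setup hK ht _ ?_
  intro i1 i2 hX _ i3 i4 i5 i6 i7 i8 i9
  have hfin := hK.finiteDimensional ht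
  have j1 : Algebra.FormallyEtale ℂ[X] ℂ⟮t⟯ :=
    Algebra.FormallyEtale.of_isLocalization (nonZeroDivisors ℂ[X])
  have j2 : Algebra.FormallyEtale ℂ⟮t⟯ K := Algebra.FormallyEtale.of_isSeparable _ _
  have j3 : Algebra.FormallyEtale ℂ[X] K := Algebra.FormallyEtale.comp ℂ[X] ℂ⟮t⟯ K
  intro h0
  have h1 := KaehlerDifferential.tensorKaehlerEquivOfFormallyEtale_symm_D_algebraMap ℂ ℂ[X] K
    Polynomial.X
  rw [hX, h0, map_zero] at h1
  have h2 := congrArg (TensorProduct.rid ℂ[X] K)
    (congrArg (LinearMap.lTensor K (KaehlerDifferential.polynomialEquiv ℂ).toLinearMap) h1)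
  rw [map_zero, map_zero, LinearMap.lTensor_tmul] at h2
  simp at h2

namespace Hyp

variable {x y : K} {f : ℂ[X]} {ι : K ≃ₐ[ℂ] K} (H : Hyp x y f ι)

include H

theorem half_add {a b z : K} (hz : z = a + b * y) (ha : a ∈ ℂ⟮x⟯) (hb : b ∈ ℂ⟮x⟯) :
    a = algebraMap ℂ K (1 / 2) * (z + ι z) ∧ b * y = algebraMap ℂ K (1 / 2) * (z + -ι z) := by
  have h1 : ι z = a - b * y := by
    rw [hz, map_add, map_mul, H.fix ha, H.fix hb, H.inv_y]
    ring
  have h2 : algebraMap ℂ K (1 / 2) * 2 = 1 := by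
    have : (2 : K) = algebraMap ℂ K 2 := (map_ofNat (algebraMap ℂ K) 2).symm
    rw [this, ← map_mul]
    norm_num
  rw [h1, hz]
  constructor
  · linear_combination (-a) * h2
  · linear_combination (-(b * y)) * h2

theorem comap_x (v : Point K) : (v.comap ι).val x = v.val x := by
  rw [Point.comap_val, H.inv_x]

/-- bounds for the two parts of an element -/
theorem parts_le {a b z : K} (hz : z = a + b * y) (ha : a ∈ ℂ⟮x⟯) (hb : b ∈ ℂ⟮x⟯) (v : Point K)
    {C : ℤᵐ⁰} (h1 : v.val z ≤ C) (h2 : (v.comap ι).val z ≤ C) :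
    v.val a ≤ C ∧ v.val (b * y) ≤ C := by
  obtain ⟨h3, h4⟩ := H.half_add hz ha hb
  rw [Point.comap_val] at h2
  constructor
  · rw [h3, map_mul]
    exact (mul_le_of_le_one_left' (v.const_le _)).trans (Valuation.map_add_le _ h1 h2)
  · rw [h4, map_mul]
    refine (mul_le_of_le_one_left' (v.const_le _)).trans (Valuation.map_add_le _ h1 ?_)
    rw [Valuation.map_neg]
    exact h2

/-- the coordinate ring of the affine part is `ℂ[x, y]` -/
theorem mem_ring {z : K} (hz : ∀ v : Point K, v.val x ≤ 1 → v.val z ≤ 1) :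
    ∃ p q : ℂ[X], z = Polynomial.aeval x p + Polynomial.aeval x q * y := by
  obtain ⟨a, ha, b, hb, hab⟩ := H.span z
  have hparts : ∀ v : Point K, v.val x ≤ 1 → v.val a ≤ 1 ∧ v.val (b * y) ≤ 1 := by
    intro v hv
    exact H.parts_le hab ha hb v (hz v hv) (hz _ (by rw [H.comap_x]; exact hv))
  obtain ⟨p, rfl⟩ := poly_of_regular H.curve H.trans ha (fun v hv => (hparts v hv).1)
  have hbreg : ∀ v : Point K, v.val x ≤ 1 → v.val b ≤ 1 := by
    intro v hv
    rcases eq_or_ne b 0 with rfl | hb0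
    · simp
    obtain ⟨c, hc⟩ := exists_residue H.curve H.trans v hv
    obtain ⟨m, hm⟩ := ord_mem_adj H.trans hc hb hb0
    have hxc : x - algebraMap ℂ K c ≠ 0 := by
      have := aeval_ne_zero H.trans (Polynomial.X_sub_C_ne_zero c)
      simpa using this
    have h1 : 0 < v.ord (x - algebraMap ℂ K c) := (v.val_lt_one_iff hxc).1 hc
    have h2 := (hparts v hv).2
    rw [v.val_le_one_iff (mul_ne_zero hb0 H.y_ne), v.ord_mul hb0 H.y_ne, hm] at h2
    have h3 := v.ord_pow y 2
    rw [H.eq, ord_aeval H.trans hc f H.f_ne] at h3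
    have h4 : (f.rootMultiplicity c : ℤ) ≤ 1 := by
      exact_mod_cast Polynomial.rootMultiplicity_le_one_of_separable H.sep c
    rw [v.val_le_one_iff hb0, hm]
    push_cast at h3
    have h5 : 0 ≤ (2 * m + f.rootMultiplicity c) * v.ord (x - algebraMap ℂ K c) := by
      linarith
    have h6 : 0 ≤ 2 * m + f.rootMultiplicity c := nonneg_of_mul_nonneg_left h5 h1
    have h7 : 0 ≤ m := by omega
    positivity
  obtain ⟨q, rfl⟩ := poly_of_regular H.curve H.trans hb hbreg
  exact ⟨p, q, hab⟩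

theorem D_aeval (p : ℂ[X]) : KaehlerDifferential.D ℂ K (Polynomial.aeval x p) =
    Polynomial.aeval x (Polynomial.derivative p) • KaehlerDifferential.D ℂ K x :=
  Derivation.map_aeval _ p x

/-- the differential `dx / y` -/
noncomputable def omega0 (x y : K) : Ω[K⁄ℂ] := y⁻¹ • KaehlerDifferential.D ℂ K x

theorem D_x : KaehlerDifferential.D ℂ K x = y • omega0 x y := by
  rw [omega0, smul_smul, mul_inv_cancel₀ H.y_ne, one_smul]

theorem D_y : KaehlerDifferential.D ℂ K y =
    (algebraMap ℂ K (1 / 2) * Polynomial.aeval x (Polynomial.derivative f)) • omega0 x y := by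
  have h1 : KaehlerDifferential.D ℂ K (y ^ 2) =
      Polynomial.aeval x (Polynomial.derivative f) • KaehlerDifferential.D ℂ K x := by
    rw [H.eq, H.D_aeval]
  rw [Derivation.leibniz_pow, H.D_x] at h1
  have h2 : (algebraMap ℂ K (1 / 2) * y⁻¹) • (2 • y ^ (2 - 1) • KaehlerDifferential.D ℂ K y) =
      KaehlerDifferential.D ℂ K y := by
    have h3 : algebraMap ℂ K (1 / 2) * 2 = 1 := by
      have : (2 : K) = algebraMap ℂ K 2 := (map_ofNat (algebraMap ℂ K) 2).symm
      rw [this, ← map_mul]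
      norm_num
    rw [← Nat.cast_smul_eq_nsmul K, smul_smul, smul_smul]
    have h4 : algebraMap ℂ K (1 / 2) * y⁻¹ * ((2 : ℕ) : K) * y ^ (2 - 1) = 1 := by
      have h5 : y⁻¹ * y = 1 := inv_mul_cancel₀ H.y_ne
      have h6 : ((2 : ℕ) : K) = 2 := by norm_num
      rw [h6, show (2 - 1 : ℕ) = 1 from rfl, pow_one]
      linear_combination (y⁻¹ * y) * h3 + h5
    rw [mul_assoc] at h4 ⊢
    rw [h4, one_smul]
  rw [← h2, h1, smul_smul, smul_smul]
  congr 1
  have := H.y_ne
  field_simp

theorem omega0_ne : omega0 x y ≠ 0 := by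
  rw [omega0]
  exact smul_ne_zero (inv_ne_zero H.y_ne) (D_ne_zero H.curve H.trans)

theorem val_y_le {v : Point K} (hv : v.val x ≤ 1) : v.val y ≤ 1 := by
  have h1 : v.val (y ^ 2) ≤ 1 := by
    rw [H.eq]
    exact aeval_le hv f
  rw [map_pow] at h1
  exact (pow_le_one_iff_of_nonneg zero_le two_ne_zero).1 h1

theorem ring_D (p q : ℂ[X]) : ∃ c : K, (∀ v : Point K, v.val x ≤ 1 → v.val c ≤ 1) ∧
    KaehlerDifferential.D ℂ K (Polynomial.aeval x p + Polynomial.aeval x q * y) =
      c • omega0 x y := by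
  refine ⟨Polynomial.aeval x (Polynomial.derivative p) * y +
    (Polynomial.aeval x q * (algebraMap ℂ K (1 / 2) * Polynomial.aeval x (Polynomial.derivative f)) +
    y * Polynomial.aeval x (Polynomial.derivative q) * y), ?_, ?_⟩
  · intro v hv
    have h1 := H.val_y_le hv
    have h2 : ∀ r : ℂ[X], v.val (Polynomial.aeval x r) ≤ 1 := aeval_le hv
    refine Valuation.map_add_le _ ?_ (Valuation.map_add_le _ ?_ ?_)
    · rw [map_mul]; exact mul_le_one' (h2 _) h1
    · rw [map_mul, map_mul]; exact mul_le_one' (h2 _) (mul_le_one' (v.const_le _) (h2 _))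
    · rw [map_mul, map_mul]; exact mul_le_one' (mul_le_one' h1 (h2 _)) h1
  · rw [map_add, Derivation.leibniz, H.D_aeval, H.D_aeval, H.D_y, H.D_x, add_smul, add_smul,
      smul_smul, smul_smul, smul_smul, smul_smul]

theorem D_mem {v : Point K} (hv : v.val x ≤ 1) {b : K} (hb : v.val b ≤ 1) :
    ∃ c : K, v.val c ≤ 1 ∧ KaehlerDifferential.D ℂ K b = c • omega0 x y := by
  obtain ⟨n, s, hn, hs, hs1, hbs⟩ := exists_frac H.curve H.trans v hv b hb
  obtain ⟨p1, q1, hpq1⟩ := H.mem_ring hn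
  obtain ⟨p2, q2, hpq2⟩ := H.mem_ring hs
  obtain ⟨c1, hc1, hD1⟩ := H.ring_D p1 q1
  obtain ⟨c2, hc2, hD2⟩ := H.ring_D p2 q2
  rw [← hpq1] at hD1
  rw [← hpq2] at hD2
  have hs0 : s ≠ 0 := by
    rintro rfl
    rw [map_zero] at hs1
    exact zero_ne_one hs1
  refine ⟨s⁻¹ * (c1 - b * c2), ?_, ?_⟩
  · rw [map_mul, map_inv₀, hs1, inv_one, one_mul]
    refine Valuation.map_sub_le _ (hc1 v hv) ?_
    rw [map_mul]
    exact mul_le_one' hb (hc2 v hv)
  · have h1 : KaehlerDifferential.D ℂ K (b * s) = c1 • omega0 x y := by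
      rw [hbs, hD1]
    rw [Derivation.leibniz, hD2] at h1
    have h2 : s • KaehlerDifferential.D ℂ K b = (c1 - b * c2) • omega0 x y := by
      rw [sub_smul, ← h1, smul_smul]
      abel
    rw [mul_smul, ← h2, smul_smul, inv_mul_cancel₀ hs0, one_smul]

theorem differentials_sub {v : Point K} (hv : v.val x ≤ 1) {ω : Ω[K⁄ℂ]}
    (hω : ω ∈ v.differentials) : ∃ c : K, v.val c ≤ 1 ∧ ω = c • omega0 x y := by
  induction hω using AddSubgroup.closure_induction with
  | mem ω hω =>
    obtain ⟨a, b, ha, hb, rfl⟩ := hω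
    obtain ⟨c, hc, hD⟩ := H.D_mem hv hb
    refine ⟨a * c, ?_, by rw [hD, smul_smul]⟩
    rw [map_mul]
    exact mul_le_one' ha hc
  | zero => exact ⟨0, by simp, by simp⟩
  | add a b _ _ ha hb =>
    obtain ⟨c, hc, rfl⟩ := ha
    obtain ⟨d, hd, rfl⟩ := hb
    exact ⟨c + d, Valuation.map_add_le _ hc hd, by rw [add_smul]⟩
  | neg a _ ha =>
    obtain ⟨c, hc, rfl⟩ := ha
    exact ⟨-c, by rw [Valuation.map_neg]; exact hc, by rw [neg_smul]⟩

theorem omega0_mem {v : Point K} (hv : v.val x ≤ 1) : omega0 x y ∈ v.differentials := by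
  obtain ⟨A, B, hAB⟩ := H.sep
  have h1 := congrArg (Polynomial.aeval x) hAB
  rw [map_add, map_mul, map_mul, map_one, ← H.eq] at h1
  have h2 : algebraMap ℂ K (1 / 2) * 2 = 1 := by
    have : (2 : K) = algebraMap ℂ K 2 := (map_ofNat (algebraMap ℂ K) 2).symm
    rw [this, ← map_mul]
    norm_num
  have h3 : omega0 x y = (Polynomial.aeval x A * y) • KaehlerDifferential.D ℂ K x +
      (2 * Polynomial.aeval x B) • KaehlerDifferential.D ℂ K y := by
    rw [H.D_x, H.D_y, smul_smul, smul_smul, ← add_smul]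
    have h4 : Polynomial.aeval x A * y * y + 2 * Polynomial.aeval x B *
        (algebraMap ℂ K (1 / 2) * Polynomial.aeval x (Polynomial.derivative f)) = 1 := by
      linear_combination h1 +
        (Polynomial.aeval x B * Polynomial.aeval x (Polynomial.derivative f)) * h2
    rw [h4, one_smul]
  rw [h3]
  refine add_mem (AddSubgroup.subset_closure ⟨_, _, ?_, hv, rfl⟩)
    (AddSubgroup.subset_closure ⟨_, _, ?_, H.val_y_le hv, rfl⟩)
  · rw [map_mul]
    exact mul_le_one' (aeval_le hv A) (H.val_y_le hv)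
  · have h5 : (2 : K) * Polynomial.aeval x B = Polynomial.aeval x (Polynomial.C 2 * B) := by
      rw [map_mul, Polynomial.aeval_C, map_ofNat]
    rw [h5]
    exact aeval_le hv _

theorem smul_omega0_mem_iff {v : Point K} (hv : v.val x ≤ 1) (φ : K) :
    φ • omega0 x y ∈ v.differentials ↔ v.val φ ≤ 1 := by
  constructor
  · intro h
    obtain ⟨c, hc, hφ⟩ := H.differentials_sub hv h
    have : φ = c := by
      have h1 : (φ - c) • omega0 x y = 0 := by rw [sub_smul, hφ, sub_self]
      rcases smul_eq_zero.1 h1 with h2 | h2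
      · exact sub_eq_zero.1 h2
      · exact absurd h2 H.omega0_ne
    rw [this]
    exact hc
  · intro h
    exact v.smul_mem_differentials h (H.omega0_mem hv)

/-- the module of differentials is one-dimensional -/
theorem exists_smul (ω : Ω[K⁄ℂ]) : ∃ φ : K, ω = φ • omega0 x y := by
  have h1 : ω ∈ Submodule.span K (Set.range (KaehlerDifferential.D ℂ K)) := by
    rw [KaehlerDifferential.span_range_derivation]; trivial
  induction h1 using Submodule.span_induction with
  | mem ω hω =>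
    obtain ⟨z, rfl⟩ := hω
    obtain ⟨v, hv⟩ := exists_inf H
    -- use any finite point
    obtain ⟨v, hv⟩ := exists_point H.curve H.trans 0
    have hvx := val_x_le hv
    by_cases hz : v.val z ≤ 1
    · obtain ⟨c, -, hc⟩ := H.D_mem hvx hz
      exact ⟨c, hc⟩
    · have hz0 : z ≠ 0 := by
        rintro rfl
        exact hz (by simp)
      have hz1 : v.val z⁻¹ ≤ 1 := by
        rw [map_inv₀]
        exact inv_le_one_of_one_le₀ (not_le.1 hz).le
      obtain ⟨c, -, hc⟩ := H.D_mem hvx hz1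
      rw [Derivation.leibniz_inv] at hc
      refine ⟨-z ^ 2 * c, ?_⟩
      rw [mul_smul, ← hc, smul_smul]
      have : -z ^ 2 * -z⁻¹ ^ 2 = 1 := by
        field_simp
      rw [this, one_smul]
  | zero => exact ⟨0, by simp⟩
  | add a b _ _ ha hb =>
    obtain ⟨c, rfl⟩ := ha
    obtain ⟨d, rfl⟩ := hb
    exact ⟨c + d, by rw [add_smul]⟩
  | smul a ω _ hω =>
    obtain ⟨c, rfl⟩ := hω
    exact ⟨a * c, by rw [smul_smul]⟩

end Hyp

end Pool.Agent.Helper395.CS
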