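import Pool.Agent.Helper395.CS.Reduce

open scoped WithZero Matrix Polynomial IntermediateField
open WithZero

set_option linter.unusedSectionVars false

namespace Pool.Agent.Helper395.CS

variable {K : Type} [Field K] [Algebra ℂ K] {n : ℕ} {x : K}

theorem common_denom (hx : Transcendental ℂ x) {ι : Type} [Fintype ι] (φ : ι → K)
    (hφ : ∀ i, φ i ∈ ℂ⟮x⟯) : ∃ q : ℂ[X], q ≠ 0 ∧ ∀ i, ∃ p : ℂ[X],
      Polynomial.aeval x q * φ i = Polynomial.aeval x p := by
  classical
  choose p q hq _ hpq using fun i => (mem_adj_iff hx).1 (hφ i)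
  refine ⟨∏ i, q i, Finset.prod_ne_zero_iff.2 fun i _ => hq i, fun i => ?_⟩
  refine ⟨p i * ∏ j ∈ Finset.univ.erase i, q j, ?_⟩
  rw [← Finset.mul_prod_erase _ _ (Finset.mem_univ i), map_mul, map_mul, hpq i]
  have := aeval_ne_zero hx (hq i)
  field_simp

theorem exists_pres (hx : Transcendental ℂ x) (V : Submodule ℂ (Fin n → K))
    [FiniteDimensional ℂ V] (hV : ∀ s ∈ V, ∀ i, s i ∈ ℂ⟮x⟯) :
    ∃ (r : ℕ) (w : Fin r → Fin n → K) (b : Fin r → ℕ), Pres x V r w b := by
  classical
  -- the set of vectors over the subfield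
  let V0 : Set (Fin n → ℂ⟮x⟯) := {s | (fun i => (s i : K)) ∈ V}
  obtain ⟨B, hB, hspan, hli⟩ := exists_linearIndependent ℂ⟮x⟯ V0
  have hBfin : Finite B := by
    have := hli.finite
    exact this
  obtain ⟨r, ⟨e⟩⟩ := Finite.exists_equiv_fin B
  let u : Fin r → (Fin n → ℂ⟮x⟯) := fun i => (e.symm i).1
  have hu : LinearIndependent ℂ⟮x⟯ u := hli.comp e.symm e.symm.injective
  have huV : ∀ i, (fun l => (u i l : K)) ∈ V := fun i => hB (e.symm i).2
  have hrange : Set.range u = B := by
    ext s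
    constructor
    · rintro ⟨i, rfl⟩
      exact (e.symm i).2
    · intro hs
      exact ⟨e ⟨s, hs⟩, by simp [u]⟩
  -- linear independence over `K`
  let N0 : Matrix (Fin n) (Fin r) ℂ⟮x⟯ := fun l i => u i l
  have hN0 : Function.Injective N0.mulVec := by
    rw [Matrix.mulVec_injective_iff]
    exact hu
  obtain ⟨m, hm⟩ := exists_minor N0 hN0
  let N : Matrix (Fin n) (Fin r) K := fun l i => (u i l : K)
  have hmK : (N.submatrix m id).det ≠ 0 := by
    have h1 : (N.submatrix m id) = (N0.submatrix m id).map (algebraMap ℂ⟮x⟯ K) := rfl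
    rw [h1, ← RingHom.mapMatrix_apply, ← RingHom.map_det]
    exact (map_ne_zero _).2 hm
  have huK : LinearIndependent K (fun i => (fun l => (u i l : K))) := by
    have h2 : Function.Injective N.mulVec := by
      intro a b hab
      have h3 : (N.submatrix m id) *ᵥ a = (N.submatrix m id) *ᵥ b := by
        ext i
        exact congrFun hab (m i)
      have h4 : IsUnit (N.submatrix m id) := by
        rw [Matrix.isUnit_iff_isUnit_det]; exact hmK.isUnit
      exact (Matrix.mulVec_injective_iff_isUnit.2 h4) h3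
    rw [Matrix.mulVec_injective_iff] at h2
    exact h2
  -- coordinates
  have hcoord : ∀ s ∈ V, ∃ c : Fin r → K, (∀ i, c i ∈ ℂ⟮x⟯) ∧
      s = ∑ i, c i • (fun l => (u i l : K)) := by
    intro s hs
    let s0 : Fin n → ℂ⟮x⟯ := fun l => ⟨s l, hV s hs l⟩
    have h1 : s0 ∈ Submodule.span ℂ⟮x⟯ V0 := Submodule.subset_span (by exact hs)
    rw [← hspan, ← hrange, Submodule.mem_span_range_iff_exists_fun] at h1
    obtain ⟨c, hc⟩ := h1
    refine ⟨fun i => (c i : K), fun i => (c i).2, ?_⟩
    ext l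
    have h2 := congrArg (fun t : Fin n → ℂ⟮x⟯ => ((t l : ℂ⟮x⟯) : K)) hc
    simp only [Finset.sum_apply, Pi.smul_apply, smul_eq_mul] at h2 ⊢
    change s l = _
    have h3 : s l = ((s0 l : ℂ⟮x⟯) : K) := rfl
    rw [h3, ← h2]
    push_cast
    rfl
  -- a finite basis of V
  let bV := Module.finBasis ℂ V
  choose c hc1 hc2 using fun l => hcoord (bV l : Fin n → K) (bV l).2
  obtain ⟨q, hq, hqp⟩ := common_denom hx (fun li : Fin (Module.finrank ℂ V) × Fin r => c li.1 li.2)
    (fun li => hc1 li.1 li.2)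
  choose P hP using hqp
  have hqK : Polynomial.aeval x q ≠ 0 := aeval_ne_zero hx hq
  refine ⟨r, fun i => (Polynomial.aeval x q)⁻¹ • (fun l => (u i l : K)),
    fun i => ∑ l, (P (l, i)).natDegree, ?_, ?_, ?_⟩
  · have := huK.units_smul (fun _ => Units.mk0 _ (inv_ne_zero hqK))
    exact this
  · intro i
    exact Submodule.smul_mem _ _ (Submodule.subset_span (huV i))
  · intro s hs
    have h1 : s = ∑ l, bV.repr ⟨s, hs⟩ l • (bV l : Fin n → K) := by
      have h2 := congrArg (Submodule.subtype V) (bV.sum_repr ⟨s, hs⟩)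
      rw [map_sum] at h2
      simpa using h2.symm
    refine ⟨fun i => ∑ l, Polynomial.C (bV.repr ⟨s, hs⟩ l) * P (l, i), ?_, ?_⟩
    · intro i
      refine Polynomial.natDegree_sum_le_of_forall_le _ _ fun l _ => ?_
      refine (Polynomial.natDegree_C_mul_le _ _).trans ?_
      exact Finset.single_le_sum (f := fun l => (P (l, i)).natDegree) (fun _ _ => Nat.zero_le _)
        (Finset.mem_univ l)
    · conv_lhs => rw [h1]
      simp only [map_sum, map_mul, Polynomial.aeval_C, Finset.sum_smul]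
      rw [Finset.sum_comm]
      refine Finset.sum_congr rfl fun l _ => ?_
      conv_lhs => rw [hc2 l]
      rw [Finset.smul_sum]
      refine Finset.sum_congr rfl fun i _ => ?_
      rw [smul_smul, ← algebraMap_smul K (bV.repr ⟨s, hs⟩ l), smul_smul, ← hP (l, i)]
      congr 1
      field_simp

end Pool.Agent.Helper395.CS
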