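import Pool.Agent.Helper395.CS.Exists

open scoped WithZero Matrix Polynomial IntermediateField
open WithZero

set_option linter.unusedSectionVars false

namespace Pool.Agent.Helper395.CS

variable {K : Type} [Field K] [Algebra ℂ K] {n : ℕ} {x : K}

open Classical in
/-- the local generator of the line bundle `b H` -/
noncomputable def dgen (x : K) (v : Point K) (b : ℕ) : K := if v.val x ≤ 1 then 1 else x ^ b

theorem dgen_ne (hx : x ≠ 0) (v : Point K) (b : ℕ) : dgen x v b ≠ 0 := by
  rw [dgen]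
  split_ifs
  · exact one_ne_zero
  · exact pow_ne_zero _ hx

theorem dgen_fin {v : Point K} (h : v.val x ≤ 1) (b : ℕ) : dgen x v b = 1 := if_pos h

theorem dgen_inf {v : Point K} (h : 1 < v.val x) (b : ℕ) : dgen x v b = x ^ b :=
  if_neg (not_le.2 h)

theorem ord_dgen (hx : x ≠ 0) (v : Point K) (b : ℕ) :
    -v.ord (dgen x v b) = b * max (-v.ord x) 0 := by
  by_cases h : v.val x ≤ 1
  · rw [dgen_fin h, v.ord_one]
    have := (v.val_le_one_iff hx).1 h
    rw [max_eq_right (by omega)]
    simp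
  · rw [dgen_inf (not_le.1 h), v.ord_pow]
    have := (v.one_lt_val_iff hx).1 (not_le.1 h)
    rw [max_eq_left (by omega)]
    ring

/-- the diagonal frame -/
noncomputable def dframe (hx : x ≠ 0) (v : Point K) (b : Fin n → ℕ) : GL (Fin n) K :=
  Matrix.GeneralLinearGroup.mkOfDetNeZero (Matrix.diagonal fun i => dgen x v (b i)) (by
    rw [Matrix.det_diagonal]
    exact Finset.prod_ne_zero_iff.2 fun i _ => dgen_ne hx v _)

theorem dframe_inv_mulVec (hx : x ≠ 0) (v : Point K) (b : Fin n → ℕ) (s : Fin n → K) (i : Fin n) :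
    ((dframe hx v b)⁻¹.1 *ᵥ s) i = (dgen x v (b i))⁻¹ * s i := by
  have h1 := gl_mulVec_inv (dframe hx v b) s
  have h2 := congrFun h1 i
  change (Matrix.diagonal (fun i => dgen x v (b i)) *ᵥ ((dframe hx v b)⁻¹.1 *ᵥ s)) i = s i at h2
  rw [Matrix.mulVec_diagonal] at h2
  rw [← h2, ← mul_assoc, inv_mul_cancel₀ (dgen_ne hx v _), one_mul]

/-- the bundle `⊕ O(b_i H) w_i` -/
noncomputable def gBundle (hK : IsCurve K) (hx : x ≠ 0) (w : GL (Fin n) K) (b : Fin n → ℕ) :
    Bundle K n where
  frame v := w * dframe hx v b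
  finite := by
    refine ((finite_not_regM hK w.1).union ((finite_not_regM hK w⁻¹.1).union
      (finite_not_reg hK x))).subset fun v hv => ?_
    by_contra hcon
    simp only [Set.mem_union, Set.mem_ofPred_eq, not_or, not_not] at hcon
    obtain ⟨h1, h2, h3⟩ := hcon
    apply hv
    have h4 : dframe hx v b = 1 := by
      apply Units.ext
      change Matrix.diagonal (fun i => dgen x v (b i)) = 1
      simp [dgen_fin h3]
    rw [h4, mul_one]
    exact ⟨h1, h2⟩

theorem mem_gBundle_iff (hK : IsCurve K) (hx : x ≠ 0) (w : GL (Fin n) K) (b : Fin n → ℕ)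
    (v : Point K) (s : Fin n → K) : s ∈ (gBundle hK hx w b).stalk v ↔
      ∀ i, v.val ((w⁻¹.1 *ᵥ s) i) ≤ v.val (dgen x v (b i)) := by
  rw [mem_stalk_iff]
  have h1 : ∀ i, (((gBundle hK hx w b).frame v)⁻¹.1 *ᵥ s) i =
      (dgen x v (b i))⁻¹ * (w⁻¹.1 *ᵥ s) i := by
    intro i
    change ((w * dframe hx v b)⁻¹.1 *ᵥ s) i = _
    rw [mul_inv_rev, Units.val_mul, ← Matrix.mulVec_mulVec, dframe_inv_mulVec]
  refine forall_congr' fun i => ?_
  rw [h1 i, map_mul, map_inv₀, inv_mul_le_iff₀ (zero_lt_iff.2 (v.val_ne_zero (dgen_ne hx v _))),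
    mul_one]

theorem gBundle_degree (hK : IsCurve K) (hx : x ≠ 0) (w : GL (Fin n) K) (b : Fin n → ℕ) :
    (gBundle hK hx w b).degree = (∑ i, b i : ℕ) * degP x := by
  have h1 : ∀ v : Point K, -v.ord ((gBundle hK hx w b).frame v).1.det =
      -v.ord w.1.det + (∑ i, b i : ℕ) * max (-v.ord x) 0 := by
    intro v
    change -v.ord (w.1 * Matrix.diagonal (fun i => dgen x v (b i))).det = _
    rw [Matrix.det_mul, Matrix.det_diagonal, v.ord_mul (gl_det_ne_zero w)
      (Finset.prod_ne_zero_iff.2 fun i _ => dgen_ne hx v _), neg_add]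
    congr 1
    have h2 : ∀ S : Finset (Fin n), v.ord (∏ i ∈ S, dgen x v (b i)) =
        ∑ i ∈ S, v.ord (dgen x v (b i)) := by
      intro S
      induction S using Finset.induction_on with
      | empty => simp [v.ord_one]
      | insert a S ha ih =>
        rw [Finset.prod_insert ha, Finset.sum_insert ha, v.ord_mul (dgen_ne hx v _)
          (Finset.prod_ne_zero_iff.2 fun i _ => dgen_ne hx v _), ih]
    rw [h2, ← Finset.sum_neg_distrib, Nat.cast_sum, Finset.sum_mul]
    exact Finset.sum_congr rfl fun i _ => ord_dgen hx v _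
  rw [Bundle.degree, finsum_congr h1, finsum_add_distrib, degP, mul_finsum]
  · have h3 : ∑ᶠ v : Point K, -v.ord w.1.det = 0 := by
      rw [finsum_neg_distrib, sum_ord hK, neg_zero]
    rw [h3, zero_add]
  · refine (finite_ord hK w.1.det).subset fun v hv => ?_
    rw [Function.mem_support, neg_ne_zero] at hv
    exact hv
  · refine (finite_ord_neg hK x).subset fun v hv => ?_
    rw [Function.mem_support] at hv
    change v.ord x < 0
    by_contra hcon
    apply hv
    rw [max_eq_right (by omega), mul_zero]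

/-- comparison with the bundle generated by a reduced presentation -/
theorem gBundle_le (hK : IsCurve K) (hx : x ≠ 0) (E : Bundle K n) (w : GL (Fin n) K)
    (b : Fin n → ℕ) (h1 : ∀ v : Point K, v.val x ≤ 1 → ∀ i, (fun l => w.1 l i) ∈ E.stalk v)
    (h2 : ∀ v : Point K, 1 < v.val x → ∀ i, x ^ b i • (fun l => w.1 l i) ∈ E.stalk v) :
    (gBundle hK hx w b).degree ≤ E.degree ∧ ((gBundle hK hx w b).degree = E.degree →
      ∀ v s, s ∈ E.stalk v ↔ ∀ i, v.val ((w⁻¹.1 *ᵥ s) i) ≤ v.val (dgen x v (b i))) := by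
  have h3 : ∀ v s, s ∈ (gBundle hK hx w b).stalk v → (1 : GL (Fin n) K).1 *ᵥ s ∈ E.stalk v := by
    intro v s hs
    rw [Units.val_one, Matrix.one_mulVec]
    rw [mem_gBundle_iff] at hs
    have h4 : s = ∑ i, ((dgen x v (b i))⁻¹ * (w⁻¹.1 *ᵥ s) i) •
        (dgen x v (b i) • (fun l => w.1 l i)) := by
      have h5 := gl_mulVec_inv w s
      conv_lhs => rw [← h5]
      ext l
      rw [Matrix.mulVec, dotProduct, Finset.sum_apply]
      refine Finset.sum_congr rfl fun i _ => ?_
      simp only [Pi.smul_apply, smul_eq_mul]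
      have := dgen_ne hx v (b i)
      field_simp
    rw [h4]
    apply stalk_smul_add
    · intro i
      rw [map_mul, map_inv₀, inv_mul_le_iff₀ (zero_lt_iff.2 (v.val_ne_zero (dgen_ne hx v _))),
        mul_one]
      exact hs i
    · intro i
      by_cases hv : v.val x ≤ 1
      · rw [dgen_fin hv, one_smul]
        exact h1 v hv i
      · rw [dgen_inf (not_le.1 hv)]
        exact h2 v (not_le.1 hv) i
  have h4 := degree_compare hK h3
  refine ⟨h4.1, fun heq v s => ?_⟩
  have h5 := h4.2 heq v s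
  rw [Units.val_one, Matrix.one_mulVec] at h5
  rw [← h5, mem_gBundle_iff]

end Pool.Agent.Helper395.CS
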