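import Pool.Agent.Helper395.CS.Diff

open scoped WithZero Matrix Polynomial IntermediateField TensorProduct
open WithZero

set_option linter.unusedSectionVars false

namespace Pool.Agent.Helper395.CS

variable {K : Type} [Field K] [Algebra ℂ K]

/-- the polynomial `X ^ 50 + 1` -/
noncomputable def f50 : ℂ[X] := Polynomial.X ^ 50 + 1

theorem f50_natDegree : f50.natDegree = 50 := by
  rw [f50, ← Polynomial.C_1]
  exact Polynomial.natDegree_X_pow_add_C

theorem f50_aeval (x : K) : Polynomial.aeval x f50 = x ^ 50 + 1 := by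
  simp [f50]

theorem f50_separable : f50.Separable := by
  have h : f50 = Polynomial.X ^ 50 - Polynomial.C (-1) := by
    rw [f50, map_neg, sub_neg_eq_add, Polynomial.C_1]
  rw [h]
  exact Polynomial.separable_X_pow_sub_C (-1) (by norm_num) (by norm_num)

namespace Hyp

variable {x y : K} {ι : K ≃ₐ[ℂ] K} (H : Hyp x y f50 ι)

include H

/-- the coordinates at infinity -/
theorem swap : Hyp x⁻¹ (y / x ^ 25) f50 ι where
  curve := H.curve
  trans := transcendental_inv H.trans
  eq := by
    have hx := H.x_ne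
    rw [div_pow, H.eq, f50_aeval, f50_aeval]
    field_simp
    ring
  sep := H.sep
  span := by
    intro z
    obtain ⟨a, ha, b, hb, rfl⟩ := H.span z
    rw [adjoin_inv]
    have hx : x ∈ ℂ⟮x⟯ := IntermediateField.mem_adjoin_simple_self ℂ x
    refine ⟨a, ha, b * x ^ 25, mul_mem hb (pow_mem hx 25), ?_⟩
    have := H.x_ne
    field_simp
  inv_x := by rw [map_inv₀, H.inv_x]
  inv_y := by rw [map_div₀, map_pow, H.inv_x, H.inv_y, neg_div]

theorem omega0_swap : omega0 x⁻¹ (y / x ^ 25) = (-x ^ 23) • omega0 x y := by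
  have hx := H.x_ne
  have hy := H.y_ne
  rw [omega0, Derivation.leibniz_inv, H.D_x, smul_smul, smul_smul]
  congr 1
  field_simp

theorem val_inv_le {v : Point K} (hv : 1 < v.val x) : v.val x⁻¹ ≤ 1 := by
  rw [map_inv₀]
  exact inv_le_one_of_one_le₀ hv.le

theorem val_y_inf {v : Point K} (hv : 1 < v.val x) : v.val y = v.val x ^ 25 := by
  have h1 : v.val (y ^ 2) = v.val x ^ 50 := by
    rw [H.eq, val_aeval_inf hv f50 H.f_ne, f50_natDegree]
  rw [map_pow] at h1
  have h2 : v.val x ^ 50 = (v.val x ^ 25) ^ 2 := by rw [← pow_mul]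
  rw [h2] at h1
  exact (pow_left_inj₀ zero_le zero_le two_ne_zero).1 h1

theorem smul_omega0_mem_iff' (v : Point K) (φ : K) :
    φ • omega0 x y ∈ v.differentials ↔ v.val φ ≤ v.val (dgen x v 23) := by
  by_cases hv : v.val x ≤ 1
  · rw [dgen_fin hv, map_one]
    exact H.smul_omega0_mem_iff hv φ
  · have hv' := not_le.1 hv
    have hx := H.x_ne
    rw [dgen_inf hv', map_pow]
    have h1 := H.swap.smul_omega0_mem_iff (v := v) (H.val_inv_le hv') (-φ * (x ^ 23)⁻¹)
    rw [H.omega0_swap, smul_smul] at h1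
    have h2 : -φ * (x ^ 23)⁻¹ * -x ^ 23 = φ := by
      field_simp
    rw [h2] at h1
    rw [h1, map_mul, map_inv₀, Valuation.map_neg, map_pow, ← div_eq_mul_inv,
      div_le_one₀ (pow_pos (zero_lt_one.trans hv') _)]

/-- rational functions with bounded poles at infinity are polynomials -/
theorem poly_of_le' {z : K} {b : ℕ} (hb : b ≤ 24)
    (hz : ∀ v : Point K, v.val z ≤ v.val (dgen x v b)) :
    ∃ p : ℂ[X], p.natDegree ≤ b ∧ z = Polynomial.aeval x p := by
  obtain ⟨p, q, rfl⟩ := H.mem_ring (z := z) (fun v hv => by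
    have := hz v
    rwa [dgen_fin hv, map_one] at this)
  obtain ⟨v, hv⟩ := exists_inf H
  have h1 := H.parts_le rfl (mem_adj p) (mem_adj q) v (C := v.val x ^ b) (by
    have := hz v
    rwa [dgen_inf hv, map_pow] at this) (by
    have h2 : 1 < (v.comap ι).val x := by rw [H.comap_x]; exact hv
    have := hz (v.comap ι)
    rwa [dgen_inf h2, map_pow, H.comap_x] at this)
  have hq : q = 0 := by
    by_contra hq
    have h3 := h1.2
    rw [map_mul, val_aeval_inf hv q hq, H.val_y_inf hv, ← pow_add, pow_le_pow_iff_right₀ hv] at h3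
    omega
  subst hq
  rw [map_zero, zero_mul, add_zero] at *
  rcases eq_or_ne p 0 with rfl | hp
  · exact ⟨0, by simp, rfl⟩
  refine ⟨p, ?_, rfl⟩
  have h4 := h1.1
  rwa [val_aeval_inf hv p hp, pow_le_pow_iff_right₀ hv] at h4

/-- the map `c ↦ (∑ c_j x^j) dx/y` -/
noncomputable def diffMap (x y : K) (m : ℕ) : (Fin m → ℂ) →ₗ[ℂ] Ω[K⁄ℂ] :=
  ((LinearMap.toSpanSingleton K (Ω[K⁄ℂ]) (omega0 x y)).restrictScalars ℂ).comp (pev x m)

theorem diffMap_injective (m : ℕ) : Function.Injective (diffMap x y m) := by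
  intro a b hab
  apply pev_injective H.trans
  have h1 : pev x m a • omega0 x y = pev x m b • omega0 x y := hab
  have h2 : (pev x m a - pev x m b) • omega0 x y = 0 := by rw [sub_smul, h1, sub_self]
  rcases smul_eq_zero.1 h2 with h3 | h3
  · exact sub_eq_zero.1 h3
  · exact absurd h3 H.omega0_ne

theorem finrank_of_iff (S : Submodule ℂ (Ω[K⁄ℂ])) {b : ℕ} (hb : b ≤ 24)
    (hS : ∀ φ : K, φ • omega0 x y ∈ S ↔ ∀ v : Point K, v.val φ ≤ v.val (dgen x v b)) :
    Module.finrank ℂ S = b + 1 := by
  have h1 : S = LinearMap.range (diffMap x y (b + 1)) := by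
    ext ω
    obtain ⟨φ, rfl⟩ := H.exists_smul ω
    rw [hS]
    constructor
    · intro h
      obtain ⟨p, hp, rfl⟩ := H.poly_of_le' hb h
      refine ⟨fun j => p.coeff j, ?_⟩
      change pev x (b + 1) _ • omega0 x y = _
      rw [pev_coeff x p hp]
    · rintro ⟨c, hc⟩ v
      have h2 : pev x (b + 1) c • omega0 x y = φ • omega0 x y := hc
      have h3 : (pev x (b + 1) c - φ) • omega0 x y = 0 := by rw [sub_smul, h2, sub_self]
      rcases smul_eq_zero.1 h3 with h4 | h4
      · rw [← sub_eq_zero.1 h4]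
        exact pev_le v b c
      · exact absurd h4 H.omega0_ne
  rw [h1, LinearMap.finrank_range_of_inj (H.diffMap_injective _)]
  simp

theorem genus_eq : genus K = 24 := by
  apply H.finrank_of_iff _ (b := 23) (by norm_num)
  intro φ
  exact forall_congr' fun v => H.smul_omega0_mem_iff' v φ

end Hyp

/-- the line bundle `bH` -/
noncomputable def lineH (hK : IsCurve K) {x : K} (hx : x ≠ 0) (b : ℕ) : LineBundle K where
  frame v := Units.mk0 (dgen x v b) (dgen_ne hx v b)
  finite := by
    refine (finite_not_reg hK x).subset fun v hv h => hv ?_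
    change v.val (dgen x v b) = 1
    rw [dgen_fin h, map_one]

namespace Hyp

variable {x y : K} {ι : K ≃ₐ[ℂ] K} (H : Hyp x y f50 ι)

include H

theorem dgen_mul (v : Point K) (a b : ℕ) : dgen x v a * dgen x v b = dgen x v (a + b) := by
  by_cases hv : v.val x ≤ 1
  · rw [dgen_fin hv, dgen_fin hv, dgen_fin hv, one_mul]
  · rw [dgen_inf (not_le.1 hv), dgen_inf (not_le.1 hv), dgen_inf (not_le.1 hv), pow_add]

theorem hOne_eq : (lineH H.curve H.x_ne 6).hOne = 18 := by
  apply H.finrank_of_iff _ (b := 17) (by norm_num)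
  intro φ
  refine forall_congr' fun v => ?_
  have h6 := v.val_ne_zero (dgen_ne H.x_ne v 6)
  have key : ∀ z : K, v.val (z * φ) ≤ v.val (dgen x v 23) ↔
      v.val (z * φ) ≤ v.val (dgen x v 17) * v.val (dgen x v 6) := by
    intro z
    rw [← map_mul, H.dgen_mul]
  constructor
  · intro h
    have h1 := h (dgen x v 6) (le_refl (v.val (dgen x v 6)))
    rw [smul_smul, H.smul_omega0_mem_iff', key, map_mul, mul_comm] at h1
    exact le_of_mul_le_mul_right h1 (zero_lt_iff.2 h6)
  · intro h s hs
    rw [smul_smul, H.smul_omega0_mem_iff', key, map_mul, mul_comm]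
    exact mul_le_mul' h hs

theorem degree_lineH (b : ℕ) : (lineH H.curve H.x_ne b).degree = 2 * b := by
  have h1 : ∀ v : Point K, -v.ord ((lineH H.curve H.x_ne b).frame v : K) =
      (b : ℤ) * max (-v.ord x) 0 := fun v => ord_dgen H.x_ne v b
  rw [LineBundle.degree, finsum_congr h1, ← mul_finsum]
  change (b : ℤ) * degP x = _
  rw [H.degP_x]
  ring

theorem bound_eq : expectedBound 3 8 (lineH H.curve H.x_ne 6) = 672 := by
  rw [expectedBound, H.genus_eq, H.hOne_eq, H.degree_lineH, brillNoether]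
  norm_num [Nat.choose]

end Hyp

end Pool.Agent.Helper395.CS
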