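import Pool.Agent.Helper395.CS.BundleLemmas

open scoped WithZero Matrix Polynomial IntermediateField
open WithZero

set_option linter.unusedSectionVars false

namespace Pool.Agent.Helper395.CS

variable {K : Type} [Field K] [Algebra ℂ K]

/-- `K = ℂ(x, y)`, `y² = f(x)` is the function field of a hyperelliptic curve. -/
structure Hyp (x y : K) (f : ℂ[X]) (ι : K ≃ₐ[ℂ] K) : Prop where
  curve : IsCurve K
  trans : Transcendental ℂ x
  eq : y ^ 2 = Polynomial.aeval x f
  sep : f.Separable
  span : ∀ z : K, ∃ a ∈ ℂ⟮x⟯, ∃ b ∈ ℂ⟮x⟯, z = a + b * y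
  inv_x : ι x = x
  inv_y : ι y = -y

theorem aeval_ne_zero {x : K} (hx : Transcendental ℂ x) {p : ℂ[X]} (hp : p ≠ 0) :
    Polynomial.aeval x p ≠ 0 := fun h => hx ⟨p, hp, h⟩

theorem mem_adj {x : K} (p : ℂ[X]) : Polynomial.aeval x p ∈ ℂ⟮x⟯ :=
  IntermediateField.algebra_adjoin_le_adjoin ℂ _ (Polynomial.aeval_mem_adjoin_singleton ℂ x)

theorem mem_adj_iff {x : K} (hx : Transcendental ℂ x) {z : K} :
    z ∈ ℂ⟮x⟯ ↔ ∃ p q : ℂ[X], q ≠ 0 ∧ IsCoprime p q ∧
      z = Polynomial.aeval x p / Polynomial.aeval x q := by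
  constructor
  · intro hz
    obtain ⟨u, hu⟩ := (RatFunc.algEquivOfTranscendental x hx).surjective ⟨z, hz⟩
    refine ⟨u.num, u.denom, u.denom_ne_zero, u.isCoprime_num_denom, ?_⟩
    have := congrArg (fun w : ℂ⟮x⟯ => (w : K)) hu
    simp only at this
    rw [← this, RatFunc.algEquivOfTranscendental_apply]
  · rintro ⟨p, q, -, -, rfl⟩
    exact div_mem (mem_adj p) (mem_adj q)

section local_at

variable {x : K} (hx : Transcendental ℂ x) {a : ℂ} {v : Point K}
  (hv : v.val (x - algebraMap ℂ K a) < 1)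

include hv in
theorem val_x_le : v.val x ≤ 1 := by
  have h : x = (x - algebraMap ℂ K a) + algebraMap ℂ K a := by ring
  rw [h]
  exact Valuation.map_add_le _ hv.le (v.const_le a)

theorem aeval_le (h : v.val x ≤ 1) (p : ℂ[X]) : v.val (Polynomial.aeval x p) ≤ 1 := by
  rw [Polynomial.aeval_eq_sum_range]
  refine Valuation.map_sum_le _ fun i _ => ?_
  rw [Algebra.smul_def, map_mul, map_pow]
  exact mul_le_one' (v.const_le _) (pow_le_one' h _)

include hv in
theorem aeval_sub_lt (p : ℂ[X]) :
    v.val (Polynomial.aeval x p - algebraMap ℂ K (p.eval a)) < 1 := by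
  obtain ⟨q, hq⟩ := Polynomial.X_sub_C_dvd_sub_C_eval (a := a) (p := p)
  have h := congrArg (Polynomial.aeval x) hq
  simp only [map_sub, map_mul, Polynomial.aeval_C, Polynomial.aeval_X] at h
  rw [h, map_mul]
  exact (mul_le_of_le_one_right' (aeval_le (val_x_le hv) q)).trans_lt hv

include hv in
theorem aeval_lt_iff (p : ℂ[X]) : v.val (Polynomial.aeval x p) < 1 ↔ p.eval a = 0 := by
  have h := aeval_sub_lt hv p
  constructor
  · intro h1
    by_contra h2
    have h3 := Valuation.map_sub_lt v.val h1 h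
    rw [sub_sub_cancel, v.const _ h2] at h3
    exact lt_irrefl _ h3
  · intro h1
    rwa [h1, map_zero, sub_zero] at h

include hv in
theorem aeval_eq_one (p : ℂ[X]) (hp : p.eval a ≠ 0) : v.val (Polynomial.aeval x p) = 1 := by
  refine le_antisymm (aeval_le (val_x_le hv) p) (not_lt.1 fun h => hp ((aeval_lt_iff hv p).1 h))

include hv hx in
theorem ord_aeval (p : ℂ[X]) (hp : p ≠ 0) :
    v.ord (Polynomial.aeval x p) = p.rootMultiplicity a * v.ord (x - algebraMap ℂ K a) := by
  obtain ⟨q, hq, hnd⟩ := Polynomial.exists_eq_pow_rootMultiplicity_mul_and_not_dvd p hp a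
  have hq0 : q ≠ 0 := by
    rintro rfl
    exact hnd (dvd_zero _)
  have hqa : q.eval a ≠ 0 := fun h => hnd (Polynomial.dvd_iff_isRoot.2 h)
  have hxa : x - algebraMap ℂ K a ≠ 0 := by
    have := aeval_ne_zero hx (Polynomial.X_sub_C_ne_zero a)
    simpa using this
  conv_lhs => rw [hq]
  rw [map_mul, map_pow, map_sub, Polynomial.aeval_X, Polynomial.aeval_C,
    v.ord_mul (pow_ne_zero _ hxa) (aeval_ne_zero hx hq0), v.ord_pow,
    (v.val_eq_one_iff (aeval_ne_zero hx hq0)).1 (aeval_eq_one hv q hqa), add_zero]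

include hv hx in
theorem ord_mem_adj {z : K} (hz : z ∈ ℂ⟮x⟯) (hz0 : z ≠ 0) :
    ∃ m : ℤ, v.ord z = m * v.ord (x - algebraMap ℂ K a) := by
  obtain ⟨p, q, hq, -, rfl⟩ := (mem_adj_iff hx).1 hz
  have hp : p ≠ 0 := by
    rintro rfl
    simp at hz0
  refine ⟨(p.rootMultiplicity a : ℤ) - q.rootMultiplicity a, ?_⟩
  rw [div_eq_mul_inv, v.ord_mul (aeval_ne_zero hx hp) (inv_ne_zero (aeval_ne_zero hx hq)), v.ord_inv,
    ord_aeval hx hv p hp, ord_aeval hx hv q hq]
  ring

end local_at

theorem exists_point (hK : IsCurve K) {x : K} (hx : Transcendental ℂ x) (a : ℂ) :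
    ∃ v : Point K, v.val (x - algebraMap ℂ K a) < 1 := by
  have hxa : Transcendental ℂ (x - algebraMap ℂ K a) := by
    intro h
    apply hx
    have := h.add (isAlgebraic_algebraMap (A := K) a)
    rwa [sub_add_cancel] at this
  obtain ⟨S, hS, hsum⟩ := zero_count_aux hK hxa
  have := hK.finiteDimensional hxa
  have hpos : 0 < Module.finrank ℂ⟮x - algebraMap ℂ K a⟯ K := Module.finrank_pos
  have hne : S.Nonempty := by
    rw [Finset.nonempty_iff_ne_empty]
    rintro rfl
    simp at hsum
    omega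
  obtain ⟨v, hv⟩ := hne
  exact ⟨v, (hS v).1 hv⟩

theorem point_injective {x : K} {a b : ℂ} {v : Point K} (ha : v.val (x - algebraMap ℂ K a) < 1)
    (hb : v.val (x - algebraMap ℂ K b) < 1) : a = b := by
  by_contra hab
  have h := Valuation.map_sub_lt v.val ha hb
  have h2 : x - algebraMap ℂ K a - (x - algebraMap ℂ K b) = algebraMap ℂ K (b - a) := by
    rw [map_sub]; ring
  rw [h2, v.const _ (sub_ne_zero.2 (Ne.symm hab))] at h
  exact lt_irrefl _ h

/-- rational functions of `x` which are regular at finite distance are polynomials -/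
theorem poly_of_regular (hK : IsCurve K) {x : K} (hx : Transcendental ℂ x) {z : K}
    (hz : z ∈ ℂ⟮x⟯) (hreg : ∀ v : Point K, v.val x ≤ 1 → v.val z ≤ 1) :
    ∃ p : ℂ[X], z = Polynomial.aeval x p := by
  obtain ⟨p, q, hq, hpq, rfl⟩ := (mem_adj_iff hx).1 hz
  by_cases hdeg : q.degree = 0
  · have hC := Polynomial.eq_C_of_degree_eq_zero hdeg
    refine ⟨Polynomial.C (q.coeff 0)⁻¹ * p, ?_⟩
    rw [map_mul, Polynomial.aeval_C]
    conv_lhs => rw [hC]
    rw [Polynomial.aeval_C, map_inv₀, div_eq_inv_mul]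
  · exfalso
    obtain ⟨a, ha⟩ := IsAlgClosed.exists_root q hdeg
    obtain ⟨v, hv⟩ := exists_point hK hx a
    have h1 := (aeval_lt_iff hv q).2 ha
    have hpa : p.eval a ≠ 0 := by
      intro hpa
      obtain ⟨u, w, huw⟩ := hpq
      have := congrArg (Polynomial.eval a) huw
      rw [Polynomial.eval_add, Polynomial.eval_mul, Polynomial.eval_mul, hpa, ha.eq_zero] at this
      simp at this
    have h2 := aeval_eq_one hv p hpa
    have h3 := hreg v (val_x_le hv)
    rw [map_div₀, h2] at h3
    have h4 : v.val (Polynomial.aeval x q) ≠ 0 := v.val_ne_zero (aeval_ne_zero hx hq)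
    rw [div_le_iff₀ (zero_lt_iff.2 h4), one_mul] at h3
    exact absurd h1 (not_lt.2 h3)

/-- the order of a polynomial in `x` at infinity -/
theorem val_aeval_inf {x : K} {v : Point K} (hv : 1 < v.val x) (p : ℂ[X]) (hp : p ≠ 0) :
    v.val (Polynomial.aeval x p) = v.val x ^ p.natDegree := by
  have h1 : p = Polynomial.C p.leadingCoeff * Polynomial.X ^ p.natDegree + p.eraseLead := by
    rw [add_comm, Polynomial.C_mul_X_pow_eq_monomial, Polynomial.eraseLead_add_monomial_natDegree_leadingCoeff]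
  have h2 : Polynomial.aeval x p = algebraMap ℂ K p.leadingCoeff * x ^ p.natDegree +
      Polynomial.aeval x p.eraseLead := by
    conv_lhs => rw [h1]
    simp
  have h3 : v.val (algebraMap ℂ K p.leadingCoeff * x ^ p.natDegree) = v.val x ^ p.natDegree := by
    rw [map_mul, map_pow, v.const _ (Polynomial.leadingCoeff_ne_zero.2 hp), one_mul]
  have h4 : v.val (Polynomial.aeval x p.eraseLead) < v.val x ^ p.natDegree := by
    rw [Polynomial.aeval_eq_sum_range]
    have hpos : (0 : ℤᵐ⁰) < v.val x ^ p.natDegree := pow_pos (zero_lt_one.trans hv) _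
    refine Valuation.map_sum_lt _ hpos.ne' fun i hi => ?_
    by_cases h0 : p.eraseLead.coeff i = 0
    · rw [h0, zero_smul, map_zero]
      exact hpos
    · rw [Algebra.smul_def, map_mul, map_pow, v.const _ h0, one_mul]
      have hi2 : i < p.natDegree := by
        have h5 := Polynomial.le_natDegree_of_ne_zero h0
        rcases Polynomial.eraseLead_natDegree_lt_or_eraseLead_eq_zero p with h6 | h6
        · omega
        · rw [h6] at h0
          simp at h0
      exact pow_lt_pow_right₀ hv hi2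
  rw [h2, Valuation.map_add_eq_of_lt_left _ (by rw [h3]; exact h4), h3]

namespace Hyp

variable {x y : K} {f : ℂ[X]} {ι : K ≃ₐ[ℂ] K} (H : Hyp x y f ι)

include H

theorem f_ne : f ≠ 0 := H.sep.ne_zero

theorem y_ne : y ≠ 0 := by
  rintro rfl
  have h := H.eq
  rw [zero_pow two_ne_zero] at h
  exact aeval_ne_zero H.trans H.f_ne h.symm

theorem x_ne : x ≠ 0 := ne_zero_of_transcendental H.trans

theorem fix_aeval (p : ℂ[X]) : ι (Polynomial.aeval x p) = Polynomial.aeval x p := by
  have h := Polynomial.aeval_algHom_apply ι.toAlgHom x p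
  have h2 : ι.toAlgHom x = x := H.inv_x
  rw [h2] at h
  exact h.symm

theorem fix {z : K} (hz : z ∈ ℂ⟮x⟯) : ι z = z := by
  obtain ⟨p, q, -, -, rfl⟩ := (mem_adj_iff H.trans).1 hz
  rw [map_div₀, H.fix_aeval, H.fix_aeval]

theorem y_notMem : y ∉ ℂ⟮x⟯ := by
  intro h
  have h1 := H.fix h
  rw [H.inv_y] at h1
  have h2 : (2 : K) * y = 0 := by linear_combination -h1
  have h3 : (2 : K) ≠ 0 := by
    have : (2 : K) = algebraMap ℂ K 2 := (map_ofNat (algebraMap ℂ K) 2).symm
    rw [this]
    exact (map_ne_zero _).2 two_ne_zero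
  exact (mul_ne_zero h3 H.y_ne) h2

theorem two_ne : (2 : K) ≠ 0 := by
  have : (2 : K) = algebraMap ℂ K 2 := (map_ofNat (algebraMap ℂ K) 2).symm
  rw [this]
  exact (map_ne_zero _).2 two_ne_zero

theorem coeff_zero {a b : K} (ha : a ∈ ℂ⟮x⟯) (hb : b ∈ ℂ⟮x⟯) (h : a + b * y = 0) :
    a = 0 ∧ b = 0 := by
  have hb0 : b = 0 := by
    by_contra hb0
    apply H.y_notMem
    have : y = -a / b := by
      field_simp
      linear_combination h
    rw [this]
    exact div_mem (neg_mem ha) hb
  rw [hb0, zero_mul, add_zero] at h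
  exact ⟨h, hb0⟩

theorem finrank_eq : Module.finrank ℂ⟮x⟯ K = 2 := by
  have hli : LinearIndependent ℂ⟮x⟯ ![(1 : K), y] := by
    rw [LinearIndependent.pair_iff]
    intro s t hst
    have h1 := H.coeff_zero s.2 t.2 (by
      rw [Algebra.smul_def, Algebra.smul_def, mul_one] at hst
      exact hst)
    exact ⟨Subtype.ext h1.1, Subtype.ext h1.2⟩
  have hsp : ⊤ ≤ Submodule.span ℂ⟮x⟯ (Set.range ![(1 : K), y]) := by
    intro z _
    obtain ⟨a, ha, b, hb, rfl⟩ := H.span z
    have h1 : a + b * y = (⟨a, ha⟩ : ℂ⟮x⟯) • (1 : K) + (⟨b, hb⟩ : ℂ⟮x⟯) • y := by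
      rw [Algebra.smul_def, Algebra.smul_def, mul_one]; rfl
    rw [h1]
    refine add_mem (Submodule.smul_mem _ _ (Submodule.subset_span ⟨0, rfl⟩))
      (Submodule.smul_mem _ _ (Submodule.subset_span ⟨1, rfl⟩))
  let b := Module.Basis.mk hli hsp
  rw [Module.finrank_eq_card_basis b, Fintype.card_fin]

theorem degZ_x : degZ x = 2 := by
  rw [degZ_eq H.curve H.trans, H.finrank_eq]
  rfl

theorem degP_x : degP x = 2 := by
  rw [← degZ_eq_degP H.curve, H.degZ_x]

/-- the action of the involution on the points -/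
noncomputable def _root_.Pool.Agent.Helper395.CS.Point.comap (ι : K ≃ₐ[ℂ] K) (v : Point K) :
    Point K where
  val := v.val.comap ι.toRingEquiv.toRingHom
  surj := by
    intro z
    obtain ⟨w, hw⟩ := v.surj z
    refine ⟨ι.symm w, ?_⟩
    change v.val (ι (ι.symm w)) = z
    rw [ι.apply_symm_apply, hw]
  const := by
    intro c hc
    change v.val (ι (algebraMap ℂ K c)) = 1
    rw [ι.commutes, v.const c hc]

end Hyp

theorem Point.comap_val (ι : K ≃ₐ[ℂ] K) (v : Point K) (z : K) : (v.comap ι).val z = v.val (ι z) := rfl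

theorem Point.comap_ord (ι : K ≃ₐ[ℂ] K) (v : Point K) (z : K) : (v.comap ι).ord z = v.ord (ι z) := rfl

/-- the action of the involution on the points, as a bijection -/
noncomputable def pointEquiv (ι : K ≃ₐ[ℂ] K) : Point K ≃ Point K where
  toFun v := v.comap ι
  invFun v := v.comap ι.symm
  left_inv v := by
    ext z
    change v.val (ι (ι.symm z)) = v.val z
    rw [ι.apply_symm_apply]
  right_inv v := by
    ext z
    change v.val (ι.symm (ι z)) = v.val z
    rw [ι.symm_apply_apply]

theorem degP_conj (ι : K ≃ₐ[ℂ] K) (z : K) : degP (ι z) = degP z := by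
  exact finsum_comp_equiv (pointEquiv ι) (f := fun v : Point K => max (-v.ord z) 0)

theorem degP_add_le (hK : IsCurve K) (a b : K) : degP (a + b) ≤ degP a + degP b := by
  have hfin : ∀ z : K, (Function.support fun v : Point K => max (-v.ord z) 0).Finite := by
    intro z
    refine (finite_ord_neg hK z).subset fun v hv => ?_
    rw [Function.mem_support] at hv
    change v.ord z < 0
    omega
  rw [degP, degP, degP, ← finsum_add_distrib (hfin a) (hfin b)]
  refine finsum_le_finsum' (hfin _) (((hfin a).union (hfin b)).subset ?_) ?_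
  · intro v hv
    rw [Function.mem_support] at hv
    by_contra hcon
    simp only [Set.mem_union, Function.mem_support, not_or, not_not] at hcon
    exact hv (by rw [hcon.1, hcon.2, add_zero])
  · intro v
    change max (-v.ord (a + b)) 0 ≤ max (-v.ord a) 0 + max (-v.ord b) 0
    refine max_le ?_ (add_nonneg (le_max_right _ _) (le_max_right _ _))
    rcases eq_or_ne (a + b) 0 with h0 | h0
    · rw [h0, v.ord_zero, neg_zero]
      exact add_nonneg (le_max_right _ _) (le_max_right _ _)
    rcases eq_or_ne a 0 with rfl | ha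
    · rw [zero_add, v.ord_zero]
      simp
    rcases eq_or_ne b 0 with rfl | hb
    · rw [add_zero, v.ord_zero]
      simp
    have h1 := v.val.map_add a b
    rw [v.val_eq_exp h0, v.val_eq_exp ha, v.val_eq_exp hb, le_max_iff, exp_le_exp, exp_le_exp] at h1
    omega

theorem degP_neg (z : K) : degP (-z) = degP z := by
  simp only [degP, Point.ord_neg]

namespace Hyp

variable {x y : K} {f : ℂ[X]} {ι : K ≃ₐ[ℂ] K} (H : Hyp x y f ι)

include H

theorem ord_ne_zero {a : ℂ} (ha : f.eval a = 0) {v : Point K}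
    (hv : v.val (x - algebraMap ℂ K a) < 1) {b : K} (hb : b ∈ ℂ⟮x⟯) (hb0 : b ≠ 0) :
    v.ord (b * y) ≠ 0 := by
  obtain ⟨m, hm⟩ := ord_mem_adj H.trans hv hb hb0
  have hxa : x - algebraMap ℂ K a ≠ 0 := by
    have := aeval_ne_zero H.trans (Polynomial.X_sub_C_ne_zero a)
    simpa using this
  have h1 : 0 < v.ord (x - algebraMap ℂ K a) := (v.val_lt_one_iff hxa).1 hv
  have h2 : 2 * v.ord y = v.ord (x - algebraMap ℂ K a) := by
    have h3 := v.ord_pow y 2
    rw [H.eq, ord_aeval H.trans hv f H.f_ne] at h3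
    have h4 : f.rootMultiplicity a = 1 := by
      apply le_antisymm
      · exact Polynomial.rootMultiplicity_le_one_of_separable H.sep a
      · exact (Polynomial.rootMultiplicity_pos H.f_ne).2 ha
    rw [h4] at h3
    push_cast at h3
    linarith
  rw [v.ord_mul hb0 H.y_ne, hm]
  intro h
  have h5 : (2 * m + 1) * v.ord (x - algebraMap ℂ K a) = 0 := by
    linear_combination 2 * h - h2
  rcases mul_eq_zero.1 h5 with h6 | h6 <;> omega

/-- rational functions of small degree are rational functions of `x` -/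
theorem mem_of_degP {z : K} (hz : 4 * degP z < f.natDegree) : z ∈ ℂ⟮x⟯ := by
  classical
  obtain ⟨a, ha, b, hb, rfl⟩ := H.span z
  rcases eq_or_ne b 0 with rfl | hb0
  · rw [zero_mul, add_zero]
    exact ha
  exfalso
  set z := a + b * y with hzdef
  set ψ := (2 * b) * y with hψ
  have hψ2 : ψ = z + -ι z := by
    rw [hψ, hzdef, map_add, map_mul, H.fix ha, H.fix hb, H.inv_y]
    ring
  have h2b : (2 * b) ≠ 0 := mul_ne_zero H.two_ne hb0
  have h2b' : (2 * b) ∈ ℂ⟮x⟯ := by
    rw [two_mul]
    exact add_mem hb hb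
  have h1 : degP ψ ≤ 2 * degP z := by
    have := degP_add_le H.curve z (-ι z)
    rw [degP_neg, degP_conj, ← hψ2] at this
    linarith
  have h2 : degZ ψ ≤ 2 * degP z := by
    rw [degZ_eq_degP H.curve]; exact h1
  choose pt hpt using fun c : ℂ => exists_point H.curve H.trans c
  have hinj : Function.Injective pt := by
    intro c d hcd
    apply point_injective (hpt c)
    rw [hcd]
    exact hpt d
  set T : Finset (Point K) := f.roots.toFinset.image pt with hT
  have hTcard : T.card = f.natDegree := by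
    rw [hT, Finset.card_image_of_injective _ hinj,
      Multiset.toFinset_card_of_nodup (Polynomial.nodup_roots H.sep),
      ← (IsAlgClosed.splits f).natDegree_eq_card_roots]
  set S : Finset (Point K) := (finite_ord H.curve ψ).toFinset with hS
  have hTS : T ⊆ S := by
    intro v hv
    rw [hT, Finset.mem_image] at hv
    obtain ⟨c, hc, rfl⟩ := hv
    rw [Multiset.mem_toFinset, Polynomial.mem_roots H.f_ne] at hc
    rw [hS, Set.Finite.mem_toFinset]
    exact H.ord_ne_zero hc (hpt c) h2b' h2b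
  have h3 : degZ ψ = ∑ v ∈ S, max (v.ord ψ) 0 := by
    apply finsum_eq_sum_of_support_subset
    intro v hv
    rw [Function.mem_support] at hv
    rw [hS, Set.Finite.coe_toFinset]
    intro h0
    exact hv (by rw [h0]; simp)
  have h4 : degP ψ = ∑ v ∈ S, max (-v.ord ψ) 0 := by
    apply finsum_eq_sum_of_support_subset
    intro v hv
    rw [Function.mem_support] at hv
    rw [hS, Set.Finite.coe_toFinset]
    intro h0
    exact hv (by rw [h0]; simp)
  have h5 : (T.card : ℤ) ≤ degZ ψ + degP ψ := by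
    rw [h3, h4, ← Finset.sum_add_distrib]
    calc (T.card : ℤ) = ∑ v ∈ T, 1 := by simp
      _ ≤ ∑ v ∈ T, (max (v.ord ψ) 0 + max (-v.ord ψ) 0) := by
        refine Finset.sum_le_sum fun v hv => ?_
        have : v.ord ψ ≠ 0 := by
          have := hTS hv
          rw [hS, Set.Finite.mem_toFinset] at this
          exact this
        omega
      _ ≤ ∑ v ∈ S, (max (v.ord ψ) 0 + max (-v.ord ψ) 0) :=
        Finset.sum_le_sum_of_subset_of_nonneg hTS fun v _ _ => by omega
  rw [hTcard] at h5
  omega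

end Hyp

end Pool.Agent.Helper395.CS
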