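import Pool.Agent.Helper395.CS.Genus

open scoped WithZero Matrix Polynomial IntermediateField TensorProduct
open WithZero

set_option linter.unusedSectionVars false

namespace Pool.Agent.Helper395.CS

/-- `f50` as a rational function -/
noncomputable def F50 : RatFunc ℂ := algebraMap ℂ[X] (RatFunc ℂ) f50

/-- the polynomial `Y ^ 2 - (X ^ 50 + 1)` -/
noncomputable def P50 : (RatFunc ℂ)[X] := Polynomial.X ^ 2 - Polynomial.C F50

theorem F50_not_sq (b : RatFunc ℂ) : b ^ 2 ≠ F50 := by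
  intro h
  have h1 : IsIntegral ℂ[X] (b ^ 2) := by
    rw [h]
    exact isIntegral_algebraMap
  obtain ⟨p, rfl⟩ := IsIntegrallyClosed.exists_algebraMap_eq_of_isIntegral_pow (R := ℂ[X])
    (K := RatFunc ℂ) (n := 2) (by norm_num) h1
  rw [← map_pow] at h
  have h2 : p ^ 2 = f50 := IsFractionRing.injective ℂ[X] (RatFunc ℂ) h
  have h3 : IsUnit p := f50_separable.squarefree p (by rw [← h2, pow_two])
  have h4 := Polynomial.natDegree_eq_zero_of_isUnit h3
  have h5 := f50_natDegree
  rw [← h2, Polynomial.natDegree_pow, h4] at h5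
  norm_num at h5

theorem P50_irreducible : Irreducible P50 :=
  X_pow_sub_C_irreducible_of_prime Nat.prime_two fun b => F50_not_sq b

instance P50_fact : Fact (Irreducible P50) := ⟨P50_irreducible⟩

/-- the function field of `y² = x^50 + 1` -/
abbrev K50 : Type := AdjoinRoot P50

/-- the coordinate function `x` -/
noncomputable def x50 : K50 := algebraMap (RatFunc ℂ) K50 RatFunc.X

/-- the coordinate function `y` -/
noncomputable def y50 : K50 := AdjoinRoot.root P50

theorem aeval_x50 (p : ℂ[X]) : Polynomial.aeval x50 p =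
    algebraMap (RatFunc ℂ) K50 (algebraMap ℂ[X] (RatFunc ℂ) p) := by
  have h1 : x50 = algebraMap (RatFunc ℂ) K50 (algebraMap ℂ[X] (RatFunc ℂ) Polynomial.X) := by
    rw [x50, RatFunc.algebraMap_X]
  rw [h1, Polynomial.aeval_algebraMap_apply, Polynomial.aeval_algebraMap_apply,
    Polynomial.aeval_X_left_apply]

theorem y50_sq : y50 ^ 2 = Polynomial.aeval x50 f50 := by
  rw [aeval_x50]
  have h := AdjoinRoot.eval₂_root P50
  rw [P50, Polynomial.eval₂_sub, Polynomial.eval₂_X_pow, Polynomial.eval₂_C, sub_eq_zero] at h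
  exact h

theorem x50_transcendental : Transcendental ℂ x50 := by
  rw [transcendental_iff]
  intro p hp
  rw [aeval_x50] at hp
  rw [← map_zero (algebraMap (RatFunc ℂ) K50)] at hp
  have h1 := (algebraMap (RatFunc ℂ) K50).injective hp
  rw [← map_zero (algebraMap ℂ[X] (RatFunc ℂ))] at h1
  exact IsFractionRing.injective ℂ[X] (RatFunc ℂ) h1

theorem P50_monic : P50.Monic := Polynomial.monic_X_pow_sub_C _ (by norm_num)

instance K50_finite : Module.Finite (RatFunc ℂ) K50 := P50_monic.finite_adjoinRoot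

theorem K50_isCurve : IsCurve K50 where
  fg := by
    rw [IntermediateField.fg_top_iff]
    have h1 : Algebra.EssFiniteType ℂ[X] (RatFunc ℂ) :=
      Algebra.EssFiniteType.of_isLocalization _ (nonZeroDivisors ℂ[X])
    have h2 : Algebra.EssFiniteType ℂ (RatFunc ℂ) := Algebra.EssFiniteType.comp ℂ ℂ[X] (RatFunc ℂ)
    exact Algebra.EssFiniteType.comp ℂ (RatFunc ℂ) K50
  trdeg := by
    have h1 := trdeg_add_eq ℂ (RatFunc ℂ) (A := K50)
    have h2 := trdeg_add_eq ℂ ℂ[X] (A := RatFunc ℂ)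
    have h3 : Algebra.IsAlgebraic (RatFunc ℂ) K50 := Algebra.IsAlgebraic.of_finite _ _
    have h4 : Algebra.IsAlgebraic ℂ[X] (RatFunc ℂ) := IsLocalization.isAlgebraic _ (nonZeroDivisors ℂ[X])
    rw [trdeg_eq_zero (R := RatFunc ℂ), add_zero] at h1
    rw [trdeg_eq_zero (R := ℂ[X]), add_zero] at h2
    rw [← h1, ← h2, Polynomial.trdeg_of_isDomain]

/-- the hyperelliptic involution, over `ℂ(x)` -/
noncomputable def ι50' : K50 →ₐ[RatFunc ℂ] K50 :=
  AdjoinRoot.liftAlgHom P50 (Algebra.ofId (RatFunc ℂ) K50) (-y50) (by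
    change Polynomial.eval₂ _ _ (Polynomial.X ^ 2 - Polynomial.C F50) = 0
    rw [Polynomial.eval₂_sub, Polynomial.eval₂_X_pow, Polynomial.eval₂_C, neg_sq, y50_sq,
      aeval_x50, sub_eq_zero]
    rfl)

theorem ι50'_y : ι50' y50 = -y50 :=
  AdjoinRoot.liftAlgHom_root _ _ _ _

theorem ι50'_comp : ι50'.comp ι50' = AlgHom.id (RatFunc ℂ) K50 := by
  apply AdjoinRoot.algHom_ext
  change ι50' (ι50' y50) = y50
  rw [ι50'_y, map_neg, ι50'_y, neg_neg]

/-- the hyperelliptic involution -/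
noncomputable def ι50 : K50 ≃ₐ[ℂ] K50 :=
  (AlgEquiv.ofAlgHom ι50' ι50' ι50'_comp ι50'_comp).restrictScalars ℂ

theorem algebraMap_mem (a : RatFunc ℂ) : algebraMap (RatFunc ℂ) K50 a ∈ ℂ⟮x50⟯ := by
  rw [← RatFunc.num_div_denom a, map_div₀, ← aeval_x50, ← aeval_x50]
  exact div_mem (mem_adj _) (mem_adj _)

theorem span50 (z : K50) : ∃ a ∈ ℂ⟮x50⟯, ∃ b ∈ ℂ⟮x50⟯, z = a + b * y50 := by
  obtain ⟨p, rfl⟩ := AdjoinRoot.mk_surjective z
  have h1 := Polynomial.modByMonic_add_div p P50
  have hdeg : (p %ₘ P50).natDegree < 2 := by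
    have := Polynomial.natDegree_modByMonic_lt p P50_monic (by
      intro h
      have := congrArg Polynomial.natDegree h
      rw [P50, Polynomial.natDegree_X_pow_sub_C, Polynomial.natDegree_one] at this
      omega)
    rwa [P50, Polynomial.natDegree_X_pow_sub_C] at this
  obtain ⟨a, b, hab⟩ := Polynomial.exists_eq_X_add_C_of_natDegree_le_one (Nat.lt_succ_iff.1 hdeg)
  refine ⟨_, algebraMap_mem b, _, algebraMap_mem a, ?_⟩
  rw [← h1, hab, map_add, map_add, map_mul, map_mul, AdjoinRoot.mk_self, zero_mul, add_zero,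
    AdjoinRoot.mk_X, AdjoinRoot.mk_C, AdjoinRoot.mk_C, add_comm]
  rfl

theorem hyp50 : Hyp x50 y50 f50 ι50 where
  curve := K50_isCurve
  trans := x50_transcendental
  eq := y50_sq
  sep := f50_separable
  span := span50
  inv_x := by
    change ι50' (algebraMap (RatFunc ℂ) K50 RatFunc.X) = _
    rw [AlgHom.commutes]
    rfl
  inv_y := ι50'_y

theorem y50_sq' : y50 ^ 2 = x50 ^ 50 + 1 := by
  rw [y50_sq, f50]
  simp

theorem adjoin50 : IntermediateField.adjoin ℂ {x50, y50} = ⊤ := by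
  rw [eq_top_iff]
  intro z _
  obtain ⟨a, ha, b, hb, rfl⟩ := span50 z
  have h : ℂ⟮x50⟯ ≤ IntermediateField.adjoin ℂ {x50, y50} :=
    IntermediateField.adjoin.mono ℂ _ _ (by simp)
  exact add_mem (h ha) (mul_mem (h hb) (IntermediateField.subset_adjoin ℂ _ (by simp)))

end Pool.Agent.Helper395.CS
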