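import Pool.Agent.Helper395.CS.Stable
import Pool.Agent.Helper395.CS.Model

open scoped WithZero Matrix Polynomial IntermediateField
open WithZero AlgebraicGeometry CategoryTheory

set_option linter.unusedSectionVars false

namespace Pool.Agent.Helper395.CS

variable {K : Type} [Field K] [Algebra ℂ K] {n : ℕ}

/-! ### Isomorphisms of coherent systems -/

theorem IsBundleIso.symm {E F : Bundle K n} {A : GL (Fin n) K} (h : IsBundleIso E F A) :
    IsBundleIso F E A⁻¹ := by
  intro v s
  rw [h v, gl_mulVec_inv]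

theorem IsBundleIso.trans {E F G : Bundle K n} {A B : GL (Fin n) K} (h : IsBundleIso E F A)
    (h' : IsBundleIso F G B) : IsBundleIso E G (B * A) := by
  intro v s
  rw [h v, h' v, Units.val_mul, Matrix.mulVec_mulVec]

theorem map_mul (A B : GL (Fin n) K) (V : Submodule ℂ (Fin n → K)) :
    (V.map ((Matrix.mulVecLin A.1).restrictScalars ℂ)).map
      ((Matrix.mulVecLin B.1).restrictScalars ℂ) =
      V.map ((Matrix.mulVecLin (B * A).1).restrictScalars ℂ) := by
  rw [← Submodule.map_comp]
  congr 1
  refine LinearMap.ext fun s => ?_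
  change B.1 *ᵥ (A.1 *ᵥ s) = (B * A).1 *ᵥ s
  rw [Units.val_mul, Matrix.mulVec_mulVec]

theorem map_inv (A : GL (Fin n) K) (V : Submodule ℂ (Fin n → K)) :
    (V.map ((Matrix.mulVecLin A.1).restrictScalars ℂ)).map
      ((Matrix.mulVecLin A⁻¹.1).restrictScalars ℂ) = V := by
  rw [map_mul, inv_mul_cancel]
  convert Submodule.map_id V
  refine LinearMap.ext fun s => ?_
  change (1 : Matrix (Fin n) (Fin n) K) *ᵥ s = s
  rw [Matrix.one_mulVec]

theorem CoherentSystem.Iso.symm {d : ℤ} {k : ℕ} {S T : CoherentSystem K n d k} (h : S.Iso T) :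
    T.Iso S := by
  obtain ⟨A, hA, hV⟩ := h
  exact ⟨A⁻¹, hA.symm, by rw [← hV, map_inv]⟩

theorem CoherentSystem.Iso.trans {d : ℤ} {k : ℕ} {S T U : CoherentSystem K n d k} (h : S.Iso T)
    (h' : T.Iso U) : S.Iso U := by
  obtain ⟨A, hA, hV⟩ := h
  obtain ⟨B, hB, hW⟩ := h'
  exact ⟨B * A, hA.trans hB, by rw [← hW, ← hV, map_mul]⟩

/-! ### The coherent systems of type `(3, 12, 8)` -/

section systems

variable {x y : K} {f : ℂ[X]} {ι : K ≃ₐ[ℂ] K} (H : Hyp x y f ι) (hf : 48 < f.natDegree)

include H hf in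
/-- any two stable systems are isomorphic -/
theorem iso_of_stable {d : ℤ} (hd : d = 12) (S T : CoherentSystem K 3 d 8) (hS : S.IsStable 12)
    (hT : T.IsStable 12) : S.Iso T := by
  subst hd
  have h1 : S.Iso (stdSystem H) := unique_std H hf S hS
  have h2 : T.Iso (stdSystem H) := unique_std H hf T hT
  exact h1.trans h2.symm

theorem single_mem_stdSpace (x : K) (i : Fin 3) (j : Fin (2 + 1)) (hij : (i : ℕ) ≠ j) :
    Pi.single i (x ^ (j : ℕ)) ∈ stdSpace x := by
  refine ⟨Pi.single i (Pi.single j 1), ?_, ?_⟩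
  · change tr3 _ = 0
    rw [tr3_apply]
    refine Finset.sum_eq_zero fun l _ => ?_
    rcases eq_or_ne l i with rfl | hl
    · rw [Pi.single_eq_same, Pi.single_eq_of_ne]
      intro h
      apply hij
      rw [← h]
    · rw [Pi.single_eq_of_ne hl, Pi.zero_apply]
  · ext l
    rw [psi_std, pev_apply]
    rcases eq_or_ne l i with rfl | hl
    · rw [Pi.single_eq_same, Pi.single_eq_same, Finset.sum_eq_single j]
      · simp
      · intro b _ hb
        rw [Pi.single_eq_of_ne hb, zero_smul]
      · simp
    · rw [Pi.single_eq_of_ne hl, Pi.single_eq_of_ne hl]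
      simp

/-- the standard system is generically generated -/
theorem span_stdSpace {x : K} (hx : x ≠ 0) :
    Submodule.span K (stdSpace x : Set (Fin 3 → K)) = ⊤ := by
  rw [eq_top_iff]
  have key : ∀ i : Fin 3, (Pi.single i 1 : Fin 3 → K) ∈
      Submodule.span K (stdSpace x : Set (Fin 3 → K)) := by
    intro i
    obtain ⟨j, hij⟩ : ∃ j : Fin (2 + 1), (i : ℕ) ≠ j := by
      rcases eq_or_ne (i : ℕ) 0 with h | h
      · exact ⟨1, by rw [h]; simp⟩
      · exact ⟨0, by simpa using h⟩
    have h1 := Submodule.smul_mem _ (x ^ (j : ℕ))⁻¹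
      (Submodule.subset_span (R := K) (single_mem_stdSpace x i j hij))
    rwa [← Pi.single_smul, smul_eq_mul, inv_mul_cancel₀ (pow_ne_zero _ hx)] at h1
  intro s _
  have h2 : s = ∑ i, s i • (Pi.single i 1 : Fin 3 → K) := by
    ext l
    simp [Finset.sum_apply, Pi.single_apply]
  rw [h2]
  exact Submodule.sum_mem _ fun i _ => Submodule.smul_mem _ _ (key i)

include H hf in
/-- there is a stable system -/
theorem exists_stable {d : ℤ} (hd : d = 12) : ∃ S : CoherentSystem K 3 d 8, S.IsStable 12 ∧
    S.bundle = stdBundle H.curve H.x_ne ∧ S.IsGenericallyGenerated := by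
  subst hd
  exact ⟨stdSystem H, std_stable H hf, rfl, span_stdSpace H.x_ne⟩

end systems

section det

variable {x y : K} {ι : K ≃ₐ[ℂ] K} (H : Hyp x y f50 ι)

include H in
theorem det_std : (stdBundle H.curve H.x_ne).det.Iso (lineH H.curve H.x_ne 6) := by
  refine ⟨1, fun v s => ?_⟩
  have h1 : ((stdBundle H.curve H.x_ne).det.frame v : K) = dgen x v 6 := by
    change (((1 : GL (Fin 3) K) * dframe H.x_ne v (fun _ => 2)).1).det = dgen x v 6
    rw [one_mul]
    change (Matrix.diagonal (fun _ : Fin 3 => dgen x v 2)).det = dgen x v 6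
    rw [Matrix.det_diagonal, Fin.prod_univ_three, H.dgen_mul, H.dgen_mul]
  rw [Units.val_one, one_mul]
  change v.val s ≤ v.val ((stdBundle H.curve H.x_ne).det.frame v : K) ↔ v.val s ≤ v.val (dgen x v 6)
  rw [h1]

end det

/-! ### One-point moduli spaces -/

theorem subsingleton_of_closedPoint {X : Scheme.{0}} (str : X ⟶ Spec (CommRingCat.of ℂ))
    [LocallyOfFiniteType str] (x : X) (h : ∀ z : X, IsClosed {z} → z = x) : Subsingleton X := by
  have hJ : JacobsonSpace X := LocallyOfFiniteType.jacobsonSpace str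
  have h1 : closure (closedPoints X) = Set.univ := closure_closedPoints
  have h2 : closedPoints X ⊆ {x} := fun z hz => h z hz
  have h3 : (closedPoints X).Nonempty := by
    rw [Set.nonempty_iff_ne_empty]
    intro h3
    rw [h3, closure_empty] at h1
    have : x ∈ (∅ : Set X) := by rw [h1]; trivial
    exact this
  obtain ⟨z, hz⟩ := h3
  have hzx : z = x := h2 hz
  subst hzx
  have h4 : closedPoints X = {z} := Set.Subset.antisymm h2 (Set.singleton_subset_iff.2 hz)
  have hz' : IsClosed {z} := hz
  rw [h4, hz'.closure_eq] at h1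
  exact ⟨fun a b => by
    have ha : a ∈ ({z} : Set X) := by rw [h1]; trivial
    have hb : b ∈ ({z} : Set X) := by rw [h1]; trivial
    rw [Set.mem_singleton_iff.1 ha, Set.mem_singleton_iff.1 hb]⟩

theorem localDim_eq_zero (X : Scheme.{0}) [Subsingleton X] (x : X) : localDim X x = 0 := by
  have h : ∀ U : Set X, x ∈ U → topologicalKrullDim U = 0 := by
    intro U hU
    have h1 : Nonempty U := ⟨⟨x, hU⟩⟩
    apply le_antisymm
    · exact topologicalKrullDim_zero_of_discreteTopology U
    · rw [topologicalKrullDim]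
      have h2 : Nonempty (TopologicalSpace.IrreducibleCloseds U) :=
        ⟨⟨Set.univ, ⟨Set.univ_nonempty, fun u v _ _ hu hv => by
          obtain ⟨a, -, ha⟩ := hu
          obtain ⟨b, -, hb⟩ := hv
          exact ⟨a, trivial, ha, by rwa [Subsingleton.elim a b]⟩⟩, isClosed_univ⟩⟩
      exact Order.krullDim_nonneg
  rw [localDim]
  apply le_antisymm
  · exact (iInf₂_le_of_le Set.univ isOpen_univ (iInf_le_of_le trivial (h Set.univ trivial).le))
  · exact le_iInf fun U => le_iInf₂ fun _ hU => (h U hU).ge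

/-- a moduli space of systems any two of which are isomorphic is a point -/
theorem ModuliSpace.localDim_eq_zero {k : ℕ} {L : LineBundle K} {α : ℝ} (M : ModuliSpace n k L α)
    (h : ∀ S T : CoherentSystem K n L.degree k, S.IsStable α → T.IsStable α → S.Iso T)
    (S : {S : CoherentSystem K n L.degree k // S.IsStable α ∧ S.bundle.det.Iso L}) :
    localDim M.X (M.pt S) = 0 := by
  have h1 : Subsingleton M.X := by
    have := M.locallyOfFiniteType
    apply subsingleton_of_closedPoint M.str (M.pt S)
    intro z hz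
    obtain ⟨T, rfl⟩ := M.exists_pt z hz
    exact (M.pt_eq_iff T S).2 (h _ _ T.2.1 S.2.1)
  exact Pool.Agent.Helper395.CS.localDim_eq_zero M.X (M.pt S)

/-- conversely, a point is a moduli space of such systems -/
theorem exists_moduliSpace {k : ℕ} {L : LineBundle K} {α : ℝ}
    (h : ∀ S T : CoherentSystem K n L.degree k, S.IsStable α → T.IsStable α → S.Iso T)
    (S : CoherentSystem K n L.degree k) (hS : S.IsStable α) (hS' : S.bundle.det.Iso L) :
    Nonempty (ModuliSpace n k L α) := by
  have hsub : Subsingleton (Spec (CommRingCat.of ℂ)) :=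
    inferInstanceAs (Subsingleton (PrimeSpectrum ℂ))
  obtain ⟨p⟩ : Nonempty (Spec (CommRingCat.of ℂ)) := inferInstanceAs (Nonempty (PrimeSpectrum ℂ))
  have hcl : ∀ q : Spec (CommRingCat.of ℂ), IsClosed {q} := by
    intro q
    have : ({q} : Set (Spec (CommRingCat.of ℂ))) = Set.univ :=
      Set.eq_univ_of_forall fun r => Subsingleton.elim r q
    rw [this]
    exact isClosed_univ
  exact ⟨{
    X := Spec (CommRingCat.of ℂ)
    str := 𝟙 _
    locallyOfFiniteType := inferInstance
    pt := fun _ => p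
    isClosed_pt := fun _ => hcl p
    exists_pt := fun x _ => ⟨⟨S, hS, hS'⟩, Subsingleton.elim _ _⟩
    pt_eq_iff := fun T U => ⟨fun _ => h _ _ T.2.1 U.2.1, fun _ => rfl⟩ }⟩

end Pool.Agent.Helper395.CS
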