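import Pool.Agent.Helper395.CS.Count

open scoped WithZero Polynomial IntermediateField
open WithZero IsDedekindDomain

set_option linter.unusedSectionVars false
set_option linter.style.haveILetI false

namespace Pool.Agent.Helper395.CS

variable {K : Type} [Field K] [Algebra ℂ K]

/-- the data needed to apply the general results to `t` -/
theorem setup (hK : IsCurve K) {t : K} (ht : Transcendental ℂ t) (C : Prop)
    (h : ∀ (_ : Algebra ℂ[X] K) (_ : IsScalarTower ℂ ℂ[X] K) (_ : algebraMap ℂ[X] K Polynomial.X = t)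
      (_ : ∀ p : ℂ[X], algebraMap ℂ[X] K p = Polynomial.aeval t p)
      (_ : Algebra ℂ[X] ℂ⟮t⟯) (_ : IsFractionRing ℂ[X] ℂ⟮t⟯) (_ : IsScalarTower ℂ[X] ℂ⟮t⟯ K)
      (_ : IsDedekindDomain (BB K)) (_ : IsFractionRing (BB K) K) (_ : Module.Finite ℂ[X] (BB K))
      (_ : Module.IsTorsionFree ℂ[X] (BB K)), C) : C := by
  have hfin := hK.finiteDimensional ht
  letI i1 : Algebra ℂ[X] K := (Polynomial.aeval t).toAlgebra
  have hX : algebraMap ℂ[X] K Polynomial.X = t := Polynomial.aeval_X t
  haveI i2 : IsScalarTower ℂ ℂ[X] K := IsScalarTower.of_algebraMap_eq fun c => by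
    change _ = Polynomial.aeval t (Polynomial.C c)
    rw [Polynomial.aeval_C]
  letI i3 : Algebra ℂ[X] ℂ⟮t⟯ :=
    (((RatFunc.algEquivOfTranscendental t ht).toAlgHom.toRingHom).comp
      (algebraMap ℂ[X] (RatFunc ℂ))).toAlgebra
  have hi3 : ∀ p : ℂ[X], algebraMap ℂ[X] ℂ⟮t⟯ p =
      RatFunc.algEquivOfTranscendental t ht (algebraMap ℂ[X] (RatFunc ℂ) p) := fun p => rfl
  haveI i4 : IsFractionRing ℂ[X] ℂ⟮t⟯ := by
    let e : RatFunc ℂ ≃ₐ[ℂ[X]] ℂ⟮t⟯ :=
      AlgEquiv.ofRingEquiv (f := (RatFunc.algEquivOfTranscendental t ht).toRingEquiv) fun p => rfl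
    exact IsLocalization.isLocalization_of_algEquiv (nonZeroDivisors ℂ[X]) e
  haveI i5 : IsScalarTower ℂ[X] ℂ⟮t⟯ K := IsScalarTower.of_algebraMap_eq fun p => by
    rw [hi3, RatFunc.algEquivOfTranscendental_algebraMap]
    change Polynomial.aeval t p = _
    rw [← Polynomial.aeval_algebraMap_apply]
    rfl
  haveI i6 := BB_dedekind (K := K) ℂ⟮t⟯
  haveI i7 := BB_fraction (K := K) ℂ⟮t⟯
  haveI i8 := BB_finite (K := K) ℂ⟮t⟯
  have hinj : Function.Injective (algebraMap ℂ[X] K) := transcendental_iff_injective.1 ht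
  haveI i10 : FaithfulSMul ℂ[X] K := (faithfulSMul_iff_algebraMap_injective _ _).2 hinj
  haveI i9 : Module.IsTorsionFree ℂ[X] (BB K) := inferInstance
  exact h i1 i2 hX (fun p => rfl) i3 i4 i5 i6 i7 i8 i9

theorem ne_zero_of_transcendental {t : K} (ht : Transcendental ℂ t) : t ≠ 0 := by
  rintro rfl
  exact ht isAlgebraic_zero

/-- the number of zeros of a nonconstant rational function -/
theorem zero_count_aux (hK : IsCurve K) {t : K} (ht : Transcendental ℂ t) :
    ∃ S : Finset (Point K), (∀ v, v ∈ S ↔ v.val t < 1) ∧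
      ∑ v ∈ S, v.ord t = Module.finrank ℂ⟮t⟯ K := by
  refine setup hK ht _ ?_
  intro i1 i2 hX _ i3 i4 i5 i6 i7 i8 i9
  have := count_sum (K := K) ℂ⟮t⟯ (by rw [hX]; exact ne_zero_of_transcendental ht)
  rw [hX] at this
  exact this

theorem exists_frac (hK : IsCurve K) {t : K} (ht : Transcendental ℂ t) (v : Point K)
    (hv : v.val t ≤ 1) (z : K) (hz : v.val z ≤ 1) :
    ∃ b s : K, (∀ w : Point K, w.val t ≤ 1 → w.val b ≤ 1) ∧
      (∀ w : Point K, w.val t ≤ 1 → w.val s ≤ 1) ∧ v.val s = 1 ∧ z * s = b := by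
  refine setup hK ht _ ?_
  intro i1 i2 hX _ i3 i4 i5 i6 i7 i8 i9
  rw [← hX] at hv
  obtain ⟨n, d, hnd⟩ := HeightOneSpectrum.exists_primeCompl_mul_eq_of_integer (under v hv) z (by
    rw [under_valuation]; exact hz)
  refine ⟨algebraMap (BB K) K n, algebraMap (BB K) K d, ?_, ?_, ?_, hnd⟩
  · intro w hw
    rw [← hX] at hw
    exact int_mem w hw n
  · intro w hw
    rw [← hX] at hw
    exact int_mem w hw d
  · refine le_antisymm (int_mem v hv d) (not_lt.1 d.2)

theorem exists_residue (hK : IsCurve K) {t : K} (ht : Transcendental ℂ t) (v : Point K)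
    (hv : v.val t ≤ 1) : ∃ a : ℂ, v.val (t - algebraMap ℂ K a) < 1 := by
  refine setup hK ht _ ?_
  intro i1 i2 hX hae i3 i4 i5 i6 i7 i8 i9
  rw [← hX] at hv
  have h1 : (under v hv).asIdeal.under ℂ[X] ≠ ⊥ := Ideal.under_ne_bot _ (under v hv).ne_bot
  have h2 : ((under v hv).asIdeal.under ℂ[X]).IsPrime := (under v hv).isPrime.comap _
  obtain ⟨q, hq⟩ := (IsPrincipalIdealRing.principal ((under v hv).asIdeal.under ℂ[X])).principal
  have hq0 : q ≠ 0 := by
    rintro rfl
    apply h1
    rw [hq]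
    simp
  have hqp : Prime q := by
    rw [hq] at h2
    exact (Ideal.span_singleton_prime hq0).1 h2
  obtain ⟨a, ha⟩ := IsAlgClosed.exists_root q (fun h => by
    have := Polynomial.eq_C_of_degree_eq_zero h
    exact hqp.not_isUnit (by rw [this]; exact Polynomial.isUnit_C.2 (IsUnit.mk0 _ (by
      intro h0; rw [h0, map_zero] at this; exact hq0 this))))
  refine ⟨a, ?_⟩
  have h3 : (Polynomial.X - Polynomial.C a) ∣ q := Polynomial.dvd_iff_isRoot.2 ha
  have h4 : q ∣ (Polynomial.X - Polynomial.C a) :=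
    ((Polynomial.irreducible_X_sub_C a).associated_of_dvd hqp.irreducible h3).symm.dvd
  have h5 : (Polynomial.X - Polynomial.C a) ∈ (under v hv).asIdeal.under ℂ[X] := by
    rw [hq]
    exact Ideal.mem_span_singleton.2 h4
  rw [Ideal.mem_comap, mem_under] at h5
  have h6 : ((algebraMap ℂ[X] (BB K) (Polynomial.X - Polynomial.C a) : BB K) : K) =
      t - algebraMap ℂ K a := by
    change algebraMap (BB K) K (algebraMap ℂ[X] (BB K) (Polynomial.X - Polynomial.C a)) = _
    rw [← IsScalarTower.algebraMap_apply ℂ[X] (BB K) K, hae]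
    simp
  rwa [h6] at h5

/-- elements of `K` which are algebraic over `ℂ` are constant -/
theorem exists_const {z : K} (hz : ¬ Transcendental ℂ z) : ∃ c : ℂ, z = algebraMap ℂ K c := by
  have h1 : IsAlgebraic ℂ z := not_not.1 hz
  have h2 : IsIntegral ℂ z := h1.isIntegral
  have h3 : (minpoly ℂ z).degree = 1 :=
    IsAlgClosed.degree_eq_one_of_irreducible ℂ (minpoly.irreducible h2)
  obtain ⟨c, hc⟩ := minpoly.mem_range_of_degree_eq_one ℂ z h3
  exact ⟨c, hc.symm⟩

theorem finite_ord_pos (hK : IsCurve K) (z : K) : {v : Point K | 0 < v.ord z}.Finite := by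
  by_cases hz : Transcendental ℂ z
  · obtain ⟨S, hS, -⟩ := zero_count_aux hK hz
    refine S.finite_toSet.subset fun v hv => ?_
    rw [Finset.mem_coe, hS, v.val_lt_one_iff (ne_zero_of_transcendental hz)]
    exact hv
  · obtain ⟨c, rfl⟩ := exists_const hz
    convert Set.finite_empty
    ext v
    simp [v.ord_const c]

theorem finite_ord_neg (hK : IsCurve K) (z : K) : {v : Point K | v.ord z < 0}.Finite := by
  refine (finite_ord_pos hK z⁻¹).subset fun v hv => ?_
  rw [Set.mem_ofPred_eq, v.ord_inv]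
  have : v.ord z < 0 := hv
  omega

theorem finite_ord (hK : IsCurve K) (z : K) : {v : Point K | v.ord z ≠ 0}.Finite := by
  refine ((finite_ord_pos hK z).union (finite_ord_neg hK z)).subset fun v hv => ?_
  rcases lt_or_gt_of_ne (show v.ord z ≠ 0 from hv) with h | h
  · exact Or.inr h
  · exact Or.inl h

/-- the degree of the divisor of zeros -/
noncomputable def degZ (z : K) : ℤ := ∑ᶠ v : Point K, max (v.ord z) 0

/-- the degree of the divisor of poles -/
noncomputable def degP (z : K) : ℤ := ∑ᶠ v : Point K, max (-v.ord z) 0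

theorem degZ_inv (z : K) : degZ z⁻¹ = degP z := by
  simp only [degZ, degP, Point.ord_inv]

theorem degZ_eq (hK : IsCurve K) {t : K} (ht : Transcendental ℂ t) :
    degZ t = Module.finrank ℂ⟮t⟯ K := by
  obtain ⟨S, hS, hsum⟩ := zero_count_aux hK ht
  have h0 := ne_zero_of_transcendental ht
  rw [degZ, finsum_eq_sum_of_support_subset (s := S), ← hsum]
  · refine Finset.sum_congr rfl fun v hv => ?_
    rw [hS, v.val_lt_one_iff h0] at hv
    exact max_eq_left hv.le
  · intro v hv
    rw [Finset.mem_coe, hS, v.val_lt_one_iff h0]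
    rw [Function.mem_support] at hv
    by_contra hcon
    exact hv (max_eq_right (not_lt.1 hcon))

theorem transcendental_inv {t : K} (ht : Transcendental ℂ t) : Transcendental ℂ t⁻¹ := by
  intro h
  apply ht
  have := h.inv
  rwa [inv_inv] at this

theorem adjoin_inv (t : K) : ℂ⟮t⁻¹⟯ = ℂ⟮t⟯ := by
  apply le_antisymm
  · rw [IntermediateField.adjoin_simple_le_iff]
    exact inv_mem (IntermediateField.mem_adjoin_simple_self ℂ t)
  · rw [IntermediateField.adjoin_simple_le_iff]
    have := inv_mem (IntermediateField.mem_adjoin_simple_self ℂ t⁻¹)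
    rwa [inv_inv] at this

theorem degZ_eq_degP (hK : IsCurve K) (z : K) : degZ z = degP z := by
  by_cases hz : Transcendental ℂ z
  · rw [← degZ_inv, degZ_eq hK hz, degZ_eq hK (transcendental_inv hz), adjoin_inv]
  · obtain ⟨c, rfl⟩ := exists_const hz
    simp [degZ, degP, Point.ord_const]

theorem sum_ord (hK : IsCurve K) (z : K) : ∑ᶠ v : Point K, v.ord z = 0 := by
  have h1 : ∀ v : Point K, v.ord z = max (v.ord z) 0 - max (-v.ord z) 0 := fun v => by omega
  rw [finsum_congr h1, finsum_sub_distrib]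
  · change degZ z - degP z = 0
    rw [degZ_eq_degP hK, sub_self]
  · refine (finite_ord_pos hK z).subset fun v hv => ?_
    rw [Function.mem_support] at hv
    change 0 < v.ord z
    omega
  · refine (finite_ord_neg hK z).subset fun v hv => ?_
    rw [Function.mem_support] at hv
    change v.ord z < 0
    omega

end Pool.Agent.Helper395.CS
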