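import Pool.Agent.Helper395.CS.Hyp

open scoped WithZero Matrix Polynomial IntermediateField
open WithZero

set_option linter.unusedSectionVars false

namespace Pool.Agent.Helper395.CS

section Elem

variable {K : Type} [Field K] {n r : ℕ}

/-- an elementary change of a family of vectors -/
def elem (w : Fin r → Fin n → K) (j : Fin r) (c : K) (d : Fin r → K) : Fin r → Fin n → K :=
  fun i => if i = j then c • w j else w i - d i • w j

theorem elem_sum (w : Fin r → Fin n → K) (j : Fin r) (c : K) (d : Fin r → K) (q p : Fin r → K)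
    (h1 : ∀ i, i ≠ j → q i = p i) (h2 : c * q j = p j + ∑ i ∈ Finset.univ.erase j, d i * p i) :
    ∑ i, q i • elem w j c d i = ∑ i, p i • w i := by
  rw [← Finset.add_sum_erase _ _ (Finset.mem_univ j), ← Finset.add_sum_erase _ (fun i => p i • w i)
    (Finset.mem_univ j)]
  have h3 : ∑ i ∈ Finset.univ.erase j, q i • elem w j c d i =
      ∑ i ∈ Finset.univ.erase j, p i • w i - (∑ i ∈ Finset.univ.erase j, d i * p i) • w j := by
    rw [Finset.sum_smul, ← Finset.sum_sub_distrib]
    refine Finset.sum_congr rfl fun i hi => ?_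
    have hij := Finset.ne_of_mem_erase hi
    rw [elem, if_neg hij, h1 i hij, smul_sub, smul_smul, mul_comm (p i)]
  rw [h3, elem, if_pos rfl, smul_smul, mul_comm (q j), h2, add_smul]
  abel

theorem elem_li (w : Fin r → Fin n → K) (hw : LinearIndependent K w) (j : Fin r) {c : K}
    (hc : c ≠ 0) (d : Fin r → K) : LinearIndependent K (elem w j c d) := by
  rw [Fintype.linearIndependent_iff] at hw ⊢
  intro q hq
  set p : Fin r → K := fun i => if i = j then c * q j - ∑ i ∈ Finset.univ.erase j, d i * q i else q i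
    with hp
  have h1 : ∀ i, i ≠ j → q i = p i := fun i hi => by simp [hp, hi]
  have h2 : ∑ i ∈ Finset.univ.erase j, d i * p i = ∑ i ∈ Finset.univ.erase j, d i * q i :=
    Finset.sum_congr rfl fun i hi => by rw [h1 i (Finset.ne_of_mem_erase hi)]
  rw [elem_sum w j c d q p h1 (by rw [h2]; simp [hp])] at hq
  have h3 := hw p hq
  have h4 : ∀ i, i ≠ j → q i = 0 := fun i hi => by rw [h1 i hi, h3 i]
  intro i
  rcases eq_or_ne i j with rfl | hi
  · have h5 := h3 i
    rw [hp] at h5
    simp only [if_true] at h5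
    have h6 : ∑ l ∈ Finset.univ.erase i, d l * q l = 0 :=
      Finset.sum_eq_zero fun l hl => by rw [h4 l (Finset.ne_of_mem_erase hl), mul_zero]
    rw [h6, sub_zero] at h5
    exact (mul_eq_zero.1 h5).resolve_left hc
  · exact h4 i hi

theorem elem_mem (w : Fin r → Fin n → K) (j : Fin r) (c : K) (d : Fin r → K)
    (S : Submodule K (Fin n → K)) (hS : ∀ i, w i ∈ S) (i : Fin r) : elem w j c d i ∈ S := by
  rw [elem]
  split_ifs
  · exact S.smul_mem _ (hS j)
  · exact S.sub_mem (hS i) (S.smul_mem _ (hS j))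

end Elem

variable {K : Type} [Field K] [Algebra ℂ K] {n : ℕ} {x : K}

/-- `(w, b)` is a presentation of `V` -/
structure Pres (x : K) (V : Submodule ℂ (Fin n → K)) (r : ℕ) (w : Fin r → Fin n → K)
    (b : Fin r → ℕ) : Prop where
  li : LinearIndependent K w
  mem : ∀ i, w i ∈ Submodule.span K (V : Set (Fin n → K))
  rep : ∀ s ∈ V, ∃ p : Fin r → ℂ[X], (∀ i, (p i).natDegree ≤ b i) ∧
    s = ∑ i, Polynomial.aeval x (p i) • w i

theorem Pres.nondeg {V : Submodule ℂ (Fin n → K)} {r : ℕ} {w : Fin r → Fin n → K}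
    {b : Fin r → ℕ} (h : Pres x V r w b) (μ : Fin r → K)
    (hμ : ∀ p : Fin r → ℂ[X], (∀ i, (p i).natDegree ≤ b i) →
      ∑ i, Polynomial.aeval x (p i) • w i ∈ V → ∑ i, μ i * Polynomial.aeval x (p i) = 0) :
    μ = 0 := by
  -- the subspace of combinations killed by `μ`
  let T : Submodule K (Fin n → K) :=
    { carrier := {s | ∃ c : Fin r → K, s = ∑ i, c i • w i ∧ ∑ i, μ i * c i = 0}
      add_mem' := by
        rintro _ _ ⟨c, rfl, hc⟩ ⟨d, rfl, hd⟩
        refine ⟨c + d, ?_, ?_⟩
        · rw [← Finset.sum_add_distrib]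
          exact Finset.sum_congr rfl fun i _ => by rw [Pi.add_apply, add_smul]
        · simp only [Pi.add_apply, mul_add, Finset.sum_add_distrib, hc, hd, add_zero]
      zero_mem' := ⟨0, by simp, by simp⟩
      smul_mem' := by
        rintro a _ ⟨c, rfl, hc⟩
        refine ⟨a • c, ?_, ?_⟩
        · rw [Finset.smul_sum]
          exact Finset.sum_congr rfl fun i _ => by rw [Pi.smul_apply, smul_eq_mul, mul_smul]
        · have : ∑ i, μ i * (a • c) i = a * ∑ i, μ i * c i := by
            rw [Finset.mul_sum]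
            exact Finset.sum_congr rfl fun i _ => by rw [Pi.smul_apply, smul_eq_mul]; ring
          rw [this, hc, mul_zero] }
  have hVT : Submodule.span K (V : Set (Fin n → K)) ≤ T := by
    rw [Submodule.span_le]
    intro s hs
    obtain ⟨p, hp, rfl⟩ := h.rep s hs
    exact ⟨fun i => Polynomial.aeval x (p i), rfl, hμ p hp hs⟩
  funext i
  obtain ⟨c, hc, hc0⟩ := hVT (h.mem i)
  have h1 : c = Pi.single i 1 := by
    have h2 : ∑ l, (c l - (Pi.single i 1 : Fin r → K) l) • w l = 0 := by
      simp only [sub_smul, Finset.sum_sub_distrib]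
      rw [← hc]
      have : ∑ l, (Pi.single i 1 : Fin r → K) l • w l = w i := by
        rw [Finset.sum_eq_single i]
        · simp
        · intro l _ hl
          simp [Pi.single_eq_of_ne hl]
        · simp
      rw [this, sub_self]
    funext l
    exact sub_eq_zero.1 (Fintype.linearIndependent_iff.1 h.li _ h2 l)
  rw [h1] at hc0
  have : ∑ l, μ l * (Pi.single i 1 : Fin r → K) l = μ i := by
    rw [Finset.sum_eq_single i]
    · simp
    · intro l _ hl
      simp [Pi.single_eq_of_ne hl]
    · simp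
  rw [this] at hc0
  exact hc0

theorem exists_max_support {r : ℕ} (μ : Fin r → ℂ) (hμ : μ ≠ 0) (b : Fin r → ℕ) :
    ∃ j, μ j ≠ 0 ∧ ∀ i, μ i ≠ 0 → b i ≤ b j := by
  classical
  obtain ⟨i0, hi0⟩ := Function.ne_iff.1 hμ
  obtain ⟨j, hj, hmax⟩ := Finset.exists_max_image (Finset.univ.filter fun i => μ i ≠ 0) b
    ⟨i0, by simpa using hi0⟩
  refine ⟨j, (Finset.mem_filter.1 hj).2, fun i hi => hmax i ?_⟩
  simpa using hi

theorem sum_update_lt {r : ℕ} (b : Fin r → ℕ) (j : Fin r) (hj : b j ≠ 0) :
    ∑ i, Function.update b j (b j - 1) i < ∑ i, b i := by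
  apply Finset.sum_lt_sum
  · intro i _
    rcases eq_or_ne i j with rfl | hi
    · simp
    · simp [hi]
  · refine ⟨j, Finset.mem_univ j, ?_⟩
    simp only [Function.update_self]
    omega

theorem Pres.step {V : Submodule ℂ (Fin n → K)} {r : ℕ} {w : Fin r → Fin n → K}
    {b : Fin r → ℕ} (h : Pres x V r w b) (j : Fin r) (hj : b j ≠ 0) (c : K) (hc : c ≠ 0)
    (d : Fin r → K)
    (hq : ∀ p : Fin r → ℂ[X], (∀ i, (p i).natDegree ≤ b i) →
      ∑ i, Polynomial.aeval x (p i) • w i ∈ V → ∃ q : ℂ[X], q.natDegree ≤ b j - 1 ∧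
        c * Polynomial.aeval x q = Polynomial.aeval x (p j) +
          ∑ i ∈ Finset.univ.erase j, d i * Polynomial.aeval x (p i)) :
    ∃ (w' : Fin r → Fin n → K) (b' : Fin r → ℕ), Pres x V r w' b' ∧ ∑ i, b' i < ∑ i, b i := by
  classical
  refine ⟨elem w j c d, Function.update b j (b j - 1), ⟨elem_li w h.li j hc d,
    elem_mem w j c d _ h.mem, ?_⟩, sum_update_lt b j hj⟩
  intro s hs
  obtain ⟨p, hp, rfl⟩ := h.rep s hs
  obtain ⟨q, hq1, hq2⟩ := hq p hp hs
  refine ⟨Function.update p j q, ?_, ?_⟩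
  · intro i
    rcases eq_or_ne i j with rfl | hi
    · simpa using hq1
    · simpa [hi] using hp i
  · symm
    apply elem_sum
    · intro i hi
      simp [hi]
    · simpa using hq2

theorem Pres.reduce_fin {V : Submodule ℂ (Fin n → K)} {r : ℕ} {w : Fin r → Fin n → K}
    {b : Fin r → ℕ} (hx : Transcendental ℂ x) (h : Pres x V r w b) (a : ℂ) (μ : Fin r → ℂ)
    (hμ0 : μ ≠ 0)
    (hμ : ∀ p : Fin r → ℂ[X], (∀ i, (p i).natDegree ≤ b i) →
      ∑ i, Polynomial.aeval x (p i) • w i ∈ V → ∑ i, μ i * (p i).eval a = 0) :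
    ∃ (w' : Fin r → Fin n → K) (b' : Fin r → ℕ), Pres x V r w' b' ∧ ∑ i, b' i < ∑ i, b i := by
  classical
  obtain ⟨j, hj, hmax⟩ := exists_max_support μ hμ0 b
  have hμj : algebraMap ℂ K (μ j) ≠ 0 := (map_ne_zero _).2 hj
  -- the combination of the coordinates
  have hsum : ∀ p : Fin r → ℂ[X], Polynomial.aeval x (∑ i, Polynomial.C (μ i) * p i) =
      ∑ i, algebraMap ℂ K (μ i) * Polynomial.aeval x (p i) := by
    intro p
    rw [map_sum]
    exact Finset.sum_congr rfl fun i _ => by rw [map_mul, Polynomial.aeval_C]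
  have hdeg : ∀ p : Fin r → ℂ[X], (∀ i, (p i).natDegree ≤ b i) →
      (∑ i, Polynomial.C (μ i) * p i).natDegree ≤ b j := by
    intro p hp
    refine Polynomial.natDegree_sum_le_of_forall_le _ _ fun i _ => ?_
    by_cases hi : μ i = 0
    · simp [hi]
    · exact (Polynomial.natDegree_C_mul_le _ _).trans ((hp i).trans (hmax i hi))
  have hroot : ∀ p : Fin r → ℂ[X], (∀ i, (p i).natDegree ≤ b i) →
      ∑ i, Polynomial.aeval x (p i) • w i ∈ V → ∃ q : ℂ[X],
        (∑ i, Polynomial.C (μ i) * p i) = (Polynomial.X - Polynomial.C a) * q := by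
    intro p hp hs
    have h1 : (∑ i, Polynomial.C (μ i) * p i).IsRoot a := by
      rw [Polynomial.IsRoot, Polynomial.eval_finsetSum]
      simpa using hμ p hp hs
    exact Polynomial.dvd_iff_isRoot.2 h1
  by_cases hbj : b j = 0
  · exfalso
    have h2 := h.nondeg (fun i => algebraMap ℂ K (μ i)) (by
      intro p hp hs
      rw [← hsum]
      obtain ⟨q, hq⟩ := hroot p hp hs
      have h3 := hdeg p hp
      rw [hbj, Nat.le_zero] at h3
      rw [hq] at h3
      have hq0 : q = 0 := by
        by_contra hq0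
        rw [Polynomial.natDegree_mul (Polynomial.X_sub_C_ne_zero a) hq0,
          Polynomial.natDegree_X_sub_C] at h3
        omega
      rw [hq, hq0, mul_zero, map_zero])
    exact hμj (congrFun h2 j)
  · have hxa : x - algebraMap ℂ K a ≠ 0 := by
      have := aeval_ne_zero hx (Polynomial.X_sub_C_ne_zero a)
      simpa using this
    refine h.step j hbj ((x - algebraMap ℂ K a) / algebraMap ℂ K (μ j)) (div_ne_zero hxa hμj)
      (fun i => algebraMap ℂ K (μ i) / algebraMap ℂ K (μ j)) ?_
    intro p hp hs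
    obtain ⟨q, hq⟩ := hroot p hp hs
    refine ⟨q, ?_, ?_⟩
    · by_cases hq0 : q = 0
      · simp [hq0]
      have h3 := hdeg p hp
      rw [hq, Polynomial.natDegree_mul (Polynomial.X_sub_C_ne_zero a) hq0,
        Polynomial.natDegree_X_sub_C] at h3
      omega
    · have h4 := congrArg (Polynomial.aeval x) hq
      rw [hsum, map_mul, map_sub, Polynomial.aeval_X, Polynomial.aeval_C,
        ← Finset.add_sum_erase _ _ (Finset.mem_univ j)] at h4
      rw [div_mul_eq_mul_div, ← h4, add_div, mul_div_cancel_left₀ _ hμj, Finset.sum_div]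
      congr 1
      exact Finset.sum_congr rfl fun i _ => by rw [div_mul_eq_mul_div]

theorem Pres.reduce_inf {V : Submodule ℂ (Fin n → K)} {r : ℕ} {w : Fin r → Fin n → K}
    {b : Fin r → ℕ} (h : Pres x V r w b) (μ : Fin r → ℂ)
    (hμ0 : μ ≠ 0)
    (hμ : ∀ p : Fin r → ℂ[X], (∀ i, (p i).natDegree ≤ b i) →
      ∑ i, Polynomial.aeval x (p i) • w i ∈ V → ∑ i, μ i * (p i).coeff (b i) = 0) :
    ∃ (w' : Fin r → Fin n → K) (b' : Fin r → ℕ), Pres x V r w' b' ∧ ∑ i, b' i < ∑ i, b i := by
  classical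
  obtain ⟨j, hj, hmax⟩ := exists_max_support μ hμ0 b
  have hμj : algebraMap ℂ K (μ j) ≠ 0 := (map_ne_zero _).2 hj
  let c : Fin r → ℂ[X] := fun i => Polynomial.C (μ i) * Polynomial.X ^ (b j - b i)
  have hc : ∀ i, Polynomial.aeval x (c i) = algebraMap ℂ K (μ i) * x ^ (b j - b i) := by
    intro i
    simp [c]
  have hsum : ∀ p : Fin r → ℂ[X], Polynomial.aeval x (∑ i, c i * p i) =
      ∑ i, algebraMap ℂ K (μ i) * x ^ (b j - b i) * Polynomial.aeval x (p i) := by
    intro p
    rw [map_sum]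
    exact Finset.sum_congr rfl fun i _ => by rw [map_mul, hc]
  have hdeg : ∀ p : Fin r → ℂ[X], (∀ i, (p i).natDegree ≤ b i) →
      (∑ i, c i * p i).natDegree ≤ b j := by
    intro p hp
    refine Polynomial.natDegree_sum_le_of_forall_le _ _ fun i _ => ?_
    by_cases hi : μ i = 0
    · simp [c, hi]
    · have h1 := hmax i hi
      have h2 := hp i
      calc (c i * p i).natDegree ≤ (c i).natDegree + (p i).natDegree := Polynomial.natDegree_mul_le
        _ ≤ (b j - b i) + b i := add_le_add (Polynomial.natDegree_C_mul_X_pow_le _ _) h2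
        _ = b j := by omega
  have hcoeff : ∀ p : Fin r → ℂ[X], (∀ i, (p i).natDegree ≤ b i) →
      ∑ i, Polynomial.aeval x (p i) • w i ∈ V → (∑ i, c i * p i).coeff (b j) = 0 := by
    intro p hp hs
    rw [Polynomial.finsetSum_coeff, ← hμ p hp hs]
    refine Finset.sum_congr rfl fun i _ => ?_
    by_cases hi : μ i = 0
    · simp [c, hi]
    · have h1 := hmax i hi
      have h2 : b j = b i + (b j - b i) := by omega
      change (Polynomial.C (μ i) * Polynomial.X ^ (b j - b i) * p i).coeff (b j) = _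
      rw [mul_assoc, Polynomial.coeff_C_mul]
      congr 1
      conv_lhs => rw [h2]
      rw [mul_comm]
      simp [Polynomial.coeff_mul_X_pow]
  have hcj : Polynomial.aeval x (c j) = algebraMap ℂ K (μ j) := by
    rw [hc]; simp
  by_cases hbj : b j = 0
  · exfalso
    have h2 := h.nondeg (fun i => algebraMap ℂ K (μ i) * x ^ (b j - b i)) (by
      intro p hp hs
      rw [← hsum]
      have h3 := hdeg p hp
      rw [hbj, Nat.le_zero] at h3
      have h4 := hcoeff p hp hs
      rw [hbj] at h4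
      rw [Polynomial.eq_C_of_natDegree_eq_zero h3, h4, map_zero, map_zero])
    have h5 := congrFun h2 j
    simp only [tsub_self, pow_zero, mul_one, Pi.zero_apply] at h5
    exact hμj h5
  · refine h.step j hbj 1 one_ne_zero
      (fun i => algebraMap ℂ K (μ i) * x ^ (b j - b i) / algebraMap ℂ K (μ j)) ?_
    intro p hp hs
    refine ⟨Polynomial.C (μ j)⁻¹ * ∑ i, c i * p i, ?_, ?_⟩
    · refine (Polynomial.natDegree_C_mul_le _ _).trans ?_
      have h3 := hdeg p hp
      have h4 := hcoeff p hp hs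
      rcases h3.lt_or_eq with h5 | h5
      · omega
      · have h6 : (∑ i, c i * p i).leadingCoeff = 0 := by
          rw [Polynomial.leadingCoeff, h5, h4]
        rw [Polynomial.leadingCoeff_eq_zero.1 h6]
        simp
    · rw [one_mul, map_mul, hsum, Polynomial.aeval_C, map_inv₀,
        ← Finset.add_sum_erase _ _ (Finset.mem_univ j), mul_add]
      congr 1
      · rw [tsub_self, pow_zero, mul_one, ← mul_assoc, inv_mul_cancel₀ hμj, one_mul]
      · rw [Finset.mul_sum]
        refine Finset.sum_congr rfl fun i _ => ?_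
        rw [div_mul_eq_mul_div, div_eq_inv_mul]

/-! ### the local statement -/

theorem val_det_eq_one (v : Point K) {r : ℕ} (M : Matrix (Fin r) (Fin r) K)
    (h1 : ∀ i, v.val (M i i - 1) < 1) (h2 : ∀ i j, i ≠ j → v.val (M i j) < 1) :
    v.RegM M ∧ v.val M.det = 1 := by
  classical
  have h3 : ∀ i, v.val (M i i) = 1 := by
    intro i
    have : M i i = 1 + (M i i - 1) := by ring
    rw [this, Valuation.map_one_add_of_lt _ (h1 i)]
  have h4 : v.RegM M := by
    intro i j
    rcases eq_or_ne i j with rfl | hij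
    · exact (h3 i).le
    · exact (h2 i j hij).le
  refine ⟨h4, ?_⟩
  rw [Matrix.det_apply, ← Finset.add_sum_erase _ _ (Finset.mem_univ (1 : Equiv.Perm (Fin r)))]
  have h5 : v.val (Equiv.Perm.sign (1 : Equiv.Perm (Fin r)) • ∏ i, M ((1 : Equiv.Perm (Fin r)) i) i)
      = 1 := by
    rw [Equiv.Perm.sign_one, one_smul, map_prod]
    exact Finset.prod_eq_one fun i _ => h3 i
  rw [Valuation.map_add_eq_of_lt_left, h5]
  rw [h5]
  refine Valuation.map_sum_lt _ one_ne_zero fun σ hσ => ?_
  have hσ1 : σ ≠ 1 := Finset.ne_of_mem_erase hσ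
  obtain ⟨i, hi⟩ : ∃ i, σ i ≠ i := by
    by_contra hcon
    push Not at hcon
    exact hσ1 (Equiv.ext hcon)
  rw [Units.smul_def, zsmul_eq_mul, map_mul, map_prod, ← Finset.mul_prod_erase _ _ (Finset.mem_univ i)]
  have h6 : v.val ((Equiv.Perm.sign σ : ℤ) : K) ≤ 1 := by
    have := v.const_le ((Equiv.Perm.sign σ : ℤ) : ℂ)
    simpa using this
  refine (mul_le_of_le_one_left' h6).trans_lt ?_
  refine (mul_le_of_le_one_right' (Finset.prod_le_one' fun l _ => h4 _ _)).trans_lt (h2 _ _ hi)

theorem mem_stalk_of_approx (E : Bundle K n) (v : Point K) {r : ℕ} (M : Matrix (Fin r) (Fin r) K)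
    (h1 : ∀ i, v.val (M i i - 1) < 1) (h2 : ∀ i j, i ≠ j → v.val (M i j) < 1)
    (w : Fin r → Fin n → K) (hw : ∀ j, ∑ i, M j i • w i ∈ E.stalk v) (l : Fin r) :
    w l ∈ E.stalk v := by
  obtain ⟨h3, h4⟩ := val_det_eq_one v M h1 h2
  have hdet : M.det ≠ 0 := by
    rintro h0
    rw [h0, map_zero] at h4
    exact zero_ne_one h4
  set G : GL (Fin r) K := Matrix.GeneralLinearGroup.mkOfDetNeZero M hdet with hG
  have hG1 : G.1 = M := rfl
  have h5 : v.RegM G⁻¹.1 := Point.RegM.inv (by rw [hG1]; exact h3) (by rw [hG1]; exact h4)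
  have h6 := stalk_smul_add E v (G⁻¹.1 l) (h5 l) (fun j => ∑ i, M j i • w i) hw
  have h7 : ∑ j, G⁻¹.1 l j • ∑ i, M j i • w i = w l := by
    simp only [Finset.smul_sum, smul_smul]
    rw [Finset.sum_comm]
    simp only [← Finset.sum_smul]
    have h8 : ∀ i, ∑ j, G⁻¹.1 l j * M j i = (1 : Matrix (Fin r) (Fin r) K) l i := by
      intro i
      rw [← Matrix.mul_apply, ← hG1, ← Units.val_mul, inv_mul_cancel, Units.val_one]
    simp only [h8, Matrix.one_apply, ite_smul, one_smul, zero_smul]
    simp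
  rw [← h7]
  exact h6

/-- the space of polynomial vectors in a presentation -/
def Pres.space (x : K) (V : Submodule ℂ (Fin n → K)) {r : ℕ} (w : Fin r → Fin n → K)
    (b : Fin r → ℕ) : Submodule ℂ (Fin r → ℂ[X]) where
  carrier := {p | (∀ i, (p i).natDegree ≤ b i) ∧ ∑ i, Polynomial.aeval x (p i) • w i ∈ V}
  add_mem' := by
    rintro p q ⟨hp, hp'⟩ ⟨hq, hq'⟩
    refine ⟨fun i => (Polynomial.natDegree_add_le _ _).trans (max_le (hp i) (hq i)), ?_⟩
    have : ∑ i, Polynomial.aeval x ((p + q) i) • w i =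
        ∑ i, Polynomial.aeval x (p i) • w i + ∑ i, Polynomial.aeval x (q i) • w i := by
      rw [← Finset.sum_add_distrib]
      exact Finset.sum_congr rfl fun i _ => by rw [Pi.add_apply, map_add, add_smul]
    rw [this]
    exact add_mem hp' hq'
  zero_mem' := ⟨fun i => by simp, by simp⟩
  smul_mem' := by
    rintro c p ⟨hp, hp'⟩
    refine ⟨fun i => (Polynomial.natDegree_smul_le _ _).trans (hp i), ?_⟩
    have : ∑ i, Polynomial.aeval x ((c • p) i) • w i =
        c • ∑ i, Polynomial.aeval x (p i) • w i := by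
      rw [Finset.smul_sum]
      exact Finset.sum_congr rfl fun i _ => by rw [Pi.smul_apply, map_smul, smul_assoc]
    rw [this]
    exact V.smul_mem c hp'

theorem exists_dual {r : ℕ} (P : Submodule ℂ (Fin r → ℂ[X])) (φ : (Fin r → ℂ[X]) →ₗ[ℂ] (Fin r → ℂ))
    (h : ∀ μ : Fin r → ℂ, (∀ p ∈ P, ∑ i, μ i * φ p i = 0) → μ = 0) (c : Fin r → ℂ) :
    ∃ p ∈ P, φ p = c := by
  by_contra hcon
  have hlt : P.map φ < ⊤ := by
    rw [lt_top_iff_ne_top]
    intro htop
    apply hcon
    have : c ∈ P.map φ := by rw [htop]; trivial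
    obtain ⟨p, hp, hpc⟩ := this
    exact ⟨p, hp, hpc⟩
  obtain ⟨f, hf, hle⟩ := Submodule.exists_le_ker_of_lt_top _ hlt
  apply hf
  have h1 : ∀ c, f c = ∑ i, f (Pi.single i 1) * c i := by
    intro c
    conv_lhs => rw [← Finset.univ_sum_single c]
    rw [map_sum]
    refine Finset.sum_congr rfl fun i _ => ?_
    have : (Pi.single i (c i) : Fin r → ℂ) = c i • Pi.single i 1 := by
      rw [← Pi.single_smul, smul_eq_mul, mul_one]
    rw [this, map_smul, smul_eq_mul, mul_comm]
  have h2 := h (fun i => f (Pi.single i 1)) (fun p hp => by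
    rw [← h1]
    exact hle ⟨p, hp, rfl⟩)
  ext c
  rw [LinearMap.comp_apply, LinearMap.comp_apply]
  exact congrFun h2 c

/-- a reduced presentation -/
theorem Pres.exists_reduced (hK : IsCurve K) (hx : Transcendental ℂ x)
    {V : Submodule ℂ (Fin n → K)} {r : ℕ} {w : Fin r → Fin n → K} {b : Fin r → ℕ}
    (h : Pres x V r w b) : ∃ (w' : Fin r → Fin n → K) (b' : Fin r → ℕ), Pres x V r w' b' ∧
      ∀ E : Bundle K n, V ≤ E.sections →
        (∀ v : Point K, v.val x ≤ 1 → ∀ i, w' i ∈ E.stalk v) ∧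
        (∀ v : Point K, 1 < v.val x → ∀ i, x ^ b' i • w' i ∈ E.stalk v) := by
  classical
  have hex : ∃ N, ∃ (w : Fin r → Fin n → K) (b : Fin r → ℕ), Pres x V r w b ∧ ∑ i, b i = N :=
    ⟨_, w, b, h, rfl⟩
  obtain ⟨w', b', h', hN⟩ := Nat.find_spec hex
  have hmin : ¬ ∃ (w'' : Fin r → Fin n → K) (b'' : Fin r → ℕ), Pres x V r w'' b'' ∧
      ∑ i, b'' i < ∑ i, b' i := by
    rintro ⟨w'', b'', h'', hlt⟩
    rw [hN] at hlt
    exact Nat.find_min hex hlt ⟨w'', b'', h'', rfl⟩
  refine ⟨w', b', h', fun E hE => ⟨?_, ?_⟩⟩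
  · intro v hv l
    obtain ⟨a, ha⟩ := exists_residue hK hx v hv
    have hsurj := exists_dual (Pres.space x V w' b')
      (LinearMap.pi fun i => (Polynomial.leval a).comp (LinearMap.proj i)) (by
        intro μ hμ
        by_contra hμ0
        exact hmin (h'.reduce_fin hx a μ hμ0 fun p hp hs => hμ p ⟨hp, hs⟩))
    choose p hp hpc using fun j : Fin r => hsurj (Pi.single j 1)
    refine mem_stalk_of_approx E v (fun j i => Polynomial.aeval x (p j i)) ?_ ?_ w'
      (fun j => hE (hp j).2 v) l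
    · intro i
      have h1 := aeval_sub_lt ha (p i i)
      have h2 : (p i i).eval a = 1 := by
        have := congrFun (hpc i) i
        simpa using this
      rwa [h2, map_one] at h1
    · intro j i hji
      rw [aeval_lt_iff ha]
      have := congrFun (hpc j) i
      simpa [Pi.single_eq_of_ne (Ne.symm hji)] using this
  · intro v hv l
    have hsurj := exists_dual (Pres.space x V w' b')
      (LinearMap.pi fun i => (Polynomial.lcoeff ℂ (b' i)).comp (LinearMap.proj i)) (by
        intro μ hμ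
        by_contra hμ0
        exact hmin (h'.reduce_inf μ hμ0 fun p hp hs => hμ p ⟨hp, hs⟩))
    choose p hp hpc using fun j : Fin r => hsurj (Pi.single j 1)
    have hx0 : x ≠ 0 := ne_zero_of_transcendental hx
    have hvx0 : (0 : ℤᵐ⁰) < v.val x := zero_lt_one.trans hv
    -- a polynomial of degree < N is small compared with x ^ N
    have hsmall : ∀ (q : ℂ[X]) (N : ℕ), q.natDegree ≤ N → q.coeff N = 0 →
        v.val (Polynomial.aeval x q / x ^ N) < 1 := by
      intro q N hqN hq0
      rcases eq_or_ne q 0 with rfl | hq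
      · simp
      rw [map_div₀, map_pow, val_aeval_inf hv q hq, div_lt_one₀ (pow_pos hvx0 _)]
      apply pow_lt_pow_right₀ hv
      rcases hqN.lt_or_eq with h5 | h5
      · exact h5
      · exfalso
        rw [← h5] at hq0
        exact hq (Polynomial.leadingCoeff_eq_zero.1 hq0)
    refine mem_stalk_of_approx E v (fun j i => Polynomial.aeval x (p j i) / x ^ b' i) ?_ ?_
      (fun i => x ^ b' i • w' i) (fun j => ?_) l
    · intro i
      have h2 : (p i i).coeff (b' i) = 1 := by
        have := congrFun (hpc i) i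
        simpa using this
      have h3 := hsmall (p i i - Polynomial.X ^ b' i) (b' i)
        ((Polynomial.natDegree_sub_le _ _).trans (max_le ((hp i).1 i)
          (Polynomial.natDegree_X_pow_le _))) (by
          rw [Polynomial.coeff_sub, h2, Polynomial.coeff_X_pow_self, sub_self])
      have h4 : Polynomial.aeval x (p i i - Polynomial.X ^ b' i) / x ^ b' i =
          Polynomial.aeval x (p i i) / x ^ b' i - 1 := by
        rw [map_sub, map_pow, Polynomial.aeval_X, sub_div, div_self (pow_ne_zero _ hx0)]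
      rwa [h4] at h3
    · intro j i hji
      apply hsmall _ _ ((hp j).1 i)
      have := congrFun (hpc j) i
      simpa [Pi.single_eq_of_ne (Ne.symm hji)] using this
    · have h5 : ∑ i, (Polynomial.aeval x (p j i) / x ^ b' i) • x ^ b' i • w' i =
          ∑ i, Polynomial.aeval x (p j i) • w' i := by
        refine Finset.sum_congr rfl fun i _ => ?_
        rw [smul_smul, div_mul_cancel₀ _ (pow_ne_zero _ hx0)]
      rw [h5]
      exact hE (hp j).2 v

end Pool.Agent.Helper395.CS
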