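import Pool.Agent.Helper395.CS.Std

open scoped WithZero Matrix Polynomial IntermediateField
open WithZero

set_option linter.unusedSectionVars false

namespace Pool.Agent.Helper395.CS

variable {K : Type} [Field K] [Algebra ℂ K] {n : ℕ} {x : K}

section stable

variable {y : K} {f : ℂ[X]} {ι : K ≃ₐ[ℂ] K} (H : Hyp x y f ι) (hf : 48 < f.natDegree)

include H

theorem exists_inf : ∃ v : Point K, 1 < v.val x := by
  by_contra hcon
  push Not at hcon
  have h1 : degP x = 0 := by
    rw [degP]
    apply finsum_eq_zero_of_forall_eq_zero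
    intro v
    have := (v.val_le_one_iff H.x_ne).1 (hcon v)
    exact max_eq_right (by omega)
  rw [H.degP_x] at h1
  norm_num at h1

include hf

/-- sections of `O(bH)` are polynomials -/
theorem poly_of_le {z : K} {b : ℕ} (hb : b ≤ 6)
    (hz : ∀ v : Point K, v.val z ≤ v.val (dgen x v b)) :
    ∃ p : ℂ[X], p.natDegree ≤ b ∧ z = Polynomial.aeval x p := by
  rcases eq_or_ne z 0 with rfl | hz0
  · exact ⟨0, by simp, by simp⟩
  have h1 : degP z ≤ 2 * b := by
    have h2 : degP z ≤ ∑ᶠ v : Point K, (b : ℤ) * max (-v.ord x) 0 := by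
      rw [degP]
      refine finsum_le_finsum' ?_ ?_ ?_
      · refine (finite_ord_neg H.curve z).subset fun v hv => ?_
        rw [Function.mem_support] at hv
        change v.ord z < 0
        omega
      · refine (finite_ord_neg H.curve x).subset fun v hv => ?_
        rw [Function.mem_support] at hv
        change v.ord x < 0
        by_contra hcon
        apply hv
        rw [max_eq_right (by omega), mul_zero]
      · intro v
        change max (-v.ord z) 0 ≤ (b : ℤ) * max (-v.ord x) 0
        rw [← ord_dgen H.x_ne]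
        have h3 := (v.val_le_val_iff hz0 (dgen_ne H.x_ne v b)).1 (hz v)
        refine max_le (by omega) ?_
        rw [ord_dgen H.x_ne]
        positivity
    rw [← mul_finsum] at h2
    change degP z ≤ (b : ℤ) * degP x at h2
    rw [H.degP_x] at h2
    linarith
  have h4 : z ∈ ℂ⟮x⟯ := by
    apply H.mem_of_degP
    omega
  obtain ⟨p, rfl⟩ := poly_of_regular H.curve H.trans h4 (fun v hv => by
    have := hz v
    rwa [dgen_fin hv, map_one] at this)
  refine ⟨p, ?_, rfl⟩
  obtain ⟨v, hv⟩ := exists_inf H
  have h5 := hz v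
  have hp0 : p ≠ 0 := by
    rintro rfl
    simp at hz0
  rw [val_aeval_inf hv p hp0, dgen_inf hv, map_pow] at h5
  exact (pow_le_pow_iff_right₀ hv).1 h5

omit hf in
theorem sub_degree {m : ℕ} (F : Bundle K m) (j : (Fin m → K) →ₗ[K] (Fin 3 → K))
    (hF : IsSubbundle F (stdBundle H.curve H.x_ne) j) : F.degree ≤ 4 * m := by
  have hJ : Function.Injective (LinearMap.toMatrix' j).mulVec := by
    intro a b hab
    apply hF.injective
    rw [← LinearMap.toMatrix'_mulVec j a, ← LinearMap.toMatrix'_mulVec j b]
    exact hab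
  obtain ⟨e, he⟩ := exists_minor _ hJ
  have h1 := (degree_compare H.curve (F := F)
    (E := gBundle H.curve H.x_ne (1 : GL (Fin m) K) (fun _ => 2))
    (A := Matrix.GeneralLinearGroup.mkOfDetNeZero _ he) (by
      intro v s hs
      rw [mem_gBundle_iff]
      intro i
      rw [inv_one, Units.val_one, Matrix.one_mulVec]
      have h2 := (hF.stalk v s).1 hs
      rw [mem_stdBundle] at h2
      have h3 := h2 (e i)
      rw [← LinearMap.toMatrix'_mulVec j s] at h3
      exact h3)).1
  rw [gBundle_degree, H.degP_x] at h1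
  simp only [Finset.sum_const, Finset.card_univ, Fintype.card_fin, smul_eq_mul] at h1
  push_cast at h1
  linarith

theorem sub_finrank {m : ℕ} (hm : 0 < m) (T : Submodule ℂ (Fin 3 → K)) (hT : T ≤ stdSpace x)
    (j : (Fin m → K) →ₗ[K] (Fin 3 → K)) (hTj : ∀ s ∈ T, s ∈ LinearMap.range j) :
    Module.finrank ℂ T ≤ 3 * m - 1 := by
  classical
  have hstdfin : FiniteDimensional ℂ (stdSpace x) :=
    Module.finite_of_finrank_pos (by rw [stdSpace_finrank H.trans]; norm_num)
  have hTfin : FiniteDimensional ℂ T := Submodule.finiteDimensional_of_le hT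
  have hTsec : T ≤ (stdBundle H.curve H.x_ne).sections :=
    hT.trans (stdSystem H).le_sections
  obtain ⟨r, w0, b0, hP0⟩ := exists_pres H.trans T (by
    intro s hs i
    obtain ⟨c, -, rfl⟩ := hT hs
    rw [psi_std, pev_eq_aeval]
    exact mem_adj _)
  obtain ⟨w, b, hP, hloc⟩ := hP0.exists_reduced H.curve H.trans
  obtain ⟨h1, h2⟩ := hloc _ hTsec
  -- the coordinates of `w i` are polynomials of degree at most `2 - b i`
  have hw : ∀ i l, ∃ p : ℂ[X], w i l = Polynomial.aeval x p ∧ (p ≠ 0 → p.natDegree + b i ≤ 2) := by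
    intro i l
    obtain ⟨p, -, hp⟩ := poly_of_le H hf (b := 2) (by norm_num) (z := w i l) (by
      intro v
      by_cases hv : v.val x ≤ 1
      · exact (mem_stdBundle _ _ _ _).1 (h1 v hv i) l
      · have h3 := (mem_stdBundle _ _ _ _).1 (h2 v (not_le.1 hv) i) l
        refine le_trans ?_ h3
        rw [Pi.smul_apply, smul_eq_mul, map_mul, map_pow]
        exact le_mul_of_one_le_left' (one_le_pow_of_one_le' (not_le.1 hv).le _))
    refine ⟨p, hp, fun hp0 => ?_⟩
    obtain ⟨v, hv⟩ := exists_inf H
    have h3 := (mem_stdBundle _ _ _ _).1 (h2 v hv i) l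
    rw [Pi.smul_apply, smul_eq_mul, map_mul, map_pow, hp, val_aeval_inf hv p hp0, dgen_inf hv,
      map_pow, ← pow_add, pow_le_pow_iff_right₀ hv] at h3
    omega
  choose p hp hpdeg using hw
  have hb : ∀ i, b i ≤ 2 := by
    intro i
    obtain ⟨l, hl⟩ := Function.ne_iff.1 (hP.li.ne_zero i)
    have : p i l ≠ 0 := by
      intro h0
      apply hl
      rw [hp, h0, map_zero]
      rfl
    have := hpdeg i l this
    omega
  have hr : r ≤ m := by
    have h3 : Submodule.span K (Set.range w) ≤ LinearMap.range j := by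
      rw [Submodule.span_le]
      rintro _ ⟨i, rfl⟩
      have h4 : Submodule.span K (T : Set (Fin 3 → K)) ≤ LinearMap.range j := by
        rw [Submodule.span_le]
        exact hTj
      exact h4 (hP.mem i)
    have h5 := Submodule.finrank_mono h3
    have h6 := LinearMap.finrank_range_le j
    rw [finrank_span_eq_card hP.li] at h5
    simp at h5 h6
    omega
  have hdim : Module.finrank ℂ T ≤ ∑ i, b i + r := by
    rw [← hP.finrank_coeffSpace H.trans, ← finrank_psi b]
    exact Submodule.finrank_le _
  have hsum : ∑ i, b i ≤ 2 * r := by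
    calc ∑ i, b i ≤ ∑ _i : Fin r, 2 := Finset.sum_le_sum fun i _ => hb i
      _ = 2 * r := by simp [mul_comm]
  by_contra hcon
  have hrm : r = m := by omega
  have hsum2 : ∑ i, b i = 2 * r := by omega
  have hb2 : ∀ i, b i = 2 := by
    intro i
    have h7 : ∑ i, b i = ∑ _i : Fin r, 2 := by simp [hsum2, mul_comm]
    exact (Finset.sum_eq_sum_iff_of_le (fun i _ => hb i)).1 h7 i (Finset.mem_univ i)
  have hQtop : Pres.coeffSpace x T w b = ⊤ := by
    apply Submodule.eq_top_of_finrank_eq
    rw [hP.finrank_coeffSpace H.trans, finrank_psi b]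
    omega
  -- a constant vector
  let i0 : Fin r := ⟨0, by omega⟩
  obtain ⟨l, hl⟩ := Function.ne_iff.1 (hP.li.ne_zero i0)
  have hconst : ∀ l, p i0 l = Polynomial.C ((p i0 l).coeff 0) := by
    intro l
    by_cases h0 : p i0 l = 0
    · simp [h0]
    · apply Polynomial.eq_C_of_natDegree_eq_zero
      have := hpdeg i0 l h0
      rw [hb2] at this
      omega
  have hwc : ∀ l, w i0 l = algebraMap ℂ K ((p i0 l).coeff 0) := by
    intro l
    rw [hp, hconst l, Polynomial.aeval_C, Polynomial.coeff_C_zero]
  have hb' : b = fun _ => 2 := funext hb2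
  subst hb'
  have hmem : x ^ (l : ℕ) • w i0 ∈ T := by
    have h8 : (fun (i : Fin r) (j : Fin (2 + 1)) => if i = i0 ∧ j = l then (1 : ℂ) else 0) ∈
        Pres.coeffSpace x T w (fun _ => 2) := by
      rw [hQtop]; trivial
    change psi x w (fun _ => 2) _ ∈ T at h8
    convert h8 using 1
    rw [psi_apply, Finset.sum_eq_single i0]
    · congr 1
      rw [pev_apply, Finset.sum_eq_single l]
      · simp
      · intro j _ hj
        simp [hj]
      · simp
    · intro i _ hi
      have : pev x (2 + 1) (fun j => if i = i0 ∧ j = l then (1 : ℂ) else 0) = 0 := by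
        rw [pev_apply]
        exact Finset.sum_eq_zero fun j _ => by simp [hi]
      rw [this, zero_smul]
    · simp
  obtain ⟨c, hc, hceq⟩ := hT hmem
  have h9 : psi x (stdVec K) (fun _ => 2) c = psi x (stdVec K) (fun _ => 2)
      (fun i j => if j = l then (p i0 i).coeff 0 else 0) := by
    rw [hceq]
    ext i
    rw [psi_std, Pi.smul_apply, smul_eq_mul, hwc, pev_apply, Finset.sum_eq_single l]
    · simp [Algebra.smul_def, mul_comm]
    · intro j _ hj
      simp [hj]
    · simp
  have h10 := psi_injective H.trans stdVec_li _ h9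
  have h11 : tr3 c = 0 := hc
  rw [h10, tr3_apply] at h11
  have h12 : ∑ i : Fin 3, (if i = l then (p i0 i).coeff 0 else (0 : ℂ)) = (p i0 l).coeff 0 := by
    simp
  have h13 : (p i0 l).coeff 0 = 0 := by
    rw [← h12]
    exact h11
  apply hl
  rw [hwc, h13, map_zero]
  rfl

theorem std_stable : (stdSystem H).IsStable 12 := by
  intro m F j W hm hF hWF hWmap hne
  have h1 := sub_degree H F j hF
  have hm3 : m ≤ 3 := by
    have := LinearMap.finrank_le_finrank_of_injective hF.injective
    simpa using this
  have hinj : Function.Injective (j.restrictScalars ℂ) := hF.injective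
  have hfin : Module.finrank ℂ W = Module.finrank ℂ (W.map (j.restrictScalars ℂ)) :=
    LinearEquiv.finrank_eq (Submodule.equivMapOfInjective _ hinj W)
  have hmpos : (0 : ℝ) < m := by exact_mod_cast hm
  have h1' : (F.degree : ℝ) ≤ 4 * m := by exact_mod_cast h1
  rw [hfin, div_lt_iff₀ hmpos]
  rcases Nat.lt_or_ge m 3 with h3 | h3
  · have h4 := sub_finrank H hf hm _ hWmap j (by
      rintro _ ⟨s, -, rfl⟩
      exact ⟨s, rfl⟩)
    have h5 : (Module.finrank ℂ (W.map (j.restrictScalars ℂ)) : ℝ) ≤ 3 * m - 1 := by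
      have : Module.finrank ℂ (W.map (j.restrictScalars ℂ)) + 1 ≤ 3 * m := by omega
      have h6 : ((Module.finrank ℂ (W.map (j.restrictScalars ℂ)) + 1 : ℕ) : ℝ) ≤
        ((3 * m : ℕ) : ℝ) := by exact_mod_cast this
      push_cast at h6
      linarith
    have hm2 : (m : ℝ) < 3 := by exact_mod_cast h3
    push_cast
    nlinarith
  · have hm' : m = 3 := le_antisymm hm3 h3
    subst hm'
    have h4 : W.map (j.restrictScalars ℂ) < (stdSystem H).space :=
      lt_of_le_of_ne hWmap fun h => hne ⟨rfl, h⟩
    have hstdfin : FiniteDimensional ℂ (stdSystem H).space :=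
      Module.finite_of_finrank_pos (by rw [(stdSystem H).finrank_eq]; norm_num)
    have h5 := Submodule.finrank_lt_finrank_of_lt h4
    rw [(stdSystem H).finrank_eq] at h5
    have h6 : (Module.finrank ℂ (W.map (j.restrictScalars ℂ)) : ℝ) ≤ 7 := by
      have : Module.finrank ℂ (W.map (j.restrictScalars ℂ)) ≤ 7 := by omega
      exact_mod_cast this
    push_cast at h1' ⊢
    linarith

end stable

end Pool.Agent.Helper395.CS
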