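import Pool.Agent.Helper395.CS.Unique

open scoped WithZero Matrix Polynomial IntermediateField
open WithZero

set_option linter.unusedSectionVars false

namespace Pool.Agent.Helper395.CS

variable {K : Type} [Field K] [Algebra ℂ K] {n : ℕ} {x : K}

theorem gl_injective (A : GL (Fin n) K) :
    Function.Injective ((Matrix.mulVecLin A.1).restrictScalars ℂ) := by
  intro a b hab
  have h : A.1 *ᵥ a = A.1 *ᵥ b := hab
  rw [← gl_inv_mulVec A a, h, gl_inv_mulVec]

theorem pev_le (v : Point K) (b : ℕ) (c : Fin (b + 1) → ℂ) :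
    v.val (pev x (b + 1) c) ≤ v.val (dgen x v b) := by
  rw [pev_apply]
  refine Valuation.map_sum_le _ fun j _ => ?_
  rw [Algebra.smul_def, map_mul, map_pow]
  refine (mul_le_of_le_one_left' (v.const_le _)).trans ?_
  by_cases hv : v.val x ≤ 1
  · rw [dgen_fin hv, map_one]
    exact pow_le_one' hv _
  · rw [dgen_inf (not_le.1 hv), map_pow]
    exact pow_le_pow_right₀ (not_le.1 hv).le (by omega)

/-- the trace form -/
noncomputable def tr3 : ((_ : Fin 3) → Fin (2 + 1) → ℂ) →ₗ[ℂ] ℂ where
  toFun c := ∑ i : Fin 3, c i i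
  map_add' c d := by simp [Finset.sum_add_distrib]
  map_smul' c d := by simp [Finset.mul_sum]

theorem tr3_apply (c : (_ : Fin 3) → Fin (2 + 1) → ℂ) : tr3 c = ∑ i : Fin 3, c i i := rfl

/-- the standard basis vectors -/
def stdVec (K : Type) [Field K] : Fin 3 → Fin 3 → K := fun i => Pi.single i 1

theorem stdVec_li : LinearIndependent K (stdVec K) := by
  have := (Pi.basisFun K (Fin 3)).linearIndependent
  convert this
  ext i
  simp [stdVec]

theorem psi_std (x : K) (c : (_ : Fin 3) → Fin (2 + 1) → ℂ) (i : Fin 3) :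
    psi x (stdVec K) (fun _ => 2) c i = pev x (2 + 1) (c i) := by
  rw [psi_apply, Finset.sum_apply, Finset.sum_eq_single i]
  · simp [stdVec]
  · intro l _ hl
    simp [stdVec, Pi.single_eq_of_ne (Ne.symm hl)]
  · simp

/-- the space of sections of the standard coherent system -/
noncomputable def stdSpace (x : K) : Submodule ℂ (Fin 3 → K) :=
  (LinearMap.ker tr3).map (psi x (stdVec K) (fun _ => 2))

theorem tr3_finrank : Module.finrank ℂ (LinearMap.ker tr3) = 8 := by
  have h1 := LinearMap.finrank_range_add_finrank_ker tr3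
  have h2 : Module.finrank ℂ ((_ : Fin 3) → Fin (2 + 1) → ℂ) = 9 := by
    rw [finrank_psi (fun _ : Fin 3 => 2)]
    simp
  have h3 : LinearMap.range tr3 = ⊤ := by
    rw [LinearMap.range_eq_top]
    apply LinearMap.surjective_of_ne_zero
    intro h
    have := congrArg (fun f => f (fun i j => if i = 0 ∧ j = 0 then (1 : ℂ) else 0)) h
    simp [tr3_apply] at this
  rw [h2, h3, finrank_top, Module.finrank_self] at h1
  omega

theorem stdSpace_finrank (hx : Transcendental ℂ x) : Module.finrank ℂ (stdSpace x) = 8 := by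
  rw [← tr3_finrank]
  exact (LinearEquiv.finrank_eq (Submodule.equivMapOfInjective _
    (psi_injective hx stdVec_li _) _)).symm

/-- the standard bundle `O(2H)^3` -/
noncomputable def stdBundle (hK : IsCurve K) (hx : x ≠ 0) : Bundle K 3 :=
  gBundle hK hx 1 (fun _ => 2)

theorem mem_stdBundle (hK : IsCurve K) (hx : x ≠ 0) (v : Point K) (s : Fin 3 → K) :
    s ∈ (stdBundle hK hx).stalk v ↔ ∀ i, v.val (s i) ≤ v.val (dgen x v 2) := by
  rw [stdBundle, mem_gBundle_iff]
  simp

/-- the standard coherent system -/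
noncomputable def stdSystem {y : K} {f : ℂ[X]} {ι : K ≃ₐ[ℂ] K} (H : Hyp x y f ι) :
    CoherentSystem K 3 12 8 where
  bundle := stdBundle H.curve H.x_ne
  space := stdSpace x
  le_sections := by
    rintro _ ⟨c, -, rfl⟩ v
    rw [mem_stdBundle]
    intro i
    rw [psi_std]
    exact pev_le v 2 _
  degree_eq := by
    rw [stdBundle, gBundle_degree, H.degP_x]
    simp
  finrank_eq := stdSpace_finrank H.trans

section unique

variable {y : K} {f : ℂ[X]} {ι : K ≃ₐ[ℂ] K} (H : Hyp x y f ι) (hf : 48 < f.natDegree)

include H hf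

theorem exists_reduced_system (S : CoherentSystem K 3 12 8) (hS : S.IsStable 12) :
    ∃ (w : GL (Fin 3) K) (b : Fin 3 → ℕ), Pres x S.space 3 (fun i l => w.1 l i) b ∧
      (∀ v : Point K, v.val x ≤ 1 → ∀ i, (fun l => w.1 l i) ∈ S.bundle.stalk v) ∧
      (∀ v : Point K, 1 < v.val x → ∀ i, x ^ b i • (fun l => w.1 l i) ∈ S.bundle.stalk v) := by
  have hfin : FiniteDimensional ℂ S.space :=
    Module.finite_of_finrank_pos (by rw [S.finrank_eq]; norm_num)
  -- `V` spans the generic fibre
  obtain ⟨m, u, hu, hli, hspan⟩ := exists_basis_of_span S.space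
  have hm3 : m ≤ 3 := by
    have := hli.fintype_card_le_finrank
    simpa using this
  have hm0 : m ≠ 0 := by
    rintro rfl
    have h1 : S.space = ⊥ := by
      rw [Submodule.eq_bot_iff]
      intro s hs
      have := hspan s hs
      simpa using this
    have h2 := S.finrank_eq
    rw [h1, finrank_bot] at h2
    norm_num at h2
  have hm : m = 3 := by
    by_contra hne
    have h1 := stab_bound H.curve S hS S.space le_rfl u hu hli hspan (Nat.pos_of_ne_zero hm0)
      (by omega)
    rw [S.finrank_eq] at h1
    have hm2 : (m : ℝ) ≤ 2 := by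
      have : m ≤ 2 := by omega
      exact_mod_cast this
    have hmpos : (0 : ℝ) < m := by exact_mod_cast Nat.pos_of_ne_zero hm0
    rw [div_lt_iff₀ hmpos] at h1
    norm_num at h1
    linarith
  subst hm
  -- the matrix of the basis
  let A0 : Matrix (Fin 3) (Fin 3) K := fun l i => u i l
  have hA0 : IsUnit A0 := by
    rw [← Matrix.linearIndependent_cols_iff_isUnit]
    exact hli
  obtain ⟨A, hA⟩ := hA0
  have hAsec : ∀ j, (fun i => A.1 i j) ∈ S.bundle.sections := by
    intro j
    rw [hA]
    exact S.le_sections (hu j)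
  have hcoord : ∀ s ∈ S.bundle.sections, ∀ i, (A⁻¹.1 *ᵥ s) i ∈ ℂ⟮x⟯ := by
    intro s hs i
    apply H.mem_of_degP
    have := pole_bound H.curve S.bundle A hAsec s hs i
    rw [S.degree_eq] at this
    omega
  set V' : Submodule ℂ (Fin 3 → K) :=
    S.space.map ((Matrix.mulVecLin A⁻¹.1).restrictScalars ℂ) with hV'
  have hV'fin : FiniteDimensional ℂ V' := by
    rw [hV']
    exact Module.Finite.map _ _
  obtain ⟨r, w0, b0, hP0⟩ := exists_pres H.trans V' (by
    rintro _ ⟨s, hs, rfl⟩ i
    exact hcoord s (S.le_sections hs) i)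
  have hback : V'.map ((Matrix.mulVecLin A.1).restrictScalars ℂ) = S.space := by
    rw [hV', ← Submodule.map_comp]
    have : ((Matrix.mulVecLin A.1).restrictScalars ℂ).comp
        ((Matrix.mulVecLin A⁻¹.1).restrictScalars ℂ) = LinearMap.id := by
      apply LinearMap.ext
      intro s
      exact gl_mulVec_inv A s
    rw [this, Submodule.map_id]
  have hP1 := hP0.map A
  rw [hback] at hP1
  obtain ⟨w, b, hP, hloc⟩ := hP1.exists_reduced H.curve H.trans
  -- the rank is three
  have hr : r = 3 := by
    apply le_antisymm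
    · have := hP.li.fintype_card_le_finrank
      simpa using this
    · have h1 : ∀ i, u i ∈ Submodule.span K (Set.range w) := by
        intro i
        obtain ⟨p, -, hp⟩ := hP.rep (u i) (hu i)
        rw [hp]
        exact Submodule.sum_mem _ fun l _ => Submodule.smul_mem _ _ (Submodule.subset_span ⟨l, rfl⟩)
      have h2 : Submodule.span K (Set.range u) ≤ Submodule.span K (Set.range w) := by
        rw [Submodule.span_le]
        rintro _ ⟨i, rfl⟩
        exact h1 i
      have h3 := Submodule.finrank_mono h2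
      rw [finrank_span_eq_card hli, finrank_span_eq_card hP.li] at h3
      simpa using h3
  subst hr
  let W0 : Matrix (Fin 3) (Fin 3) K := fun l i => w i l
  have hW0 : IsUnit W0 := by
    rw [← Matrix.linearIndependent_cols_iff_isUnit]
    exact hP.li
  obtain ⟨W, hW⟩ := hW0
  have hWw : (fun i l => W.1 l i) = w := by
    rw [hW]
  refine ⟨W, b, ?_, ?_, ?_⟩
  · rw [hWw]
    exact hP
  · intro v hv i
    have := (hloc S.bundle S.le_sections).1 v hv i
    rw [← hWw] at this
    exact this
  · intro v hv i
    have := (hloc S.bundle S.le_sections).2 v hv i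
    rw [← hWw] at this
    exact this

theorem line_bound (S : CoherentSystem K 3 12 8) (hS : S.IsStable 12)
    (T : Submodule ℂ (Fin 3 → K)) (hT : T ≤ S.space) (w : Fin 3 → K)
    (hw : ∀ s ∈ T, s ∈ Submodule.span K {w}) : Module.finrank ℂ T ≤ 2 := by
  by_cases hT0 : T = ⊥
  · rw [hT0, finrank_bot]
    norm_num
  obtain ⟨t, htT, ht0⟩ := Submodule.exists_mem_ne_zero_of_ne_bot hT0
  have hli : LinearIndependent K (fun _ : Fin 1 => t) := by
    rw [linearIndependent_unique_iff]
    exact ht0
  have hspan : ∀ s ∈ T, s ∈ Submodule.span K (Set.range (fun _ : Fin 1 => t)) := by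
    intro s hs
    rw [Set.range_const]
    obtain ⟨a, ha⟩ := Submodule.mem_span_singleton.1 (hw t htT)
    obtain ⟨c, hc⟩ := Submodule.mem_span_singleton.1 (hw s hs)
    have ha0 : a ≠ 0 := by
      rintro rfl
      rw [zero_smul] at ha
      exact ht0 ha.symm
    rw [Submodule.mem_span_singleton]
    refine ⟨c * a⁻¹, ?_⟩
    rw [← ha, smul_smul, mul_assoc, inv_mul_cancel₀ ha0, mul_one, hc]
  have h1 := stab_bound H.curve S hS T hT (fun _ : Fin 1 => t) (fun _ => htT) hli hspan
    (by norm_num) (by norm_num)
  norm_num at h1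
  have h2 : (Module.finrank ℂ T : ℝ) < 3 := by linarith
  have h3 : Module.finrank ℂ T < 3 := by exact_mod_cast h2
  omega

theorem unique_std (S : CoherentSystem K 3 12 8) (hS : S.IsStable 12) :
    ∃ A : GL (Fin 3) K, IsBundleIso S.bundle (stdSystem H).bundle A ∧
      S.space.map ((Matrix.mulVecLin A.1).restrictScalars ℂ) = (stdSystem H).space := by
  classical
  obtain ⟨w, b, hP, hfin, hinf⟩ := exists_reduced_system H hf S hS
  have hcmp := gBundle_le H.curve H.x_ne S.bundle w b hfin hinf
  have hdeg : (gBundle H.curve H.x_ne w b).degree = ((∑ i, b i : ℕ) : ℤ) * 2 := by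
    rw [gBundle_degree, H.degP_x]
  have hsum : ∑ i, b i ≤ 6 := by
    have := hcmp.1
    rw [hdeg, S.degree_eq] at this
    omega
  have hline : ∀ i, b i + 4 ≤ ∑ l, b l := by
    intro i
    obtain ⟨T, hTV, hTw, hTd⟩ := line_finrank H.trans hP i
    have h1 := line_bound H hf S hS T hTV _ hTw
    rw [S.finrank_eq] at hTd
    omega
  have h0 := hline 0
  have h1 := hline 1
  have h2 := hline 2
  rw [Fin.sum_univ_three] at h0 h1 h2 hsum
  have hb : b = fun _ => 2 := by
    funext i
    fin_cases i <;> simp <;> omega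
  subst hb
  have hstalk := hcmp.2 (by rw [hdeg, S.degree_eq]; simp)
  -- the coefficient space is a hyperplane
  set Q := Pres.coeffSpace x S.space (fun i l => w.1 l i) (fun _ => 2) with hQ
  have hQfin : Module.finrank ℂ Q = 8 := by
    rw [hQ, hP.finrank_coeffSpace H.trans, S.finrank_eq]
  have h9 : Module.finrank ℂ ((_ : Fin 3) → Fin (2 + 1) → ℂ) = 9 := by
    rw [finrank_psi (fun _ : Fin 3 => 2)]
    simp
  have hlt : Q < ⊤ := by
    rw [lt_top_iff_ne_top]
    intro htop
    rw [htop, finrank_top, h9] at hQfin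
    norm_num at hQfin
  obtain ⟨φ, hφ0, hφ⟩ := Submodule.exists_le_ker_of_lt_top Q hlt
  have hQφ : Q = LinearMap.ker φ := by
    apply Submodule.eq_of_le_of_finrank_eq hφ
    have h3 := LinearMap.finrank_range_add_finrank_ker φ
    have h4 : LinearMap.range φ = ⊤ := by
      rw [LinearMap.range_eq_top]
      exact LinearMap.surjective_of_ne_zero hφ0
    rw [h9, h4, finrank_top, Module.finrank_self] at h3
    omega
  -- the matrix of the functional
  let M : Matrix (Fin 3) (Fin 3) ℂ := fun j i => φ (fun a b => if a = i ∧ b = j then 1 else 0)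
  have hφM : ∀ c : (_ : Fin 3) → Fin (2 + 1) → ℂ, φ c = ∑ i : Fin 3, ∑ j : Fin 3, M j i * c i j := by
    intro c
    have hc : c = ∑ i : Fin 3, ∑ j : Fin 3, c i j •
        (fun (a : Fin 3) (b : Fin (2 + 1)) => if a = i ∧ b = j then (1 : ℂ) else 0) := by
      funext a b
      simp only [Finset.sum_apply, Pi.smul_apply, smul_eq_mul, mul_ite, mul_one, mul_zero]
      rw [Finset.sum_eq_single a, Finset.sum_eq_single b]
      · simp
      · intro j _ hj
        simp [Ne.symm hj]
      · simp
      · intro i _ hi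
        exact Finset.sum_eq_zero fun j _ => by simp [Ne.symm hi]
      · simp
    conv_lhs => rw [hc]
    rw [map_sum]
    refine Finset.sum_congr rfl fun i _ => ?_
    rw [map_sum]
    refine Finset.sum_congr rfl fun j _ => ?_
    rw [map_smul, smul_eq_mul, mul_comm]
  have hMdet : M.det ≠ 0 := by
    intro hdet
    obtain ⟨u, hu0, hu⟩ := Matrix.exists_mulVec_eq_zero_iff.2 hdet
    -- the line through `∑ u_i w_i`
    let T : Submodule ℂ (Fin 3 → K) := LinearMap.range
      ({ toFun := fun t : Fin (2 + 1) → ℂ => psi x (fun i l => w.1 l i) (fun _ => 2)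
          (fun i j => u i * t j)
         map_add' := fun s t => by
          rw [← map_add]; congr 1; funext i j; simp [mul_add]
         map_smul' := fun c t => by
          rw [RingHom.id_apply, ← map_smul]; congr 1; funext i j; simp [mul_left_comm] } :
        (Fin (2 + 1) → ℂ) →ₗ[ℂ] (Fin 3 → K))
    have hpsi : ∀ t : Fin (2 + 1) → ℂ, psi x (fun i l => w.1 l i) (fun _ => 2)
        (fun i j => u i * t j) = pev x (2 + 1) t • ∑ i, algebraMap ℂ K (u i) • (fun l => w.1 l i) := by
      intro t
      rw [psi_apply, Finset.smul_sum]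
      refine Finset.sum_congr rfl fun i _ => ?_
      have : pev x (2 + 1) (fun j => u i * t j) = algebraMap ℂ K (u i) * pev x (2 + 1) t := by
        have h5 : (fun j => u i * t j) = u i • t := rfl
        rw [h5, map_smul, Algebra.smul_def]
      rw [this, smul_smul, mul_comm]
    have hT := line_bound H hf S hS T (by
      rintro _ ⟨t, rfl⟩
      change (fun i j => u i * t j) ∈ Q
      rw [hQφ, LinearMap.mem_ker, hφM, Finset.sum_comm]
      refine Finset.sum_eq_zero fun j _ => ?_
      have h6 := congrFun hu j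
      rw [Matrix.mulVec, dotProduct, Pi.zero_apply] at h6
      calc ∑ i, M j i * (u i * t j) = (∑ i, M j i * u i) * t j := by
            rw [Finset.sum_mul]
            exact Finset.sum_congr rfl fun i _ => by ring
        _ = 0 := by rw [h6, zero_mul]) (∑ i, algebraMap ℂ K (u i) • (fun l => w.1 l i)) (by
      rintro _ ⟨t, rfl⟩
      change psi x (fun i l => w.1 l i) (fun _ => 2) (fun i j => u i * t j) ∈ _
      rw [hpsi]
      exact Submodule.smul_mem _ _ (Submodule.mem_span_singleton_self _))
    have hTfin : Module.finrank ℂ T = 3 := by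
      rw [LinearMap.finrank_range_of_inj]
      · simp
      · intro s t hst
        change psi x (fun i l => w.1 l i) (fun _ => 2) (fun i j => u i * s j) =
          psi x (fun i l => w.1 l i) (fun _ => 2) (fun i j => u i * t j) at hst
        have h7 := psi_injective H.trans hP.li _ hst
        obtain ⟨i, hi⟩ := Function.ne_iff.1 hu0
        funext j
        have h8 := congrFun (congrFun h7 i) j
        exact mul_left_cancel₀ hi h8
    omega
  -- the isomorphism
  set MK : Matrix (Fin 3) (Fin 3) K := M.map (algebraMap ℂ K) with hMK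
  have hMKdet : MK.det ≠ 0 := by
    rw [hMK, ← RingHom.mapMatrix_apply, ← RingHom.map_det]
    exact (map_ne_zero _).2 hMdet
  set G : GL (Fin 3) K := Matrix.GeneralLinearGroup.mkOfDetNeZero MK hMKdet with hG
  have hG1 : G.1 = MK := rfl
  have hGreg : ∀ v : Point K, v.RegM G.1 := by
    intro v i j
    rw [hG1]
    exact v.const_le _
  have hGinv : ∀ v : Point K, v.RegM G⁻¹.1 := by
    intro v
    apply (hGreg v).inv
    rw [hG1, hMK, ← RingHom.mapMatrix_apply, ← RingHom.map_det]
    exact v.const _ hMdet
  have hscale : ∀ (v : Point K) (d : K), d ≠ 0 → ∀ (N : Matrix (Fin 3) (Fin 3) K), v.RegM N →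
      ∀ s : Fin 3 → K, (∀ i, v.val (s i) ≤ v.val d) → ∀ i, v.val ((N *ᵥ s) i) ≤ v.val d := by
    intro v d _ N hN s hs i
    rw [Matrix.mulVec, dotProduct]
    refine Valuation.map_sum_le _ fun j _ => ?_
    rw [map_mul]
    exact (mul_le_of_le_one_left' (hN i j)).trans (hs j)
  refine ⟨G * w⁻¹, ?_, ?_⟩
  · intro v s
    rw [hstalk v s]
    change _ ↔ (G * w⁻¹).1 *ᵥ s ∈ (stdBundle H.curve H.x_ne).stalk v
    rw [mem_stdBundle, Units.val_mul, ← Matrix.mulVec_mulVec]
    constructor
    · intro h
      exact hscale v _ (dgen_ne H.x_ne v 2) _ (hGreg v) _ h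
    · intro h
      have h5 := hscale v _ (dgen_ne H.x_ne v 2) _ (hGinv v) _ h
      rw [gl_inv_mulVec] at h5
      exact h5
  · have hle : S.space.map ((Matrix.mulVecLin (G * w⁻¹).1).restrictScalars ℂ) ≤ stdSpace x := by
      rintro _ ⟨s, hs, rfl⟩
      obtain ⟨c, hc⟩ := hP.le_range hs
      have hcQ : c ∈ Q := by
        change psi x _ _ c ∈ S.space
        rw [hc]; exact hs
      rw [hQφ, LinearMap.mem_ker, hφM] at hcQ
      refine ⟨fun i j => ∑ l, M i l * c l j, ?_, ?_⟩
      · change tr3 _ = 0
        rw [tr3_apply, ← hcQ, Finset.sum_comm]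
      · change psi x (stdVec K) (fun _ => 2) (fun i j => ∑ l, M i l * c l j) = (G * w⁻¹).1 *ᵥ s
        have h5 : w⁻¹.1 *ᵥ s = fun i => pev x (2 + 1) (c i) := by
          have h6 : s = w.1 *ᵥ (fun i => pev x (2 + 1) (c i)) := by
            rw [← hc, psi_apply]
            ext l
            simp only [Finset.sum_apply, Pi.smul_apply, smul_eq_mul, Matrix.mulVec, dotProduct]
            exact Finset.sum_congr rfl fun i _ => mul_comm _ _
          rw [h6, gl_inv_mulVec]
        rw [Units.val_mul, ← Matrix.mulVec_mulVec, h5]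
        ext i
        rw [psi_std, Matrix.mulVec, dotProduct]
        have h7 : (fun j => ∑ l, M i l * c l j) = ∑ l, M i l • c l := by
          funext j
          simp
        rw [h7, map_sum]
        refine Finset.sum_congr rfl fun l _ => ?_
        rw [map_smul, Algebra.smul_def]
        rfl
    have : FiniteDimensional ℂ (stdSpace x) :=
      Module.finite_of_finrank_pos (by rw [stdSpace_finrank H.trans]; norm_num)
    apply Submodule.eq_of_le_of_finrank_eq hle
    have h10 := LinearEquiv.finrank_eq (Submodule.equivMapOfInjective _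
      (gl_injective (G * w⁻¹)) S.space)
    rw [stdSpace_finrank H.trans, ← h10]
    exact S.finrank_eq

end unique

end Pool.Agent.Helper395.CS
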