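import Pool.Agent.Helper395.CS.GBundle

open scoped WithZero Matrix Polynomial IntermediateField
open WithZero

set_option linter.unusedSectionVars false

namespace Pool.Agent.Helper395.CS

variable {K : Type} [Field K] [Algebra ℂ K] {n : ℕ} {x : K}

/-- the bound on subsystems given by stability -/
theorem stab_bound (hK : IsCurve K) {d : ℤ} {k : ℕ} (S : CoherentSystem K n d k) {α : ℝ}
    (hS : S.IsStable α) (T : Submodule ℂ (Fin n → K)) (hT : T ≤ S.space) {m : ℕ}
    (u : Fin m → Fin n → K) (hu : ∀ i, u i ∈ T) (hli : LinearIndependent K u)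
    (hspan : ∀ s ∈ T, s ∈ Submodule.span K (Set.range u)) (hm : 0 < m) (hmn : m < n) :
    α * (Module.finrank ℂ T : ℝ) / m < ((d : ℝ) + α * (k : ℝ)) / n := by
  classical
  let J : Matrix (Fin n) (Fin m) K := fun l i => u i l
  have hJcol : ∀ t : Fin m → K, J *ᵥ t = ∑ i, t i • u i := by
    intro t
    ext l
    simp only [J, Matrix.mulVec, dotProduct, Finset.sum_apply, Pi.smul_apply, smul_eq_mul]
    exact Finset.sum_congr rfl fun i _ => mul_comm _ _
  have hJ : Function.Injective J.mulVec := by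
    rw [Matrix.mulVec_injective_iff]
    exact hli
  obtain ⟨F, hF⟩ := exists_subbundle hK S.bundle J hJ
  -- the sections of `F`
  let W : Submodule ℂ (Fin m → K) := T.comap (J.mulVecLin.restrictScalars ℂ)
  have hWmap : W.map (J.mulVecLin.restrictScalars ℂ) = T := by
    apply le_antisymm
    · exact Submodule.map_comap_le _ _
    · intro s hs
      obtain ⟨c, hc⟩ := (Submodule.mem_span_range_iff_exists_fun K).1 (hspan s hs)
      have h1 : J *ᵥ c = s := by rw [hJcol, hc]
      exact ⟨c, by change J *ᵥ c ∈ T; rw [h1]; exact hs, h1⟩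
  have hWfin : Module.finrank ℂ W = Module.finrank ℂ T := by
    conv_rhs => rw [← hWmap]
    exact (LinearEquiv.finrank_eq (Submodule.equivMapOfInjective _ hJ W))
  have hWF : W ≤ F.sections := by
    intro t ht v
    rw [hF.stalk]
    exact S.le_sections (hT ht) v
  have hdeg : 0 ≤ F.degree := by
    apply degree_nonneg hK F 1
    intro j
    have h2 : (fun i => (1 : GL (Fin m) K).1 i j) = Pi.single j 1 := by
      ext i
      rw [Units.val_one, Matrix.one_apply, Pi.single_apply]
    rw [h2]
    apply hWF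
    change J *ᵥ (Pi.single j 1) ∈ T
    rw [Matrix.mulVec_single_one]
    exact hu j
  have h3 := hS m F J.mulVecLin W hm hF hWF (by rw [hWmap]; exact hT) (by
    rintro ⟨h, -⟩
    omega)
  rw [hWfin] at h3
  refine lt_of_le_of_lt ?_ h3
  have hm' : (0 : ℝ) < m := by exact_mod_cast hm
  rw [div_le_div_iff_of_pos_right hm']
  have : (0 : ℝ) ≤ F.degree := by exact_mod_cast hdeg
  linarith

theorem exists_basis_of_span (T : Submodule ℂ (Fin n → K)) : ∃ (m : ℕ) (u : Fin m → Fin n → K),
    (∀ i, u i ∈ T) ∧ LinearIndependent K u ∧ (∀ s ∈ T, s ∈ Submodule.span K (Set.range u)) := by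
  obtain ⟨B, hB, hspan, hli⟩ := exists_linearIndependent K (T : Set (Fin n → K))
  have hBfin : Finite B := hli.finite
  obtain ⟨r, ⟨e⟩⟩ := Finite.exists_equiv_fin B
  refine ⟨r, fun i => (e.symm i).1, fun i => hB (e.symm i).2, hli.comp e.symm e.symm.injective, ?_⟩
  intro s hs
  have hrange : Set.range (fun i => (e.symm i).1) = B := by
    ext s
    constructor
    · rintro ⟨i, rfl⟩
      exact (e.symm i).2
    · intro hs
      exact ⟨e ⟨s, hs⟩, by simp⟩
  rw [hrange, hspan]
  exact Submodule.subset_span hs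

/-- transport of presentations -/
theorem Pres.map {V : Submodule ℂ (Fin n → K)} {r : ℕ} {w : Fin r → Fin n → K}
    {b : Fin r → ℕ} (h : Pres x V r w b) (A : GL (Fin n) K) :
    Pres x (V.map ((Matrix.mulVecLin A.1).restrictScalars ℂ)) r (fun i => A.1 *ᵥ w i) b := by
  have hinj : Function.Injective (Matrix.mulVecLin A.1) := by
    intro a b hab
    have := congrArg (A⁻¹.1 *ᵥ ·) hab
    simpa [gl_inv_mulVec] using this
  refine ⟨?_, ?_, ?_⟩
  · exact h.li.map' (Matrix.mulVecLin A.1) (LinearMap.ker_eq_bot.2 hinj)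
  · intro i
    have h1 := Submodule.mem_map_of_mem (f := Matrix.mulVecLin A.1) (h.mem i)
    rw [Submodule.map_span] at h1
    exact h1
  · rintro _ ⟨s, hs, rfl⟩
    obtain ⟨p, hp, rfl⟩ := h.rep s hs
    refine ⟨p, hp, ?_⟩
    change A.1 *ᵥ (∑ i, Polynomial.aeval x (p i) • w i) = _
    rw [Matrix.mulVec_sum]
    exact Finset.sum_congr rfl fun i _ => Matrix.mulVec_smul _ _ _

/-- evaluation of a polynomial of degree `< m` at `x` -/
noncomputable def pev (x : K) (m : ℕ) : (Fin m → ℂ) →ₗ[ℂ] K where
  toFun c := ∑ j : Fin m, c j • x ^ (j : ℕ)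
  map_add' c d := by simp [add_smul, Finset.sum_add_distrib]
  map_smul' c d := by simp [Finset.smul_sum, smul_smul]

theorem pev_apply (x : K) (m : ℕ) (c : Fin m → ℂ) : pev x m c = ∑ j : Fin m, c j • x ^ (j : ℕ) := rfl

theorem pev_eq_aeval (x : K) (m : ℕ) (c : Fin m → ℂ) :
    pev x m c = Polynomial.aeval x (∑ j : Fin m, Polynomial.monomial (j : ℕ) (c j)) := by
  rw [pev_apply, map_sum]
  exact Finset.sum_congr rfl fun j _ => by rw [Polynomial.aeval_monomial, Algebra.smul_def]

theorem pev_injective (hx : Transcendental ℂ x) (m : ℕ) : Function.Injective (pev x m) := by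
  rw [← LinearMap.ker_eq_bot, LinearMap.ker_eq_bot']
  intro c hc
  rw [pev_eq_aeval] at hc
  have h1 : (∑ j : Fin m, Polynomial.monomial (j : ℕ) (c j)) = 0 := by
    by_contra h
    exact aeval_ne_zero hx h hc
  funext l
  have h2 := congrArg (fun p => Polynomial.coeff p (l : ℕ)) h1
  simp only [Polynomial.finsetSum_coeff, Polynomial.coeff_monomial, Polynomial.coeff_zero] at h2
  rw [Finset.sum_eq_single l] at h2
  · simpa using h2
  · intro j _ hj
    rw [if_neg]
    intro h
    exact hj (Fin.ext h)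
  · simp

theorem pev_coeff (x : K) (p : ℂ[X]) {m : ℕ} (hp : p.natDegree ≤ m) :
    pev x (m + 1) (fun j => p.coeff j) = Polynomial.aeval x p := by
  rw [pev_apply, Polynomial.aeval_eq_sum_range' (n := m + 1) (by omega),
    Finset.sum_range (fun i => p.coeff i • x ^ i)]

/-- combinations of vectors with polynomial coefficients -/
noncomputable def psi (x : K) {r : ℕ} (w : Fin r → Fin n → K) (b : Fin r → ℕ) :
    ((i : Fin r) → Fin (b i + 1) → ℂ) →ₗ[ℂ] (Fin n → K) where
  toFun c := ∑ i, pev x (b i + 1) (c i) • w i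
  map_add' c d := by simp [add_smul, Finset.sum_add_distrib]
  map_smul' c d := by simp [Finset.smul_sum]

theorem psi_apply (x : K) {r : ℕ} (w : Fin r → Fin n → K) (b : Fin r → ℕ)
    (c : (i : Fin r) → Fin (b i + 1) → ℂ) : psi x w b c = ∑ i, pev x (b i + 1) (c i) • w i := rfl

theorem psi_injective (hx : Transcendental ℂ x) {r : ℕ} {w : Fin r → Fin n → K}
    (hw : LinearIndependent K w) (b : Fin r → ℕ) : Function.Injective (psi x w b) := by
  rw [← LinearMap.ker_eq_bot, LinearMap.ker_eq_bot']
  intro c hc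
  rw [psi_apply] at hc
  funext i
  have := Fintype.linearIndependent_iff.1 hw _ hc i
  exact pev_injective hx _ (by rw [this]; exact (map_zero _).symm)

theorem finrank_psi {r : ℕ} (b : Fin r → ℕ) :
    Module.finrank ℂ ((i : Fin r) → Fin (b i + 1) → ℂ) = ∑ i, b i + r := by
  rw [Module.finrank_pi_fintype]
  simp [Finset.sum_add_distrib]

theorem Pres.le_range {V : Submodule ℂ (Fin n → K)} {r : ℕ} {w : Fin r → Fin n → K}
    {b : Fin r → ℕ} (h : Pres x V r w b) : V ≤ LinearMap.range (psi x w b) := by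
  intro s hs
  obtain ⟨p, hp, rfl⟩ := h.rep s hs
  refine ⟨fun i j => (p i).coeff j, ?_⟩
  rw [psi_apply]
  exact Finset.sum_congr rfl fun i _ => by rw [pev_coeff x (p i) (hp i)]

/-- the coefficient space of `V` -/
noncomputable def Pres.coeffSpace (x : K) (V : Submodule ℂ (Fin n → K)) {r : ℕ} (w : Fin r → Fin n → K)
    (b : Fin r → ℕ) : Submodule ℂ ((i : Fin r) → Fin (b i + 1) → ℂ) := V.comap (psi x w b)

theorem Pres.finrank_coeffSpace (hx : Transcendental ℂ x) {V : Submodule ℂ (Fin n → K)} {r : ℕ}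
    {w : Fin r → Fin n → K} {b : Fin r → ℕ} (h : Pres x V r w b) :
    Module.finrank ℂ (Pres.coeffSpace x V w b) = Module.finrank ℂ V := by
  have h1 : (Pres.coeffSpace x V w b).map (psi x w b) = V := by
    rw [Pres.coeffSpace, Submodule.map_comap_eq, inf_eq_right]
    exact h.le_range
  conv_rhs => rw [← h1]
  exact LinearEquiv.finrank_eq (Submodule.equivMapOfInjective _ (psi_injective hx h.li b) _)

/-- the part of `V` in the line spanned by `w i` -/
theorem line_finrank (hx : Transcendental ℂ x) {V : Submodule ℂ (Fin n → K)} {r : ℕ}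
    {w : Fin r → Fin n → K} {b : Fin r → ℕ} (h : Pres x V r w b) (i : Fin r) :
    ∃ T : Submodule ℂ (Fin n → K), T ≤ V ∧ (∀ s ∈ T, s ∈ Submodule.span K {w i}) ∧
      Module.finrank ℂ V + b i + 1 ≤ Module.finrank ℂ T + ∑ l, b l + r := by
  classical
  let j : (Fin (b i + 1) → ℂ) →ₗ[ℂ] ((i : Fin r) → Fin (b i + 1) → ℂ) :=
    LinearMap.single ℂ (fun i : Fin r => Fin (b i + 1) → ℂ) i
  have hj : Function.Injective j := fun s t h => by
    have := congrFun h i
    simpa [j] using this
  let Q := Pres.coeffSpace x V w b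
  let R := Q ⊓ LinearMap.range j
  refine ⟨R.map (psi x w b), ?_, ?_, ?_⟩
  · rintro _ ⟨c, hc, rfl⟩
    exact hc.1
  · rintro _ ⟨c, ⟨-, ⟨t, rfl⟩⟩, rfl⟩
    rw [psi_apply, Finset.sum_eq_single i]
    · exact Submodule.smul_mem _ _ (Submodule.mem_span_singleton_self _)
    · intro l _ hl
      have : (j t) l = 0 := by
        simp [j, hl]
      rw [this, map_zero, zero_smul]
    · simp
  · have h1 : Module.finrank ℂ (R.map (psi x w b)) = Module.finrank ℂ R :=
      (LinearEquiv.finrank_eq (Submodule.equivMapOfInjective _ (psi_injective hx h.li b) R)).symm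
    rw [h1, ← h.finrank_coeffSpace hx]
    have h2 := Submodule.finrank_sup_add_finrank_inf_eq Q (LinearMap.range j)
    have h3 : Module.finrank ℂ (LinearMap.range j) = b i + 1 := by
      rw [LinearMap.finrank_range_of_inj hj]
      simp
    have h4 : Module.finrank ℂ ↥(Q ⊔ LinearMap.range j) ≤ ∑ l, b l + r := by
      rw [← finrank_psi b]
      exact Submodule.finrank_le _
    change Module.finrank ℂ Q + b i + 1 ≤ Module.finrank ℂ R + _ + _
    rw [h3] at h2
    change _ + Module.finrank ℂ R = _ at h2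
    omega

end Pool.Agent.Helper395.CS
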